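import Pool.Agent.Helper39.KdV.Sys

/-!
# The regularised evolution equation
-/

open scoped RealInnerProductSpace Topology
open Set Filter

namespace Pool.Agent.Helper39.KdV

variable {H : Type*} [NormedAddCommGroup H] [InnerProductSpace ℝ H]

lemma hasDerivWithinAt_Ici {E : Type*} [NormedAddCommGroup E] [NormedSpace ℝ E] {f : ℝ → E} {f' : E}
    {a b x : ℝ} (h : HasDerivWithinAt f f' (Icc a b) x) (hx : x ∈ Ico a b) :
    HasDerivWithinAt f f' (Ici x) x :=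
  h.mono_of_mem_nhdsWithin (Icc_mem_nhdsGE_of_mem hx)

/-- Radial retraction onto the ball of radius `r`. -/
noncomputable def retr (r : ℝ) (x : H) : H := (r / max r ‖x‖) • x

lemma retr_eq {r : ℝ} (hr : 0 < r) {x : H} (hx : ‖x‖ ≤ r) : retr r x = x := by
  rw [retr, max_eq_left hx, div_self hr.ne', one_smul]

lemma norm_retr_le {r : ℝ} (hr : 0 < r) (x : H) : ‖retr r x‖ ≤ r := by
  have hm : 0 < max r ‖x‖ := lt_max_of_lt_left hr
  rw [retr, norm_smul, Real.norm_of_nonneg (by positivity), div_mul_eq_mul_div, div_le_iff₀ hm]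
  exact mul_le_mul_of_nonneg_left (le_max_right _ _) hr.le

lemma dist_retr_le {r : ℝ} (hr : 0 < r) (x y : H) : ‖retr r x - retr r y‖ ≤ 2 * ‖x - y‖ := by
  set a := max r ‖x‖ with ha
  set b := max r ‖y‖ with hb
  have ha0 : 0 < a := lt_max_of_lt_left hr
  have hb0 : 0 < b := lt_max_of_lt_left hr
  have hra : r ≤ a := le_max_left _ _
  have hyb : ‖y‖ ≤ b := le_max_right _ _
  have h1 : retr r x - retr r y = (r / a) • (x - y) + (r / a - r / b) • y := by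
    simp only [retr, ← ha, ← hb, smul_sub, sub_smul]
    abel
  have h2 : ‖(r / a) • (x - y)‖ ≤ ‖x - y‖ := by
    rw [norm_smul, Real.norm_of_nonneg (by positivity)]
    have : r / a ≤ 1 := (div_le_one ha0).2 hra
    nlinarith [norm_nonneg (x - y)]
  have hab : |b - a| ≤ ‖x - y‖ := by
    rw [hb, ha]
    refine (abs_max_sub_max_le_max _ _ _ _).trans ?_
    rw [sub_self, abs_zero, max_le_iff]
    refine ⟨norm_nonneg _, ?_⟩
    rw [norm_sub_rev]
    exact abs_norm_sub_norm_le _ _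
  have h3 : ‖(r / a - r / b) • y‖ ≤ ‖x - y‖ := by
    rw [norm_smul, Real.norm_eq_abs]
    have e : r / a - r / b = (r / a) * ((b - a) / b) := by field_simp
    rw [e, abs_mul, abs_of_pos (by positivity : 0 < r / a), abs_div, abs_of_pos hb0]
    have h4 : r / a ≤ 1 := (div_le_one ha0).2 hra
    have h5 : |b - a| / b * ‖y‖ ≤ |b - a| := by
      rw [div_mul_eq_mul_div, div_le_iff₀ hb0]
      exact mul_le_mul_of_nonneg_left hyb (abs_nonneg _)
    have h6 : 0 ≤ |b - a| / b * ‖y‖ := by positivity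
    have h7 : 0 < r / a := by positivity
    calc r / a * (|b - a| / b) * ‖y‖ = r / a * (|b - a| / b * ‖y‖) := by ring
      _ ≤ 1 * (|b - a| / b * ‖y‖) := by gcongr
      _ ≤ ‖x - y‖ := by linarith
  rw [h1]
  refine (norm_add_le _ _).trans ?_
  linarith

/-- Global existence for an ODE in a Hilbert space whose vector field is Lipschitz on balls and
orthogonal to the position. -/
lemma exists_ode [CompleteSpace H] (V : H → H)
    (hlip : ∀ r : ℝ, 0 < r → ∃ C : ℝ, 0 ≤ C ∧ ∀ x y, ‖x‖ ≤ r → ‖y‖ ≤ r →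
      ‖V x - V y‖ ≤ C * ‖x - y‖)
    (horth : ∀ x, ⟪x, V x⟫ = 0) (T : ℝ) (hT : 0 ≤ T) (x₀ : H) :
    ∃ u : ℝ → H, u 0 = x₀ ∧ (∀ t ∈ Icc 0 T, ‖u t‖ = ‖x₀‖) ∧
      ∀ t ∈ Icc 0 T, HasDerivWithinAt u (V (u t)) (Icc 0 T) t := by
  set r : ℝ := ‖x₀‖ + 1 with hr
  have hr0 : 0 < r := by positivity
  obtain ⟨C, hC, hV⟩ := hlip r hr0
  have hLip : ∀ x y, ‖V (retr r x) - V (retr r y)‖ ≤ (2 * C) * ‖x - y‖ := by
    intro x y
    refine (hV _ _ (norm_retr_le hr0 x) (norm_retr_le hr0 y)).trans ?_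
    have := dist_retr_le hr0 x y
    nlinarith
  set L : ℝ := ‖V 0‖ + C * r with hL
  have hL0 : 0 ≤ L := by positivity
  have hbd : ∀ x, ‖V (retr r x)‖ ≤ L := by
    intro x
    have h1 := hV (retr r x) 0 (norm_retr_le hr0 x) (by simpa using hr0.le)
    rw [sub_zero] at h1
    have h2 : ‖V (retr r x)‖ ≤ ‖V (retr r x) - V 0‖ + ‖V 0‖ := norm_le_norm_sub_add _ _
    have h3 := mul_le_mul_of_nonneg_left (norm_retr_le hr0 x) hC
    linarith
  have hPL : IsPicardLindelof (fun _ => V ∘ retr r) (tmin := 0) (tmax := T) ⟨0, le_refl _, hT⟩ x₀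
      (Real.toNNReal (L * T)) 0 (Real.toNNReal L) (Real.toNNReal (2 * C)) := by
    apply IsPicardLindelof.of_time_independent
    · intro x _
      rw [Real.coe_toNNReal _ hL0]
      exact hbd x
    · refine LipschitzOnWith.of_dist_le_mul fun x _ y _ => ?_
      rw [Real.coe_toNNReal _ (by positivity), dist_eq_norm, dist_eq_norm]
      exact hLip x y
    · rw [Real.coe_toNNReal _ hL0, Real.coe_toNNReal _ (by positivity)]
      simp [hT]
  obtain ⟨u, hu0, hu⟩ := hPL.exists_eq_forall_mem_Icc_hasDerivWithinAt₀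
  have hcont : ContinuousOn u (Icc 0 T) := fun t ht => (hu t ht).continuousWithinAt
  have hnorm : ∀ t ∈ Icc 0 T, ‖u t‖ ^ 2 = ‖u 0‖ ^ 2 := by
    refine constant_of_has_deriv_right_zero (hcont.norm.pow 2) fun t ht => ?_
    have h1 := (hu t (Ico_subset_Icc_self ht)).norm_sq
    have h2 : ⟪u t, (V ∘ retr r) (u t)⟫ = 0 := by
      have h3 : u t = (max r ‖u t‖ / r) • retr r (u t) := by
        rw [retr, smul_smul]
        have hm : 0 < max r ‖u t‖ := lt_max_of_lt_left hr0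
        have : max r ‖u t‖ / r * (r / max r ‖u t‖) = 1 := by field_simp
        rw [this, one_smul]
      have h4 : ⟪(max r ‖u t‖ / r) • retr r (u t), V (retr r (u t))⟫ = 0 := by
        rw [real_inner_smul_left, horth, mul_zero]
      rw [← h3] at h4
      exact h4
    rw [h2, mul_zero] at h1
    exact hasDerivWithinAt_Ici h1 ht
  have hnorm' : ∀ t ∈ Icc 0 T, ‖u t‖ = ‖x₀‖ := by
    intro t ht
    have h := hnorm t ht
    rw [hu0] at h
    exact (pow_left_inj₀ (norm_nonneg _) (norm_nonneg _) two_ne_zero).1 h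
  refine ⟨u, hu0, hnorm', fun t ht => ?_⟩
  have h := hu t ht
  have h2 : (V ∘ retr r) (u t) = V (u t) := by
    simp only [Function.comp]
    rw [retr_eq hr0 (by rw [hnorm' t ht, hr]; linarith)]
  simp only [h2] at h
  exact h

namespace Sys

variable (S : Sys H) [CompleteSpace H]

/-- The regularised vector field. -/
noncomputable def V (ε : ℝ) (u : H) : H :=
  -(S.A ε u) - S.J ε (S.B (S.A ε u) (S.A ε u))

lemma inner_V {ε : ℝ} (hε : 0 < ε) (u : H) : ⟪u, S.V ε u⟫ = 0 := by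
  rw [V, inner_sub_right, inner_neg_right, S.inner_A_self hε, ← S.J_symm hε, ← S.K_A, S.B0]
  simp

lemma V_lip {ε : ℝ} (hε : 0 < ε) (r : ℝ) (hr : 0 < r) : ∃ C : ℝ, 0 ≤ C ∧ ∀ x y : H, ‖x‖ ≤ r →
    ‖y‖ ≤ r → ‖S.V ε x - S.V ε y‖ ≤ C * ‖x - y‖ := by
  refine ⟨‖S.A ε‖ + ‖S.B‖ * (‖S.A ε‖ * (2 * r)) * ‖S.A ε‖, by positivity, fun x y hx hy => ?_⟩
  have h1 : S.V ε x - S.V ε y = -(S.A ε (x - y)) - S.J ε (S.B (S.A ε (x + y)) (S.A ε (x - y))) := by
    have h2 := S.B_sub_sub (S.A ε x) (S.A ε y)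
    rw [← map_add, ← map_sub] at h2
    rw [← h2, V, V]
    simp only [map_sub]
    abel
  have hA : ‖S.A ε (x - y)‖ ≤ ‖S.A ε‖ * ‖x - y‖ := (S.A ε).le_opNorm _
  have hA2 : ‖S.A ε (x + y)‖ ≤ ‖S.A ε‖ * (2 * r) := by
    refine ((S.A ε).le_opNorm _).trans (mul_le_mul_of_nonneg_left ?_ (norm_nonneg _))
    refine (norm_add_le _ _).trans ?_
    linarith
  rw [h1]
  calc _ ≤ ‖S.A ε (x - y)‖ + ‖S.J ε (S.B (S.A ε (x + y)) (S.A ε (x - y)))‖ := by
        rw [← norm_neg (S.A ε (x - y))]; exact norm_sub_le _ _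
    _ ≤ ‖S.A ε (x - y)‖ + ‖S.B (S.A ε (x + y)) (S.A ε (x - y))‖ := by
        gcongr; exact S.norm_J_le hε _
    _ ≤ ‖S.A ε (x - y)‖ + ‖S.B‖ * ‖S.A ε (x + y)‖ * ‖S.A ε (x - y)‖ := by
        gcongr; exact S.B.le_opNorm₂ _ _
    _ ≤ ‖S.A ε‖ * ‖x - y‖ + ‖S.B‖ * (‖S.A ε‖ * (2 * r)) * (‖S.A ε‖ * ‖x - y‖) := by
        gcongr
    _ = _ := by ring

/-- The regularised flow. -/
lemma exists_approx {ε : ℝ} (hε : 0 < ε) (T : ℝ) (hT : 0 ≤ T) (x₀ : H) :
    ∃ u : ℝ → H, u 0 = x₀ ∧ (∀ t ∈ Icc 0 T, ‖u t‖ = ‖x₀‖) ∧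
      ∀ t ∈ Icc 0 T, HasDerivWithinAt u (S.V ε (u t)) (Icc 0 T) t :=
  exists_ode (S.V ε) (fun r hr => S.V_lip hε r hr) (S.inner_V hε) T hT x₀

omit [CompleteSpace H] in
/-- The derivative of the velocity along the regularised flow. -/
lemma hasDeriv_V {ε : ℝ} {T : ℝ} {u : ℝ → H}
    (hu : ∀ t ∈ Icc 0 T, HasDerivWithinAt u (S.V ε (u t)) (Icc 0 T) t) {t : ℝ} (ht : t ∈ Icc 0 T) :
    HasDerivWithinAt (fun s => S.V ε (u s))
      (-(S.A ε (S.V ε (u t))) - S.J ε ((2 : ℝ) • S.B (S.A ε (u t)) (S.A ε (S.V ε (u t)))))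
      (Icc 0 T) t := by
  have h1 : HasDerivWithinAt (fun s => S.A ε (u s)) (S.A ε (S.V ε (u t))) (Icc 0 T) t :=
    (S.A ε).hasFDerivAt.comp_hasDerivWithinAt t (hu t ht)
  have h2 : HasDerivWithinAt (fun s => S.B (S.A ε (u s)) (S.A ε (u s)))
      (S.B (S.A ε (u t)) (S.A ε (S.V ε (u t))) + S.B (S.A ε (S.V ε (u t))) (S.A ε (u t)))
      (Icc 0 T) t := by
    have h3 : HasDerivWithinAt (fun s => S.B (S.A ε (u s))) (S.B (S.A ε (S.V ε (u t)))) (Icc 0 T) t :=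
      S.B.hasFDerivAt.comp_hasDerivWithinAt t h1
    have h4 := h3.clm_apply h1
    convert h4 using 1
    abel
  have h5 := h1.neg.sub ((S.J ε).hasFDerivAt.comp_hasDerivWithinAt t h2)
  refine h5.congr_deriv ?_
  rw [S.Bsymm (S.A ε (S.V ε (u t))) (S.A ε (u t)), ← two_smul ℝ]

/-- The energy identity for the velocity along the regularised flow. -/
lemma hasDeriv_V_norm_sq {ε : ℝ} (hε : 0 < ε) {T : ℝ} {u : ℝ → H}
    (hu : ∀ t ∈ Icc 0 T, HasDerivWithinAt u (S.V ε (u t)) (Icc 0 T) t) {t : ℝ} (ht : t ∈ Icc 0 T) :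
    HasDerivWithinAt (fun s => ‖S.V ε (u s)‖ ^ 2)
      (-(2 * ⟪S.M (S.A ε (u t)) (S.J ε (S.V ε (u t))), S.J ε (S.V ε (u t))⟫)) (Icc 0 T) t := by
  have h := (S.hasDeriv_V hu ht).norm_sq
  refine h.congr_deriv ?_
  rw [inner_sub_right, inner_neg_right, S.inner_A_self hε, ← S.J_symm hε,
    real_inner_smul_right, ← S.K_A, S.BK]
  ring

end Sys

end Pool.Agent.Helper39.KdV
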