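import Pool.Agent.Helper39.KdV.Approx

/-!
# A priori estimates for the regularised flow
-/

open scoped RealInnerProductSpace Topology
open Set Filter

namespace Pool.Agent.Helper39.KdV

variable {H : Type*} [NormedAddCommGroup H] [InnerProductSpace ℝ H]

/-- A form of Gronwall's inequality. -/
lemma gron {s s' : ℝ → ℝ} {T C κ : ℝ} (hC : 0 < C) (hκ : 0 ≤ κ)
    (h : ∀ t ∈ Icc 0 T, HasDerivWithinAt s (s' t) (Icc 0 T) t)
    (hb : ∀ t ∈ Icc 0 T, s' t ≤ C * s t + κ) :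
    ∀ t ∈ Icc 0 T, s t ≤ (s 0 + κ / C) * Real.exp (C * t) := by
  intro t ht
  have hcont : ContinuousOn s (Icc 0 T) := fun t ht => (h t ht).continuousWithinAt
  have h1 := le_gronwallBound_of_liminf_deriv_right_le (f := s) (f' := s') (δ := s 0) (K := C)
    (ε := κ) (a := 0) (b := T) hcont
    (fun x hx r hr => (hasDerivWithinAt_Ici (h x (Ico_subset_Icc_self hx)) hx).liminf_right_slope_le hr)
    le_rfl (fun x hx => hb x (Ico_subset_Icc_self hx)) t ht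
  rw [gronwallBound_of_K_ne_0 hC.ne', sub_zero] at h1
  have h2 : 0 ≤ κ / C := by positivity
  nlinarith [Real.exp_pos (C * t)]

namespace Sys

variable (S : Sys H)

/-- The elliptic estimate. -/
lemma exists_elliptic {ρ : ℝ} (hρ : 0 ≤ ρ) : ∃ C : ℝ, 0 ≤ C ∧ ∀ (f : H) (a : ℝ), ‖S.K f‖ ≤ ρ →
    ‖f‖ ≤ a + ‖S.B f f‖ → ‖f‖ ≤ 2 * a + C := by
  obtain ⟨C, hC, hm⟩ := S.interp (1 / (4 * (ρ + 1))) (by positivity)
  refine ⟨4 * C * ρ ^ 2, by positivity, fun f a hf hfa => ?_⟩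
  have h1 := S.B_le f f
  have h2 := hm f
  have h3 : ‖S.K f‖ * S.m f ≤ ρ * (1 / (4 * (ρ + 1)) * ‖f‖ + C * ρ) := by
    have h4 : C * ‖S.K f‖ ≤ C * ρ := mul_le_mul_of_nonneg_left hf hC
    have h5 : 0 ≤ S.m f := S.m_nonneg f
    calc ‖S.K f‖ * S.m f ≤ ρ * S.m f := mul_le_mul_of_nonneg_right hf h5
      _ ≤ ρ * (1 / (4 * (ρ + 1)) * ‖f‖ + C * ρ) := mul_le_mul_of_nonneg_left (by linarith) hρ
  have h6 : ρ * (1 / (4 * (ρ + 1)) * ‖f‖) ≤ 1 / 4 * ‖f‖ := by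
    have e : ρ * (1 / (4 * (ρ + 1)) * ‖f‖) = (ρ / (ρ + 1)) * (1 / 4 * ‖f‖) := by
      field_simp
    rw [e]
    have h7 : ρ / (ρ + 1) ≤ 1 := by rw [div_le_one (by linarith)]; linarith
    have h8 : 0 ≤ 1 / 4 * ‖f‖ := by positivity
    nlinarith
  have h9 : ρ * (1 / (4 * (ρ + 1)) * ‖f‖ + C * ρ) = ρ * (1 / (4 * (ρ + 1)) * ‖f‖) + C * ρ ^ 2 := by
    ring
  have h10 : S.m f * ‖S.K f‖ = ‖S.K f‖ * S.m f := mul_comm _ _
  linarith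

lemma norm_B_self_le (f : H) : ‖S.B f f‖ ≤ 2 * ‖S.K‖ * S.c * ‖f‖ ^ 2 := by
  have h1 := S.B_le f f
  have h2 : ‖S.K f‖ * S.m f ≤ (‖S.K‖ * ‖f‖) * (S.c * ‖f‖) :=
    mul_le_mul (S.K.le_opNorm f) (S.m_le f) (S.m_nonneg f) (by positivity)
  calc ‖S.B f f‖ ≤ 2 * (‖S.K f‖ * S.m f) := by linarith [mul_comm (S.m f) ‖S.K f‖]
    _ ≤ 2 * ((‖S.K‖ * ‖f‖) * (S.c * ‖f‖)) := by linarith
    _ = _ := by ring

variable [CompleteSpace H]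

lemma norm_A_le_V {ε : ℝ} (hε : 0 < ε) (u : H) :
    ‖S.A ε u‖ ≤ ‖S.V ε u‖ + ‖S.B (S.A ε u) (S.A ε u)‖ := by
  have h1 : S.A ε u = -(S.V ε u) - S.J ε (S.B (S.A ε u) (S.A ε u)) := by
    rw [V]; abel
  nth_rewrite 1 [h1]
  refine (norm_sub_le _ _).trans ?_
  rw [norm_neg]
  gcongr
  exact S.norm_J_le hε _

lemma norm_V_K_le {ε : ℝ} (hε : 0 < ε) {R : ℝ} {f : H} (hf : ‖f‖ ≤ R) :
    ‖S.V ε (S.K f)‖ ≤ R + 2 * ‖S.K‖ * S.c * R ^ 2 := by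
  have hR : 0 ≤ R := (norm_nonneg f).trans hf
  have hc := S.one_le_c
  rw [V, S.A_K hε]
  refine (norm_sub_le _ _).trans ?_
  rw [norm_neg]
  have h1 : ‖S.J ε f‖ ≤ R := (S.norm_J_le hε f).trans hf
  have h2 := S.norm_B_self_le (S.J ε f)
  have h3 : ‖S.J ε f‖ ^ 2 ≤ R ^ 2 := by gcongr
  have h4 : 0 ≤ 2 * ‖S.K‖ * S.c := by positivity
  calc _ ≤ R + ‖S.B (S.J ε f) (S.J ε f)‖ := add_le_add h1 (S.norm_J_le hε _)
    _ ≤ R + 2 * ‖S.K‖ * S.c * ‖S.J ε f‖ ^ 2 := by linarith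
    _ ≤ _ := by nlinarith

/-- Uniform bounds for the regularised flow. -/
lemma exists_apriori {R : ℝ} (hR : 0 ≤ R) : ∃ T F : ℝ, 0 < T ∧ 0 < F ∧ R ≤ F ∧
    ∀ ε : ℝ, 0 < ε → ∀ f₀ : H, ‖f₀‖ ≤ R → ∀ u : ℝ → H, u 0 = S.K f₀ →
    (∀ t ∈ Icc 0 T, ‖u t‖ = ‖S.K f₀‖) →
    (∀ t ∈ Icc 0 T, HasDerivWithinAt u (S.V ε (u t)) (Icc 0 T) t) →
    ∀ t ∈ Icc 0 T, ‖S.V ε (u t)‖ ≤ F ∧ ‖S.A ε (u t)‖ ≤ F ∧
      ‖S.V ε (u t)‖ ^ 2 ≤ ‖S.V ε (S.K f₀)‖ ^ 2 * Real.exp (2 * S.c * F * t) := by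
  have hc := S.one_le_c
  obtain ⟨C₂, hC₂, hell⟩ := S.exists_elliptic (ρ := ‖S.K‖ * R) (by positivity)
  set Y₀ : ℝ := R + 2 * ‖S.K‖ * S.c * R ^ 2 with hY₀
  have hY₀0 : 0 ≤ Y₀ := by positivity
  set Y : ℝ := Y₀ + 1 with hY
  set F : ℝ := 2 * Y + C₂ with hF
  have hF0 : 0 < F := by positivity
  set Λ : ℝ := 2 * S.c * F * Y ^ 2 + 1 with hΛ
  have hΛ0 : 0 < Λ := by positivity
  have hRF : R ≤ F := by
    have : 0 ≤ 2 * ‖S.K‖ * S.c * R ^ 2 := by positivity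
    rw [hF, hY, hY₀]
    linarith
  refine ⟨1 / Λ, F, by positivity, hF0, hRF, fun ε hε f₀ hf₀ u hu0 hun hu => ?_⟩
  set T : ℝ := 1 / Λ with hT
  have hA : ∀ t ∈ Icc 0 T, ‖S.A ε (u t)‖ ≤ 2 * ‖S.V ε (u t)‖ + C₂ := by
    intro t ht
    refine hell _ _ ?_ (S.norm_A_le_V hε _)
    rw [S.K_A]
    refine (S.norm_J_le hε _).trans ?_
    rw [hun t ht]
    refine (S.K.le_opNorm _).trans ?_
    gcongr
  -- derivative of the squared norm of the velocity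
  have hder := fun t (ht : t ∈ Icc 0 T) => S.hasDeriv_V_norm_sq hε hu ht
  have hder_le : ∀ t ∈ Icc 0 T,
      -(2 * ⟪S.M (S.A ε (u t)) (S.J ε (S.V ε (u t))), S.J ε (S.V ε (u t))⟫) ≤
        2 * (S.c * ‖S.A ε (u t)‖) * ‖S.V ε (u t)‖ ^ 2 := by
    intro t ht
    set v := S.V ε (u t)
    set f := S.A ε (u t)
    have h1 : |⟪S.M f (S.J ε v), S.J ε v⟫| ≤ S.m f * ‖S.J ε v‖ * ‖S.J ε v‖ :=
      (abs_real_inner_le_norm _ _).trans (mul_le_mul_of_nonneg_right (S.M_le _ _) (norm_nonneg _))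
    have h2 : ‖S.J ε v‖ ≤ ‖v‖ := S.norm_J_le hε v
    have h3 : S.m f * ‖S.J ε v‖ * ‖S.J ε v‖ ≤ S.c * ‖f‖ * ‖v‖ ^ 2 := by
      have h4 : ‖S.J ε v‖ * ‖S.J ε v‖ ≤ ‖v‖ ^ 2 := by nlinarith [norm_nonneg (S.J ε v), norm_nonneg v]
      calc S.m f * ‖S.J ε v‖ * ‖S.J ε v‖ = S.m f * (‖S.J ε v‖ * ‖S.J ε v‖) := by ring
        _ ≤ (S.c * ‖f‖) * ‖v‖ ^ 2 := mul_le_mul (S.m_le f) h4 (by positivity) (by positivity)
    have h5 := neg_abs_le ⟪S.M f (S.J ε v), S.J ε v⟫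
    linarith
  -- first the bound on the velocity by a fencing argument
  have hcont : ContinuousOn (fun t => ‖S.V ε (u t)‖ ^ 2) (Icc 0 T) :=
    fun t ht => (hder t ht).continuousWithinAt
  have hV0 : ‖S.V ε (u 0)‖ ≤ Y₀ := by rw [hu0]; exact S.norm_V_K_le hε hf₀
  have hfence : ∀ ⦃t⦄, t ∈ Icc 0 T → ‖S.V ε (u t)‖ ^ 2 ≤ Y₀ ^ 2 + Λ * t := by
    refine image_le_of_deriv_right_lt_deriv_boundary (B := fun t => Y₀ ^ 2 + Λ * t)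
      (B' := fun _ => Λ) hcont
      (fun t ht => hasDerivWithinAt_Ici (hder t (Ico_subset_Icc_self ht)) ht) ?_ ?_ ?_
    · simp only [mul_zero, add_zero]
      gcongr
    · intro t
      have := ((hasDerivAt_id t).const_mul Λ).const_add (Y₀ ^ 2)
      simpa using this
    · intro t ht heq
      have ht' := Ico_subset_Icc_self ht
      refine (hder_le t ht').trans_lt ?_
      have h1 : Y₀ ^ 2 + Λ * t ≤ Y ^ 2 := by
        have h2 : Λ * t ≤ 1 := by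
          have h3 : t ≤ 1 / Λ := ht'.2
          calc Λ * t ≤ Λ * (1 / Λ) := mul_le_mul_of_nonneg_left h3 hΛ0.le
            _ = 1 := by field_simp
        nlinarith
      rw [← heq] at h1
      have h4 : ‖S.V ε (u t)‖ ≤ Y := le_of_sq_le_sq h1 (by positivity)
      have h5 : ‖S.A ε (u t)‖ ≤ F := by linarith [hA t ht']
      have h6 : 2 * (S.c * ‖S.A ε (u t)‖) * ‖S.V ε (u t)‖ ^ 2 ≤ 2 * (S.c * F) * Y ^ 2 := by
        gcongr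
      have h7 : 2 * (S.c * F) * Y ^ 2 < Λ := by rw [hΛ]; linarith
      linarith
  have hVY : ∀ t ∈ Icc 0 T, ‖S.V ε (u t)‖ ≤ Y := by
    intro t ht
    have h1 : Y₀ ^ 2 + Λ * t ≤ Y ^ 2 := by
      have h2 : Λ * t ≤ 1 := by
        have h3 : t ≤ 1 / Λ := ht.2
        calc Λ * t ≤ Λ * (1 / Λ) := mul_le_mul_of_nonneg_left h3 hΛ0.le
          _ = 1 := by field_simp
      nlinarith
    exact le_of_sq_le_sq ((hfence ht).trans h1) (by positivity)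
  have hAF : ∀ t ∈ Icc 0 T, ‖S.A ε (u t)‖ ≤ F := fun t ht => by linarith [hA t ht, hVY t ht]
  intro t ht
  refine ⟨by linarith [hVY t ht], hAF t ht, ?_⟩
  have h1 := gron (C := 2 * S.c * F) (κ := 0) (by positivity) le_rfl hder (fun t ht => by
    refine (hder_le t ht).trans ?_
    have h2 : 2 * (S.c * ‖S.A ε (u t)‖) ≤ 2 * S.c * F := by nlinarith [hAF t ht]
    have h3 : 0 ≤ ‖S.V ε (u t)‖ ^ 2 := by positivity
    nlinarith) t ht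
  rw [zero_div, add_zero, hu0] at h1
  exact h1

end Sys

end Pool.Agent.Helper39.KdV
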