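import Pool.Agent.Helper39.KdV.Apriori

/-!
# The regularised flows form a Cauchy sequence
-/

open scoped RealInnerProductSpace Topology
open Set Filter

namespace Pool.Agent.Helper39.KdV

variable {H : Type*} [NormedAddCommGroup H] [InnerProductSpace ℝ H]

namespace Sys

variable (S : Sys H) [CompleteSpace H]

/-- A trajectory of the regularised flow with uniform bounds. -/
structure Traj (ε T F : ℝ) (f₀ : H) (u : ℝ → H) : Prop where
  init : u 0 = S.K f₀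
  f0_le : ‖f₀‖ ≤ F
  norm_u : ∀ t ∈ Icc 0 T, ‖u t‖ = ‖S.K f₀‖
  deriv : ∀ t ∈ Icc 0 T, HasDerivWithinAt u (S.V ε (u t)) (Icc 0 T) t
  norm_V : ∀ t ∈ Icc 0 T, ‖S.V ε (u t)‖ ≤ F
  norm_A : ∀ t ∈ Icc 0 T, ‖S.A ε (u t)‖ ≤ F

variable {S}

omit [CompleteSpace H] in
lemma Traj.norm_B {ε T F : ℝ} {f₀ : H} {u : ℝ → H} (h : S.Traj ε T F f₀ u) {t : ℝ}
    (ht : t ∈ Icc 0 T) : ‖S.B (S.A ε (u t)) (S.A ε (u t))‖ ≤ 2 * ‖S.K‖ * S.c * F ^ 2 := by
  have hc := S.one_le_c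
  refine (S.norm_B_self_le _).trans ?_
  have := h.norm_A t ht
  gcongr

/-- The high frequency part of the trajectory is small. -/
lemma Traj.norm_sub_J {ε T F : ℝ} {f₀ : H} {u : ℝ → H} (h : S.Traj ε T F f₀ u) (hε : 0 < ε)
    (hF : 0 ≤ F) {t : ℝ} (ht : t ∈ Icc 0 T) :
    ‖u t - S.J ε (u t)‖ ^ 2 ≤ ε * ((‖S.K‖ * F ^ 2 + 4 * ‖S.K‖ * S.c * F ^ 3) * Real.exp T) := by
  have hc := S.one_le_c
  have hder : ∀ t ∈ Icc 0 T, HasDerivWithinAt (fun s => ⟪u s - S.J ε (u s), u s⟫)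
      (2 * ⟪u t - S.J ε (u t), S.V ε (u t)⟫) (Icc 0 T) t := by
    intro t ht
    have h1 := h.deriv t ht
    have h2 : HasDerivWithinAt (fun s => u s - S.J ε (u s)) (S.V ε (u t) - S.J ε (S.V ε (u t)))
        (Icc 0 T) t := h1.sub ((S.J ε).hasFDerivAt.comp_hasDerivWithinAt t h1)
    refine (h2.inner ℝ h1).congr_deriv ?_
    rw [inner_sub_left (S.V ε (u t)), S.J_symm hε, ← inner_sub_right, real_inner_comm (u t - _)]
    ring
  have hbound : ∀ t ∈ Icc 0 T, 2 * ⟪u t - S.J ε (u t), S.V ε (u t)⟫ ≤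
      4 * ‖S.K‖ * S.c * F ^ 3 * ε := by
    intro t ht
    have e1 : ⟪u t - S.J ε (u t), S.A ε (u t)⟫ = 0 := by
      rw [S.sub_J hε, A_apply, inner_neg_right, real_inner_smul_left, S.inner_self_K]
      simp
    have e2 : ⟪u t - S.J ε (u t), S.J ε (S.B (S.A ε (u t)) (S.A ε (u t)))⟫ =
        ⟪S.K (S.A ε (u t)) - S.J ε (S.K (S.A ε (u t))), S.B (S.A ε (u t)) (S.A ε (u t))⟫ := by
      rw [← S.J_symm hε, map_sub, ← S.K_A]
    have e3 : ⟪u t - S.J ε (u t), S.V ε (u t)⟫ =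
        -⟪S.K (S.A ε (u t)) - S.J ε (S.K (S.A ε (u t))), S.B (S.A ε (u t)) (S.A ε (u t))⟫ := by
      rw [V, inner_sub_right, inner_neg_right, e1, e2]; ring
    rw [e3]
    have h4 : |⟪S.K (S.A ε (u t)) - S.J ε (S.K (S.A ε (u t))), S.B (S.A ε (u t)) (S.A ε (u t))⟫| ≤
        (ε * F) * (2 * ‖S.K‖ * S.c * F ^ 2) := by
      refine (abs_real_inner_le_norm _ _).trans (mul_le_mul ?_ (h.norm_B ht) (norm_nonneg _)
        (by positivity))
      refine (S.norm_K_sub_J_le hε _).trans ?_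
      have := h.norm_A t ht
      gcongr
    have h5 := neg_abs_le ⟪S.K (S.A ε (u t)) - S.J ε (S.K (S.A ε (u t))), S.B (S.A ε (u t)) (S.A ε (u t))⟫
    have e4 : (ε * F) * (2 * ‖S.K‖ * S.c * F ^ 2) = 2 * ‖S.K‖ * S.c * F ^ 3 * ε := by ring
    linarith
  have hpos : ∀ t, 0 ≤ ⟪u t - S.J ε (u t), u t⟫ := fun t =>
    (sq_nonneg _).trans (S.norm_sub_J_sq_le hε (u t))
  have h0 : ⟪u 0 - S.J ε (u 0), u 0⟫ ≤ ‖S.K‖ * F ^ 2 * ε := by
    rw [h.init]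
    have h6 := real_inner_le_norm (S.K f₀ - S.J ε (S.K f₀)) (S.K f₀)
    have h7 : ‖S.K f₀ - S.J ε (S.K f₀)‖ ≤ ε * F :=
      (S.norm_K_sub_J_le hε f₀).trans (mul_le_mul_of_nonneg_left h.f0_le hε.le)
    have h8 : ‖S.K f₀‖ ≤ ‖S.K‖ * F :=
      (S.K.le_opNorm f₀).trans (mul_le_mul_of_nonneg_left h.f0_le (norm_nonneg _))
    calc _ ≤ _ := h6
      _ ≤ (ε * F) * (‖S.K‖ * F) := mul_le_mul h7 h8 (norm_nonneg _) (by positivity)
      _ = _ := by ring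
  have h1 := gron (C := 1) (κ := 4 * ‖S.K‖ * S.c * F ^ 3 * ε) one_pos (by positivity) hder
    (fun t ht => by have := hbound t ht; have := hpos t; linarith) t ht
  refine (S.norm_sub_J_sq_le hε (u t)).trans (h1.trans ?_)
  rw [div_one, one_mul]
  have h9 : Real.exp t ≤ Real.exp T := Real.exp_le_exp.2 ht.2
  calc (⟪u 0 - S.J ε (u 0), u 0⟫ + 4 * ‖S.K‖ * S.c * F ^ 3 * ε) * Real.exp t
      ≤ (‖S.K‖ * F ^ 2 * ε + 4 * ‖S.K‖ * S.c * F ^ 3 * ε) * Real.exp T := by gcongr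
    _ = _ := by ring

/-- The basic comparison estimate between two regularised vector fields. -/
lemma inner_V_sub_le {ε δ F : ℝ} (hε : 0 < ε) (hδ : 0 < δ) (hF : 0 < F) {u v : H}
    (hf : ‖S.A ε u‖ ≤ F) (hg : ‖S.A δ v‖ ≤ F) (hu : ‖u‖ ≤ ‖S.K‖ * F) (hv : ‖v‖ ≤ ‖S.K‖ * F) :
    ⟪u - v, S.V ε u - S.V δ v⟫ ≤ 2 * S.c * F * ‖u - v‖ ^ 2 +
      (2 * F + 12 * S.c * F ^ 2 * ‖S.K‖) * (‖u - S.J ε u‖ + ‖v - S.J δ v‖) +
      4 * ‖S.K‖ * S.c * F ^ 3 * (ε + δ) := by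
  have hc := S.one_le_c
  set f := S.A ε u with hf'
  set g := S.A δ v with hg'
  set e := u - S.J ε u with he
  set e' := v - S.J δ v with he'
  set E := ‖e‖ + ‖e'‖ with hE
  set b := 2 * ‖S.K‖ * S.c * F ^ 2 with hb
  have hBf : ‖S.B f f‖ ≤ b := (S.norm_B_self_le f).trans (by rw [hb]; gcongr)
  have hBg : ‖S.B g g‖ ≤ b := (S.norm_B_self_le g).trans (by rw [hb]; gcongr)
  have hw : u - v = S.K (f - g) + (e - e') := by
    rw [map_sub, hf', hg', S.K_A, S.K_A, he, he']; abel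
  have hee : ‖e - e'‖ ≤ E := norm_sub_le _ _
  have hfg : ‖f - g‖ ≤ 2 * F := (norm_sub_le _ _).trans (by linarith)
  have hE0 : 0 ≤ E := by positivity
  have hb0 : 0 ≤ b := by positivity
  have hEmax : E ≤ 2 * (‖S.K‖ * F) := by
    have h1 : ‖e‖ ≤ ‖u‖ := S.norm_sub_J_le hε u
    have h2 : ‖e'‖ ≤ ‖v‖ := S.norm_sub_J_le hδ v
    rw [hE]; linarith
  have hVsub : S.V ε u - S.V δ v = -(f - g) - (S.B f f - S.B g g) + (S.B f f - S.J ε (S.B f f))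
      - (S.B g g - S.J δ (S.B g g)) := by
    rw [V, V]; abel
  have h1 : -⟪u - v, f - g⟫ ≤ E * (2 * F) := by
    rw [hw, inner_add_left, S.inner_K_self, zero_add]
    have := neg_abs_le ⟪e - e', f - g⟫
    have h2 := (abs_real_inner_le_norm (e - e') (f - g)).trans
      (mul_le_mul hee hfg (norm_nonneg _) hE0)
    linarith
  have h2 : -⟪u - v, S.B f f - S.B g g⟫ ≤ 2 * S.c * F * ‖u - v‖ ^ 2 + 4 * S.c * F ^ 2 * ‖S.K‖ * E
      + E * (2 * b) := by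
    nth_rewrite 1 [hw]
    rw [inner_add_left]
    have h3 : |⟪S.K (f - g), S.B f f - S.B g g⟫| ≤ 2 * S.c * F * ‖u - v‖ ^ 2 +
        4 * S.c * F ^ 2 * ‖S.K‖ * E := by
      rw [S.B_sub_sub, S.BK, abs_mul, abs_of_pos (by norm_num : (0 : ℝ) < 1 / 2)]
      have h4 : |⟪S.M (f + g) (S.K (f - g)), S.K (f - g)⟫| ≤ (2 * S.c * F) * ‖S.K (f - g)‖ ^ 2 := by
        refine (abs_real_inner_le_norm _ _).trans ?_
        have h5 : S.m (f + g) ≤ 2 * S.c * F := by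
          refine (S.m_add f g).trans ?_
          have := S.m_le f
          have := S.m_le g
          nlinarith
        calc ‖S.M (f + g) (S.K (f - g))‖ * ‖S.K (f - g)‖
            ≤ (S.m (f + g) * ‖S.K (f - g)‖) * ‖S.K (f - g)‖ := by gcongr; exact S.M_le _ _
          _ ≤ (2 * S.c * F * ‖S.K (f - g)‖) * ‖S.K (f - g)‖ := by gcongr
          _ = _ := by ring
      have h6 : ‖S.K (f - g)‖ ≤ ‖u - v‖ + E := by
        have : S.K (f - g) = (u - v) - (e - e') := by rw [hw]; abel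
        rw [this]
        exact (norm_sub_le _ _).trans (by linarith)
      have h7 : ‖S.K (f - g)‖ ^ 2 ≤ 2 * ‖u - v‖ ^ 2 + 4 * (‖S.K‖ * F) * E := by
        have h8 : ‖S.K (f - g)‖ ^ 2 ≤ (‖u - v‖ + E) ^ 2 := by gcongr
        nlinarith [sq_nonneg (‖u - v‖ - E), mul_le_mul_of_nonneg_right hEmax hE0]
      have h9 : (2 * S.c * F) * ‖S.K (f - g)‖ ^ 2 ≤
          (2 * S.c * F) * (2 * ‖u - v‖ ^ 2 + 4 * (‖S.K‖ * F) * E) :=
        mul_le_mul_of_nonneg_left h7 (by positivity)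
      calc _ ≤ 1 / 2 * ((2 * S.c * F) * (2 * ‖u - v‖ ^ 2 + 4 * (‖S.K‖ * F) * E)) := by linarith
        _ = _ := by ring
    have h4 : |⟪e - e', S.B f f - S.B g g⟫| ≤ E * (2 * b) := by
      refine (abs_real_inner_le_norm _ _).trans (mul_le_mul hee ?_ (norm_nonneg _) hE0)
      exact (norm_sub_le _ _).trans (by linarith)
    have h5 := neg_abs_le ⟪S.K (f - g), S.B f f - S.B g g⟫
    have h6 := neg_abs_le ⟪e - e', S.B f f - S.B g g⟫
    linarith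
  have key : ∀ (η : ℝ), 0 < η → ∀ q : H, ‖q‖ ≤ b →
      |⟪u - v, q - S.J η q⟫| ≤ (η * (2 * F) + E) * b := by
    intro η hη q hq
    have h3 : ⟪u - v, q - S.J η q⟫ = ⟪(u - v) - S.J η (u - v), q⟫ := by
      rw [inner_sub_right, inner_sub_left (u - v), S.J_symm hη]
    rw [h3]
    refine (abs_real_inner_le_norm _ _).trans (mul_le_mul ?_ hq (norm_nonneg _) (by positivity))
    have h4 : (u - v) - S.J η (u - v) = (S.K (f - g) - S.J η (S.K (f - g))) +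
        ((e - e') - S.J η (e - e')) := by
      rw [hw, map_add]; abel
    rw [h4]
    refine (norm_add_le _ _).trans (add_le_add ?_ ?_)
    · exact (S.norm_K_sub_J_le hη _).trans (mul_le_mul_of_nonneg_left hfg hη.le)
    · exact (S.norm_sub_J_le hη _).trans hee
  have h3 := (le_abs_self _).trans (key ε hε _ hBf)
  have h4 := (neg_le_abs _).trans (key δ hδ _ hBg)
  rw [hVsub, inner_sub_right, inner_add_right, inner_sub_right, inner_neg_right]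
  calc _ ≤ E * (2 * F) + (2 * S.c * F * ‖u - v‖ ^ 2 + 4 * S.c * F ^ 2 * ‖S.K‖ * E + E * (2 * b)) +
        (ε * (2 * F) + E) * b + (δ * (2 * F) + E) * b := by linarith
    _ = 2 * S.c * F * ‖u - v‖ ^ 2 + (2 * F + 12 * S.c * F ^ 2 * ‖S.K‖) * E +
        4 * ‖S.K‖ * S.c * F ^ 3 * (ε + δ) := by rw [hb]; ring
    _ ≤ _ := le_rfl

/-- The Cauchy estimate. -/
lemma exists_cauchy {T F : ℝ} (hF : 0 < F) : ∃ D : ℝ, 0 ≤ D ∧
    ∀ ε δ : ℝ, 0 < ε → ε ≤ 1 → 0 < δ → δ ≤ 1 → ∀ (f₀ : H) (u v : ℝ → H),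
    S.Traj ε T F f₀ u → S.Traj δ T F f₀ v → ∀ t ∈ Icc 0 T,
    ‖u t - v t‖ ^ 2 ≤ D * (√ε + √δ) := by
  have hc := S.one_le_c
  set D₁ : ℝ := (‖S.K‖ * F ^ 2 + 4 * ‖S.K‖ * S.c * F ^ 3) * Real.exp T with hD₁
  have hD₁0 : 0 ≤ D₁ := by positivity
  set a : ℝ := 2 * F + 12 * S.c * F ^ 2 * ‖S.K‖ with ha
  set a' : ℝ := 4 * ‖S.K‖ * S.c * F ^ 3 with ha'
  set C : ℝ := 4 * S.c * F with hC
  have hC0 : 0 < C := by positivity
  refine ⟨2 * (a * √D₁ + a') / C * Real.exp (C * T), by positivity,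
    fun ε δ hε hε1 hδ hδ1 f₀ u v hu hv t ht => ?_⟩
  have hder : ∀ t ∈ Icc 0 T, HasDerivWithinAt (fun s => ‖u s - v s‖ ^ 2)
      (2 * ⟪u t - v t, S.V ε (u t) - S.V δ (v t)⟫) (Icc 0 T) t :=
    fun t ht => ((hu.deriv t ht).sub (hv.deriv t ht)).norm_sq
  have hsq : ∀ {x : ℝ}, 0 < x → x ≤ 1 → x ≤ √x := by
    intro x hx hx1
    nlinarith [Real.sq_sqrt hx.le, Real.sqrt_nonneg x, Real.sqrt_le_one.2 hx1]
  set κ : ℝ := 2 * ((a * √D₁ + a') * (√ε + √δ)) with hκ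
  have hκ0 : 0 ≤ κ := by positivity
  have hbound : ∀ t ∈ Icc 0 T, 2 * ⟪u t - v t, S.V ε (u t) - S.V δ (v t)⟫ ≤
      C * ‖u t - v t‖ ^ 2 + κ := by
    intro t ht
    have hK : ‖S.K f₀‖ ≤ ‖S.K‖ * F :=
      (S.K.le_opNorm f₀).trans (mul_le_mul_of_nonneg_left hu.f0_le (norm_nonneg _))
    have h1 := inner_V_sub_le (S := S) hε hδ hF (hu.norm_A t ht) (hv.norm_A t ht)
      ((hu.norm_u t ht).le.trans hK) ((hv.norm_u t ht).le.trans hK)
    have h2 : ‖u t - S.J ε (u t)‖ ≤ √D₁ * √ε := by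
      rw [← Real.sqrt_mul hD₁0]
      apply Real.le_sqrt_of_sq_le
      rw [mul_comm]
      exact hu.norm_sub_J hε hF.le ht
    have h3 : ‖v t - S.J δ (v t)‖ ≤ √D₁ * √δ := by
      rw [← Real.sqrt_mul hD₁0]
      apply Real.le_sqrt_of_sq_le
      rw [mul_comm]
      exact hv.norm_sub_J hδ hF.le ht
    have h4 : a * (‖u t - S.J ε (u t)‖ + ‖v t - S.J δ (v t)‖) ≤ a * (√D₁ * √ε + √D₁ * √δ) :=
      mul_le_mul_of_nonneg_left (add_le_add h2 h3) (by positivity)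
    have h5 : a' * (ε + δ) ≤ a' * (√ε + √δ) :=
      mul_le_mul_of_nonneg_left (add_le_add (hsq hε hε1) (hsq hδ hδ1)) (by positivity)
    calc _ ≤ 2 * (2 * S.c * F * ‖u t - v t‖ ^ 2 + a * (√D₁ * √ε + √D₁ * √δ) +
          a' * (√ε + √δ)) := by linarith
      _ = _ := by rw [hC, hκ]; ring
  have h1 := gron (C := C) (κ := κ) hC0 hκ0 hder hbound t ht
  have h0 : ‖u 0 - v 0‖ ^ 2 = 0 := by rw [hu.init, hv.init]; simp
  simp only [h0, zero_add] at h1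
  refine h1.trans ?_
  have h2 : Real.exp (C * t) ≤ Real.exp (C * T) :=
    Real.exp_le_exp.2 (mul_le_mul_of_nonneg_left ht.2 hC0.le)
  calc κ / C * Real.exp (C * t) ≤ κ / C * Real.exp (C * T) := by gcongr
    _ = _ := by rw [hκ]; ring

end Sys

end Pool.Agent.Helper39.KdV
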