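import Pool.Agent.Helper39.KdV.Strong

/-!
# Energy identity for the velocity, and continuous dependence
-/

open scoped RealInnerProductSpace Topology
open Set Filter

namespace Pool.Agent.Helper39.KdV

variable {H : Type*} [NormedAddCommGroup H] [InnerProductSpace ℝ H]

namespace Sys

variable {S : Sys H} [CompleteSpace H]

omit [CompleteSpace H] in
lemma IsSol.continuousOn_vel {T : ℝ} {f : ℝ → H} (hf : S.IsSol T f) :
    ContinuousOn (fun t => S.vel (f t)) (Icc 0 T) := by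
  have h3 : Continuous fun x : H => S.vel x := by
    unfold vel
    exact (continuous_id.add (S.B.continuous.clm_apply continuous_id)).neg
  exact h3.comp_continuousOn hf.cont

omit [CompleteSpace H] in
/-- An estimate for the quadratic form of the energy identity. -/
lemma abs_M_sub_le {F a : ℝ} {p q w v : H} (hq : ‖q‖ ≤ F) (hw : ‖w‖ ≤ a)
    (hv : ‖v‖ ≤ a) :
    |⟪S.M p w, w⟫ - ⟪S.M q v, v⟫| ≤ S.m (p - q) * a ^ 2 + S.c * F * (2 * a) * ‖w - v‖ := by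
  have hc := S.one_le_c
  have ha : 0 ≤ a := (norm_nonneg w).trans hw
  have hF : 0 ≤ F := (norm_nonneg q).trans hq
  have e : ⟪S.M p w, w⟫ - ⟪S.M q v, v⟫ = ⟪S.M (p - q) w, w⟫ + ⟪S.M q (w - v), w + v⟫ := by
    simp only [map_sub, sub_apply, inner_sub_left, inner_add_right]
    rw [S.Msymm q w v, real_inner_comm (S.M q v) w]
    ring
  rw [e]
  have h1 : |⟪S.M (p - q) w, w⟫| ≤ S.m (p - q) * a ^ 2 := by
    refine (abs_real_inner_le_norm _ _).trans ?_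
    have h2 := S.M_le (p - q) w
    have h3 := S.m_nonneg (p - q)
    calc ‖S.M (p - q) w‖ * ‖w‖ ≤ (S.m (p - q) * ‖w‖) * ‖w‖ := by gcongr
      _ ≤ (S.m (p - q) * a) * a := by gcongr
      _ = _ := by ring
  have h2 : |⟪S.M q (w - v), w + v⟫| ≤ S.c * F * (2 * a) * ‖w - v‖ := by
    refine (abs_real_inner_le_norm _ _).trans ?_
    have h3 := S.M_le q (w - v)
    have h4 : S.m q ≤ S.c * F := (S.m_le q).trans (by gcongr)
    have h5 : ‖w + v‖ ≤ 2 * a := (norm_add_le _ _).trans (by linarith)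
    calc ‖S.M q (w - v)‖ * ‖w + v‖ ≤ (S.m q * ‖w - v‖) * ‖w + v‖ := by gcongr
      _ ≤ ((S.c * F) * ‖w - v‖) * (2 * a) := by gcongr
      _ = _ := by ring
  exact (abs_add_le _ _).trans (add_le_add h1 h2)

omit [CompleteSpace H] in
/-- The energy identity for the velocity of a strong solution. -/
lemma IsSol.energy {T : ℝ} {f : ℝ → H} (hf : S.IsSol T f) {T' : ℝ} (hTT : T' < T) :
    ∀ t ∈ Icc 0 T', HasDerivWithinAt (fun s => ‖S.vel (f s)‖ ^ 2)
      (-(2 * ⟪S.M (f t) (S.vel (f t)), S.vel (f t)⟫)) (Icc 0 T') t := by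
  have hc := S.one_le_c
  obtain ⟨F, hF, hb⟩ := hf.exists_bdd
  have hvc := hf.continuousOn_vel
  set a : ℝ := F + 2 * ‖S.K‖ * S.c * F ^ 2 with ha
  have ha0 : 0 < a := by positivity
  have hva : ∀ t ∈ Icc 0 T, ‖S.vel (f t)‖ ≤ a := fun t ht => norm_vel_le (hb t ht)
  have hucf := isCompact_Icc.uniformContinuousOn_of_continuous hf.cont
  have hucv := isCompact_Icc.uniformContinuousOn_of_continuous hvc
  rw [Metric.uniformContinuousOn_iff] at hucf hucv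
  -- the increments
  set h : ℕ → ℝ := fun n => (T - T') * σ n with hh
  have hTT0 : 0 < T - T' := by linarith
  have hpos : ∀ n, 0 < h n := fun n => mul_pos hTT0 (σ_pos n)
  have hle : ∀ n, h n ≤ T - T' := fun n => by
    have := σ_le_one n
    simp only [hh]
    nlinarith
  have hlim : Tendsto h atTop (𝓝 0) := by simpa using tendsto_σ.const_mul (T - T')
  have hmem : ∀ n, ∀ t ∈ Icc 0 T', t ∈ Icc 0 T ∧ t + h n ∈ Icc 0 T := fun n t ht =>
    ⟨⟨ht.1, ht.2.trans hTT.le⟩, ⟨by linarith [ht.1, hpos n], by linarith [ht.2, hle n]⟩⟩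
  set w : ℕ → ℝ → H := fun n t => (h n)⁻¹ • (S.K (f (t + h n)) - S.K (f t)) with hw
  -- the difference quotients are close to the velocity
  have hwv : ∀ n, ∀ t ∈ Icc 0 T', ∀ η : ℝ, 0 ≤ η → (∀ s ∈ Icc 0 T, ∀ s' ∈ Icc 0 T, |s - s'| ≤ h n →
      ‖S.vel (f s) - S.vel (f s')‖ ≤ η) → ‖w n t - S.vel (f t)‖ ≤ η := by
    intro n t ht η hη hs
    have hsub : Icc t (t + h n) ⊆ Icc 0 T := Icc_subset_Icc ht.1 (hmem n t ht).2.2
    have h1 : ∀ s ∈ Icc t (t + h n), HasDerivWithinAt (fun s => S.K (f s) - s • S.vel (f t))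
        (S.vel (f s) - S.vel (f t)) (Icc t (t + h n)) s := by
      intro s hs'
      have h2 := (hf.deriv s (hsub hs')).mono hsub
      have h3 : HasDerivWithinAt (fun σ : ℝ => σ • S.vel (f t)) (S.vel (f t)) (Icc t (t + h n)) s := by
        simpa using (hasDerivWithinAt_id s (Icc t (t + h n))).smul_const (S.vel (f t))
      exact h2.sub h3
    have h2 := (convex_Icc t (t + h n)).norm_image_sub_le_of_norm_hasDerivWithin_le h1
      (fun s hs' => hs s (hsub hs') t (hmem n t ht).1 (by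
        rw [abs_of_nonneg (by linarith [hs'.1])]; linarith [hs'.2]))
      (left_mem_Icc.2 (by linarith [hpos n])) (right_mem_Icc.2 (by linarith [hpos n]))
    have e : S.K (f (t + h n)) - (t + h n) • S.vel (f t) - (S.K (f t) - t • S.vel (f t)) =
        (h n) • (w n t - S.vel (f t)) := by
      rw [hw]
      simp only
      rw [smul_sub, smul_smul, mul_inv_cancel₀ (hpos n).ne', one_smul, add_smul]
      abel
    rw [e, norm_smul, add_sub_cancel_left, Real.norm_of_nonneg (hpos n).le, mul_comm] at h2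
    exact le_of_mul_le_mul_right h2 (hpos n)
  have hwa : ∀ n, ∀ t ∈ Icc 0 T', ‖w n t‖ ≤ 3 * a := by
    intro n t ht
    have h1 := hwv n t ht (2 * a) (by positivity) (fun s hs s' hs' _ =>
      (norm_sub_le _ _).trans (by linarith [hva s hs, hva s' hs']))
    have h2 := hva t (hmem n t ht).1
    calc ‖w n t‖ = ‖(w n t - S.vel (f t)) + S.vel (f t)‖ := by congr 1; abel
      _ ≤ _ := norm_add_le _ _
      _ ≤ _ := by linarith
  have hc1 : ContinuousOn (fun t => -(2 * ⟪S.M (f t) (S.vel (f t)), S.vel (f t)⟫)) (Icc 0 T') := by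
    have hsub : Icc 0 T' ⊆ Icc 0 T := Icc_subset_Icc_right hTT.le
    have h1 : ContinuousOn (fun t => S.M (f t) (S.vel (f t))) (Icc 0 T') :=
      (S.M.continuous.comp_continuousOn (hf.cont.mono hsub)).clm_apply (hvc.mono hsub)
    exact ((h1.inner (hvc.mono hsub)).const_mul 2).neg
  have huw : ∀ η : ℝ, 0 < η → ∃ N, ∀ n ≥ N, ∀ t ∈ Icc 0 T', ‖w n t - S.vel (f t)‖ ≤ η := by
    intro η hη
    obtain ⟨δ, hδ, h1⟩ := hucv η hη
    obtain ⟨N, hN⟩ := (Metric.tendsto_atTop.1 hlim) δ hδ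
    refine ⟨N, fun n hn t ht => hwv n t ht η hη.le fun s hs s' hs' hss => ?_⟩
    have h2 := hN n hn
    rw [Real.dist_eq, sub_zero, abs_of_pos (hpos n)] at h2
    have h3 := h1 s hs s' hs' (by rw [Real.dist_eq]; exact hss.trans_lt h2)
    rw [dist_eq_norm] at h3
    exact h3.le
  refine hasDerivWithinAt_limit (un := fun n t => ‖w n t‖ ^ 2)
    (φn := fun n t => -⟪S.M (f (t + h n) + f t) (w n t), w n t⟫) (fun n t ht => ?_)
    (fun t ht => ?_) (fun η hη => ?_) hc1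
  · have h1 : HasDerivWithinAt (fun s => S.K (f (s + h n))) (S.vel (f (t + h n))) (Icc 0 T') t := by
      have h2 := hf.deriv (t + h n) (hmem n t ht).2
      have h3 : HasDerivWithinAt (fun τ : ℝ => τ + h n) 1 (Icc 0 T') t := by
        simpa using (hasDerivWithinAt_id t (Icc 0 T')).add_const (h n)
      have h4 := h2.scomp t h3 (fun τ hτ => (hmem n τ hτ).2)
      simpa [Function.comp_def] using h4
    have h2 := (hf.deriv t (hmem n t ht).1).mono (Icc_subset_Icc_right hTT.le : Icc 0 T' ⊆ Icc 0 T)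
    have h3 := (((h1.sub h2).const_smul (h n)⁻¹).norm_sq)
    refine h3.congr_deriv ?_
    simp only [Pi.smul_apply, Pi.sub_apply, hw]
    have h4 := inner_vel_sub (S := S) (f (t + h n)) (f t)
    rw [real_inner_comm] at h4
    simp only [real_inner_smul_left, real_inner_smul_right, map_smul]
    rw [h4]
    ring
  · rw [Metric.tendsto_atTop]
    intro η hη
    obtain ⟨N, hN⟩ := huw (η / (2 * (4 * a))) (by positivity)
    refine ⟨N, fun n hn => ?_⟩
    have h1 := hN n hn t ht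
    have h2 := hwa n t ht
    have h3 := hva t (hmem n t ht).1
    rw [Real.dist_eq]
    have e : ‖w n t‖ ^ 2 - ‖S.vel (f t)‖ ^ 2 = (‖w n t‖ - ‖S.vel (f t)‖) * (‖w n t‖ + ‖S.vel (f t)‖) := by
      ring
    rw [e, abs_mul]
    have h4 : |‖w n t‖ - ‖S.vel (f t)‖| ≤ η / (2 * (4 * a)) := (abs_norm_sub_norm_le _ _).trans h1
    have h5 : |‖w n t‖ + ‖S.vel (f t)‖| ≤ 4 * a := by
      rw [abs_of_nonneg (by positivity)]; linarith
    calc _ ≤ (η / (2 * (4 * a))) * (4 * a) := mul_le_mul h4 h5 (abs_nonneg _) (by positivity)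
      _ = η / 2 := by field_simp
      _ < η := half_lt_self hη
  · set Z : ℝ := S.c * (3 * a) ^ 2 + S.c * (2 * F) * (2 * (3 * a)) with hZ
    have hZ0 : 0 < Z := by positivity
    obtain ⟨N₁, hN₁⟩ := huw (η / (2 * Z)) (by positivity)
    obtain ⟨δ, hδ, h1⟩ := hucf (η / (2 * Z)) (by positivity)
    obtain ⟨N₂, hN₂⟩ := (Metric.tendsto_atTop.1 hlim) δ hδ
    refine ⟨max N₁ N₂, fun n hn t ht => ?_⟩
    have h2 := hN₁ n (le_of_max_le_left hn) t ht
    have h3 := hN₂ n (le_of_max_le_right hn)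
    rw [Real.dist_eq, sub_zero, abs_of_pos (hpos n)] at h3
    have h4 := h1 (t + h n) (hmem n t ht).2 t (hmem n t ht).1 (by
      rw [Real.dist_eq, add_sub_cancel_left, abs_of_pos (hpos n)]; exact h3)
    rw [dist_eq_norm] at h4
    have h5 : ‖f t + f t‖ ≤ 2 * F := (norm_add_le _ _).trans (by linarith [hb t (hmem n t ht).1])
    have h6 := abs_M_sub_le (S := S) (p := f (t + h n) + f t) h5 (hwa n t ht)
      ((hva t (hmem n t ht).1).trans (by linarith : a ≤ 3 * a))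
    have e1 : f (t + h n) + f t - (f t + f t) = f (t + h n) - f t := by abel
    rw [e1] at h6
    have e2 : -⟪S.M (f (t + h n) + f t) (w n t), w n t⟫ -
        -(2 * ⟪S.M (f t) (S.vel (f t)), S.vel (f t)⟫) =
        -(⟪S.M (f (t + h n) + f t) (w n t), w n t⟫ - ⟪S.M (f t + f t) (S.vel (f t)), S.vel (f t)⟫) := by
      simp only [map_add, add_apply, inner_add_left]
      ring
    rw [e2, norm_neg, Real.norm_eq_abs]
    refine h6.trans ?_
    have h7 : S.m (f (t + h n) - f t) ≤ S.c * (η / (2 * Z)) := (S.m_le _).trans (by gcongr)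
    calc _ ≤ (S.c * (η / (2 * Z))) * (3 * a) ^ 2 + S.c * (2 * F) * (2 * (3 * a)) * (η / (2 * Z)) := by
          gcongr
      _ = Z * (η / (2 * Z)) := by rw [hZ]; ring
      _ = η / 2 := by field_simp
      _ ≤ η := by linarith

omit [CompleteSpace H] in
lemma quad_diff (p q v w : H) : -(2 * ⟪S.M p v, v⟫) - -(2 * ⟪S.M q w, w⟫) =
    -(2 * ⟪S.M (p - q) v, v⟫) - 2 * ⟪S.M q (v - w), v - w⟫ - 4 * ⟪v - w, S.M q w⟫ := by
  have h1 : ⟪S.M q v, w⟫ = ⟪v, S.M q w⟫ := S.Msymm q v w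
  have h2 : ⟪S.M q w, w⟫ = ⟪w, S.M q w⟫ := S.Msymm q w w
  have h3 : ⟪S.M q w, v⟫ = ⟪v, S.M q w⟫ := real_inner_comm _ _
  simp only [map_sub, sub_apply, inner_sub_left, inner_sub_right]
  rw [h1, h2, h3]
  ring

omit [CompleteSpace H] in
lemma quad_bound {p q v w : H} {a η F D : ℝ} (hη : 0 ≤ η) (hv : ‖v‖ ≤ a) (hm : S.m (p - q) ≤ η)
    (hq : ‖q‖ ≤ F) (hD : |⟪v - w, S.M q w⟫| ≤ D) :
    -(2 * ⟪S.M p v, v⟫) - -(2 * ⟪S.M q w, w⟫) ≤
      2 * (η * a ^ 2) + 2 * ((S.c * F) * ‖v - w‖ ^ 2) + 4 * D := by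
  have hc := S.one_le_c
  have ha0 : 0 ≤ a := (norm_nonneg v).trans hv
  rw [quad_diff]
  have h4 : |⟪S.M (p - q) v, v⟫| ≤ η * a ^ 2 := by
    refine (abs_real_inner_le_norm _ _).trans ?_
    calc ‖S.M (p - q) v‖ * ‖v‖ ≤ (S.m (p - q) * ‖v‖) * ‖v‖ := by
          gcongr; exact S.M_le _ _
      _ ≤ (η * a) * a := by gcongr
      _ = _ := by ring
  have h5 : |⟪S.M q (v - w), v - w⟫| ≤ (S.c * F) * ‖v - w‖ ^ 2 := by
    refine (abs_real_inner_le_norm _ _).trans ?_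
    have h6 : S.m q ≤ S.c * F := (S.m_le _).trans (by gcongr)
    calc ‖S.M q (v - w)‖ * ‖v - w‖ ≤ (S.m q * ‖v - w‖) * ‖v - w‖ := by
          gcongr; exact S.M_le _ _
      _ ≤ ((S.c * F) * ‖v - w‖) * ‖v - w‖ := by gcongr
      _ = _ := by ring
  have h8 := (abs_le.1 h4).1
  have h9 := (abs_le.1 h5).1
  have h10 := (abs_le.1 hD).1
  linarith

omit [CompleteSpace H] in
/-- The Gronwall part of the continuous dependence proof. -/
lemma IsSol.vel_bound {T F a Y C η t : ℝ} (hT0 : 0 ≤ t) (htT : t < T) (hF : 0 < F) (ha : 0 < a)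
    (hY : 0 < Y) (hC : C = 2 * S.c * F) (hη : 0 < η) {f g : ℝ → H} (hf : S.IsSol T f)
    (hg : S.IsSol T g) (hb : ∀ s ∈ Icc 0 t, ‖f s‖ ≤ F) (hga : ∀ s ∈ Icc 0 t, ‖S.vel (g s)‖ ≤ a)
    (hmd : ∀ s ∈ Icc 0 t, S.m (g s - f s) ≤ η)
    (hw1 : ∀ s ∈ Icc 0 t, |⟪S.vel (g s) - S.vel (f s), S.vel (f s)⟫| ≤ η * (1 + Y))
    (hw2 : ∀ s ∈ Icc 0 t, |⟪S.vel (g s) - S.vel (f s), S.M (f s) (S.vel (f s))⟫| ≤ η * (1 + Y))
    (h0 : ‖S.vel (g 0)‖ ^ 2 - ‖S.vel (f 0)‖ ^ 2 ≤ η) :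
    ‖S.vel (g t) - S.vel (f t)‖ ^ 2 ≤
      η * ((1 + (2 * a ^ 2 + 2 * C * (1 + Y) + 4 * (1 + Y)) / C) * Real.exp (C * t) +
        2 * (1 + Y)) := by
  have hc := S.one_le_c
  have hC0 : 0 < C := by rw [hC]; positivity
  set κ₁ : ℝ := 2 * a ^ 2 + 2 * C * (1 + Y) + 4 * (1 + Y) with hκ₁
  have hκ₁0 : 0 < κ₁ := by positivity
  have h1 := hf.energy htT
  have h2 := hg.energy htT
  have hr : ∀ s ∈ Icc 0 t, ‖S.vel (g s) - S.vel (f s)‖ ^ 2 ≤
      (‖S.vel (g s)‖ ^ 2 - ‖S.vel (f s)‖ ^ 2) + 2 * (η * (1 + Y)) := by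
    intro s hs
    have h3 := hw1 s hs
    have e : ‖S.vel (g s) - S.vel (f s)‖ ^ 2 = (‖S.vel (g s)‖ ^ 2 - ‖S.vel (f s)‖ ^ 2) -
        2 * ⟪S.vel (g s) - S.vel (f s), S.vel (f s)⟫ := by
      rw [@norm_sub_sq_real, inner_sub_left, real_inner_self_eq_norm_sq]; ring
    rw [e]
    have := (abs_le.1 h3).1
    linarith
  have h3 := gron (s := fun s => ‖S.vel (g s)‖ ^ 2 - ‖S.vel (f s)‖ ^ 2) (C := C) (κ := κ₁ * η)
    hC0 (by positivity) (fun s hs => (h2 s hs).sub (h1 s hs)) (fun s hs => by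
      have h4 := quad_bound (S := S) hη.le (hga s hs) (hmd s hs) (hb s hs) (hw2 s hs)
      refine h4.trans ?_
      have h7 := hr s hs
      have h11 : (S.c * F) * ‖S.vel (g s) - S.vel (f s)‖ ^ 2 ≤
          (S.c * F) * ((‖S.vel (g s)‖ ^ 2 - ‖S.vel (f s)‖ ^ 2) + 2 * (η * (1 + Y))) :=
        mul_le_mul_of_nonneg_left h7 (by positivity)
      calc _ ≤ 2 * (η * a ^ 2) + 2 * ((S.c * F) *
            ((‖S.vel (g s)‖ ^ 2 - ‖S.vel (f s)‖ ^ 2) + 2 * (η * (1 + Y)))) +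
            4 * (η * (1 + Y)) := by linarith
        _ = C * (‖S.vel (g s)‖ ^ 2 - ‖S.vel (f s)‖ ^ 2) + κ₁ * η := by rw [hκ₁, hC]; ring)
      t ⟨hT0, le_rfl⟩
  refine (hr t ⟨hT0, le_rfl⟩).trans ?_
  have h8 : (‖S.vel (g 0)‖ ^ 2 - ‖S.vel (f 0)‖ ^ 2 + κ₁ * η / C) * Real.exp (C * t) ≤
      (η + κ₁ * η / C) * Real.exp (C * t) := by
    apply mul_le_mul_of_nonneg_right _ (Real.exp_pos _).le
    linarith
  calc _ ≤ (η + κ₁ * η / C) * Real.exp (C * t) + 2 * (η * (1 + Y)) := by linarith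
    _ = _ := by ring

omit [CompleteSpace H] in
lemma vel_sub (x y : H) : S.vel x - S.vel y = -(x - y) - (S.B x x - S.B y y) := by
  rw [vel, vel]; abel

omit [CompleteSpace H] in
/-- Closeness in the weak norm propagates. -/
lemma IsSol.weak_close {T F δ' : ℝ} (hF : 0 < F) {f g : ℝ → H} (hf : S.IsSol T f)
    (hg : S.IsSol T g) (hb : ∀ t ∈ Icc 0 T, ‖f t‖ ≤ F) (hgb : ∀ t ∈ Icc 0 T, ‖g t‖ ≤ F)
    (hT : 0 < T) (hδ' : 0 < δ')
    (hg0 : ‖g 0 - f 0‖ ≤ δ' / (‖S.K‖ * Real.exp (2 * S.c * F * T) + 1)) :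
    ∀ t ∈ Icc 0 T, ‖S.K (g t) - S.K (f t)‖ ≤ δ' := by
  intro t ht
  have hc := S.one_le_c
  have h1 := (hg.isWeak hgb).stability hF (hf.isWeak hb) t ht
  set C : ℝ := 2 * S.c * F with hC
  have hC0 : 0 < C := by positivity
  set L : ℝ := ‖S.K‖ * Real.exp (C * T) + 1 with hL
  have hL0 : 0 < L := by positivity
  have h2 : ‖S.K (g 0) - S.K (f 0)‖ ≤ ‖S.K‖ * (δ' / L) := by
    rw [← map_sub]
    refine (S.K.le_opNorm _).trans ?_
    gcongr
  have h3 : ‖S.K (g t) - S.K (f t)‖ ^ 2 ≤ (‖S.K‖ * (δ' / L) * Real.exp (C * T)) ^ 2 := by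
    have h4 : Real.exp (C * t) ≤ Real.exp (C * T) ^ 2 := by
      rw [← Real.exp_nat_mul]
      apply Real.exp_le_exp.2
      have h5 : C * t ≤ C * T := mul_le_mul_of_nonneg_left ht.2 hC0.le
      have h6 : 0 ≤ C * T := by positivity
      push_cast
      linarith
    calc _ ≤ _ := h1
      _ ≤ (‖S.K‖ * (δ' / L)) ^ 2 * Real.exp (C * T) ^ 2 := by gcongr
      _ = _ := by ring
  have h4 := le_of_sq_le_sq h3 (by positivity)
  refine h4.trans ?_
  have e : ‖S.K‖ * (δ' / L) * Real.exp (C * T) = δ' * (‖S.K‖ * Real.exp (C * T) / L) := by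
    field_simp
  rw [e]
  have h5 : ‖S.K‖ * Real.exp (C * T) / L ≤ 1 := by
    rw [div_le_one hL0]; linarith
  nlinarith

/-- Continuous dependence of strong solutions on the data. -/
theorem exists_dependence {T F : ℝ} (hF : 0 < F) {f : ℝ → H} (hf : S.IsSol T f)
    (hb : ∀ t ∈ Icc 0 T, ‖f t‖ ≤ F) (hT : 0 < T) {ε : ℝ} (hε : 0 < ε) : ∃ δ : ℝ, 0 < δ ∧
    ∀ g : ℝ → H, S.IsSol T g → (∀ t ∈ Icc 0 T, ‖g t‖ ≤ F) → ‖g 0 - f 0‖ ≤ δ →
      ∀ t ∈ Icc 0 T, ‖g t - f t‖ ≤ ε := by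
  have hc := S.one_le_c
  have hvc := hf.continuousOn_vel
  obtain ⟨a, ha⟩ : ∃ a : ℝ, a = F + 2 * ‖S.K‖ * S.c * F ^ 2 := ⟨_, rfl⟩
  have ha0 : 0 < a := by rw [ha]; positivity
  obtain ⟨C, hC⟩ : ∃ C : ℝ, C = 2 * S.c * F := ⟨_, rfl⟩
  have hC0 : 0 < C := by rw [hC]; positivity
  -- the compact set of test vectors
  obtain ⟨Q, hQ⟩ : ∃ Q : Set H, Q = (fun t => S.vel (f t)) '' Icc 0 T ∪
    (fun t => S.M (f t) (S.vel (f t))) '' Icc 0 T := ⟨_, rfl⟩
  have hQc : IsCompact Q := by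
    rw [hQ]
    apply (isCompact_Icc.image_of_continuousOn hvc).union
    exact isCompact_Icc.image_of_continuousOn
      ((S.M.continuous.comp_continuousOn hf.cont).clm_apply hvc)
  obtain ⟨Y, hY⟩ : ∃ Y : ℝ, Y = a + S.c * F * a := ⟨_, rfl⟩
  have hY0 : 0 < Y := by rw [hY]; positivity
  have hva : ∀ t ∈ Icc 0 T, ‖S.vel (f t)‖ ≤ a := fun t ht => by rw [ha]; exact norm_vel_le (hb t ht)
  have hYv : ∀ t ∈ Icc 0 T, ‖S.vel (f t)‖ ≤ Y := fun t ht => by
    have := hva t ht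
    have : 0 ≤ S.c * F * a := by positivity
    linarith
  have hYM : ∀ t ∈ Icc 0 T, ‖S.M (f t) (S.vel (f t))‖ ≤ Y := by
    intro t ht
    have h0 : S.c * F * a ≤ Y := by linarith
    refine (S.M_le _ _).trans (le_trans ?_ h0)
    have h1 : S.m (f t) ≤ S.c * F := (S.m_le _).trans (by have := hb t ht; gcongr)
    exact mul_le_mul h1 (hva t ht) (norm_nonneg _) (by positivity)
  obtain ⟨Z, hZ⟩ : ∃ Z : ℝ, Z = (1 + (2 * a ^ 2 + 2 * C * (1 + Y) + 4 * (1 + Y)) / C) *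
    Real.exp (C * T) + 2 * (1 + Y) := ⟨_, rfl⟩
  have hZ0 : 0 < Z := by rw [hZ]; positivity
  obtain ⟨η, hη⟩ : ∃ η : ℝ, η = min (ε / 2) (ε ^ 2 / (4 * Z)) := ⟨_, rfl⟩
  have hη0 : 0 < η := by rw [hη]; positivity
  have hη1 : η ≤ ε / 2 := by rw [hη]; exact min_le_left _ _
  have hη2 : η ≤ ε ^ 2 / (4 * Z) := by rw [hη]; exact min_le_right _ _
  obtain ⟨δ₁, hδ₁, hm⟩ := S.exists_m_small F hF.le hη0
  obtain ⟨δ₂, hδ₂, hB⟩ := S.exists_B_small F hF.le hη0
  obtain ⟨δ₃, hδ₃, hw⟩ := S.exists_weak_small F hF.le hQc hη0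
  obtain ⟨δ', hδ'⟩ : ∃ δ' : ℝ, δ' = min δ₁ (min δ₂ δ₃) := ⟨_, rfl⟩
  have hδ'0 : 0 < δ' := by rw [hδ']; positivity
  have hδ'1 : δ' ≤ δ₁ := by rw [hδ']; exact min_le_left _ _
  have hδ'2 : δ' ≤ δ₂ := by rw [hδ']; exact (min_le_right _ _).trans (min_le_left _ _)
  have hδ'3 : δ' ≤ δ₃ := by rw [hδ']; exact (min_le_right _ _).trans (min_le_right _ _)
  -- continuity of the initial velocity
  have hcont0 : ContinuousAt (fun x : H => ‖S.vel x‖ ^ 2) (f 0) := by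
    have h3 : Continuous fun x : H => ‖S.vel x‖ ^ 2 := by
      unfold vel
      exact ((continuous_id.add (S.B.continuous.clm_apply continuous_id)).neg).norm.pow 2
    exact h3.continuousAt
  obtain ⟨δ₀, hδ₀, h₀⟩ := Metric.continuousAt_iff.1 hcont0 η hη0
  refine ⟨min (δ₀ / 2) (δ' / (‖S.K‖ * Real.exp (2 * S.c * F * T) + 1)), by positivity,
    fun g hg hgb hg0 => ?_⟩
  have hK := hf.weak_close hF hg hb hgb hT hδ'0 (hg0.trans (min_le_right _ _))
  have hBd : ∀ t ∈ Icc 0 T, ‖S.B (g t) (g t) - S.B (f t) (f t)‖ ≤ η := fun t ht =>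
    hB _ _ (hgb t ht) (hb t ht) ((hK t ht).trans hδ'2)
  have hmd : ∀ t ∈ Icc 0 T, S.m (g t - f t) ≤ η := fun t ht =>
    hm _ _ (hgb t ht) (hb t ht) ((hK t ht).trans hδ'1)
  have hwd : ∀ t ∈ Icc 0 T, ∀ y ∈ Q, ‖y‖ ≤ Y → |⟪S.vel (g t) - S.vel (f t), y⟫| ≤ η * (1 + Y) := by
    intro t ht y hy hyY
    have h1 := hw _ _ (hgb t ht) (hb t ht) ((hK t ht).trans hδ'3) y hy
    rw [vel_sub, inner_sub_left, inner_neg_left]
    have h2 : |⟪S.B (g t) (g t) - S.B (f t) (f t), y⟫| ≤ η * Y :=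
      (abs_real_inner_le_norm _ _).trans (mul_le_mul (hBd t ht) hyY (norm_nonneg _) hη0.le)
    refine (abs_sub _ _).trans ?_
    rw [abs_neg]
    linarith
  have h4 : ‖S.vel (g 0)‖ ^ 2 - ‖S.vel (f 0)‖ ^ 2 ≤ η := by
    have h5 := @h₀ (g 0) (by
      rw [dist_eq_norm]
      exact (hg0.trans (min_le_left _ _)).trans_lt (half_lt_self hδ₀))
    rw [Real.dist_eq] at h5
    exact le_of_abs_le h5.le
  -- the main estimate for `t < T`
  have key : ∀ t ∈ Ico 0 T, ‖g t - f t‖ ≤ ε := by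
    intro t ht
    have htT : t ∈ Icc 0 T := Ico_subset_Icc_self ht
    have hsub : Icc 0 t ⊆ Icc 0 T := Icc_subset_Icc_right ht.2.le
    have h7 := hf.vel_bound ht.1 ht.2 hF ha0 hY0 hC hη0 hg (fun s hs => hb s (hsub hs))
      (fun s hs => by rw [ha]; exact norm_vel_le (hgb s (hsub hs))) (fun s hs => hmd s (hsub hs))
      (fun s hs => hwd s (hsub hs) _ (by rw [hQ]; exact Or.inl ⟨s, hsub hs, rfl⟩) (hYv s (hsub hs)))
      (fun s hs => hwd s (hsub hs) _ (by rw [hQ]; exact Or.inr ⟨s, hsub hs, rfl⟩) (hYM s (hsub hs)))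
      h4
    have h6 : Real.exp (C * t) ≤ Real.exp (C * T) :=
      Real.exp_le_exp.2 (mul_le_mul_of_nonneg_left ht.2.le hC0.le)
    have h8 : ‖S.vel (g t) - S.vel (f t)‖ ^ 2 ≤ η * Z := by
      refine h7.trans ?_
      rw [hZ]
      gcongr
    have h9 : η * Z ≤ (ε / 2) ^ 2 := by
      calc η * Z ≤ (ε ^ 2 / (4 * Z)) * Z := by gcongr
        _ = (ε / 2) ^ 2 := by field_simp; ring
    have h10 : ‖S.vel (g t) - S.vel (f t)‖ ≤ ε / 2 := le_of_sq_le_sq (h8.trans h9) (by positivity)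
    have h11 : g t - f t = -(S.vel (g t) - S.vel (f t)) - (S.B (g t) (g t) - S.B (f t) (f t)) := by
      rw [vel_sub]; abel
    rw [h11]
    refine (norm_sub_le _ _).trans ?_
    rw [norm_neg]
    have h12 := hBd t htT
    linarith
  -- the end point
  intro t ht
  rcases eq_or_lt_of_le ht.2 with h | h
  · have hcl : T ∈ closure (Ico 0 T) := by
      rw [closure_Ico hT.ne]; exact right_mem_Icc.2 hT.le
    have hcd : ContinuousWithinAt (fun t => ‖g t - f t‖) (Ico 0 T) T :=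
      ((hg.cont T (right_mem_Icc.2 hT.le)).sub (hf.cont T (right_mem_Icc.2 hT.le))).norm.mono
        Ico_subset_Icc_self
    rw [h]
    have : (𝓝[Ico 0 T] T).NeBot := mem_closure_iff_nhdsWithin_neBot.1 hcl
    exact le_of_tendsto hcd (eventually_of_mem self_mem_nhdsWithin key)
  · exact key t ⟨ht.1, h⟩

end Sys

end Pool.Agent.Helper39.KdV
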