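import Pool.Agent.Helper39.KdV.Weak

/-!
# Existence of weak solutions
-/

open scoped RealInnerProductSpace Topology
open Set Filter

namespace Pool.Agent.Helper39.KdV

variable {H : Type*} [NormedAddCommGroup H] [InnerProductSpace ℝ H]

namespace Sys

variable (S : Sys H)

lemma continuousOn_B {s : Set ℝ} {F : ℝ} (hF : 0 ≤ F) {f : ℝ → H} (hf : ∀ t ∈ s, ‖f t‖ ≤ F)
    (hK : ContinuousOn (fun t => S.K (f t)) s) : ContinuousOn (fun t => S.B (f t) (f t)) s := by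
  intro t ht
  rw [Metric.continuousWithinAt_iff]
  intro η hη
  obtain ⟨δ, hδ, h⟩ := S.exists_B_small F hF (half_pos hη)
  obtain ⟨δ', hδ', h'⟩ := Metric.continuousWithinAt_iff.1 (hK t ht) δ hδ
  refine ⟨δ', hδ', fun {τ} hτ hτt => ?_⟩
  rw [dist_eq_norm]
  have h2 := h' hτ hτt
  rw [dist_eq_norm] at h2
  exact (h _ _ (hf τ hτ) (hf t ht) h2.le).trans_lt (half_lt_self hη)

variable [CompleteSpace H]

lemma continuousOn_inner {s : Set ℝ} {F : ℝ} (hF : 0 ≤ F) {f : ℝ → H} (hf : ∀ t ∈ s, ‖f t‖ ≤ F)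
    (hK : ContinuousOn (fun t => S.K (f t)) s) (y : H) : ContinuousOn (fun t => ⟪f t, y⟫) s := by
  intro t ht
  rw [Metric.continuousWithinAt_iff]
  intro η hη
  obtain ⟨δ, hδ, h⟩ := S.exists_weak_small F hF (isCompact_singleton (x := y)) (half_pos hη)
  obtain ⟨δ', hδ', h'⟩ := Metric.continuousWithinAt_iff.1 (hK t ht) δ hδ
  refine ⟨δ', hδ', fun {τ} hτ hτt => ?_⟩
  have h2 := h' hτ hτt
  rw [dist_eq_norm] at h2
  rw [Real.dist_eq, ← inner_sub_left]
  exact (h _ _ (hf τ hτ) (hf t ht) h2.le y rfl).trans_lt (half_lt_self hη)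

lemma continuousOn_inner_vel {s : Set ℝ} {F : ℝ} (hF : 0 ≤ F) {f : ℝ → H} (hf : ∀ t ∈ s, ‖f t‖ ≤ F)
    (hK : ContinuousOn (fun t => S.K (f t)) s) (y : H) :
    ContinuousOn (fun t => ⟪S.vel (f t), y⟫) s := by
  have h1 := S.continuousOn_inner hF hf hK y
  have h2 : ContinuousOn (fun t => ⟪S.B (f t) (f t), y⟫) s :=
    (S.continuousOn_B hF hf hK).inner continuousOn_const
  refine (h1.add h2).neg.congr fun t _ => ?_
  simp only [vel, inner_neg_left, inner_add_left, Pi.neg_apply, Pi.add_apply]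

/-- The sequence of regularisation parameters. -/
noncomputable def σ (n : ℕ) : ℝ := 1 / ((n : ℝ) + 1)

lemma σ_pos (n : ℕ) : 0 < σ n := by unfold σ; positivity

lemma σ_le_one (n : ℕ) : σ n ≤ 1 := by
  unfold σ
  rw [div_le_one (by positivity)]
  linarith [(Nat.cast_nonneg n : (0 : ℝ) ≤ n)]

lemma σ_anti {n m : ℕ} (h : n ≤ m) : σ m ≤ σ n := by
  unfold σ
  have : (n : ℝ) ≤ m := by exact_mod_cast h
  gcongr

lemma tendsto_σ : Tendsto σ atTop (𝓝 0) := tendsto_one_div_add_atTop_nhds_zero_nat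

lemma tendsto_J {x : ℕ → H} {x₀ : H} (hx : Tendsto x atTop (𝓝 x₀)) :
    Tendsto (fun n => S.J (σ n) (x n)) atTop (𝓝 x₀) := by
  rw [Metric.tendsto_atTop] at hx ⊢
  intro η hη
  obtain ⟨N, hN⟩ := hx (η / 2) (half_pos hη)
  obtain ⟨ε₀, hε₀, hJ⟩ := S.exists_J_small x₀ (by positivity : (0 : ℝ) < η / 4)
  obtain ⟨N', hN'⟩ := (Metric.tendsto_atTop.1 tendsto_σ) ε₀ hε₀
  refine ⟨max N N', fun n hn => ?_⟩
  have h1 := hN n (le_of_max_le_left hn)
  have h2 := hN' n (le_of_max_le_right hn)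
  rw [Real.dist_eq, sub_zero, abs_of_pos (σ_pos n)] at h2
  have h3 := hJ (σ n) (σ_pos n) h2.le
  rw [dist_eq_norm] at h1 ⊢
  have e : S.J (σ n) (x n) - x₀ = S.J (σ n) (x n - x₀) - (x₀ - S.J (σ n) x₀) := by
    rw [map_sub]; abel
  rw [e]
  refine (norm_sub_le _ _).trans_lt ?_
  have h4 := S.norm_J_le (σ_pos n) (x n - x₀)
  linarith

lemma tendsto_V (f₀ : H) : Tendsto (fun n => S.V (σ n) (S.K f₀)) atTop (𝓝 (S.vel f₀)) := by
  have h1 : Tendsto (fun n => S.J (σ n) f₀) atTop (𝓝 f₀) := S.tendsto_J tendsto_const_nhds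
  have h2 : Tendsto (fun n => S.B (S.J (σ n) f₀) (S.J (σ n) f₀)) atTop (𝓝 (S.B f₀ f₀)) := by
    have h3 : Continuous fun x : H => S.B x x := S.B.continuous.clm_apply continuous_id
    exact (h3.tendsto f₀).comp h1
  have h3 := S.tendsto_J h2
  have h4 := h1.neg.sub h3
  have e : S.vel f₀ = -f₀ - S.B f₀ f₀ := by rw [vel]; abel
  rw [e]
  refine h4.congr fun n => ?_
  rw [V, S.A_K (σ_pos n)]

/-- Existence of weak solutions, with control of the velocity. -/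
theorem exists_weak {R : ℝ} (hR : 0 ≤ R) : ∃ T F : ℝ, 0 < T ∧ 0 < F ∧ R ≤ F ∧
    ∀ f₀ : H, ‖f₀‖ ≤ R → ∃ f : ℝ → H, f 0 = f₀ ∧ S.IsWeak T F f ∧
      ∀ t ∈ Icc 0 T, ‖S.vel (f t)‖ ^ 2 ≤ ‖S.vel f₀‖ ^ 2 * Real.exp (2 * S.c * F * t) := by
  obtain ⟨T, F, hT, hF, hRF, hap⟩ := S.exists_apriori hR
  refine ⟨T, F, hT, hF, hRF, fun f₀ hf₀ => ?_⟩
  have hc := S.one_le_c
  choose un hun0 hunn hund using fun n => S.exists_approx (σ_pos n) T hT.le (S.K f₀)
  have hap' := fun n => hap (σ n) (σ_pos n) f₀ hf₀ (un n) (hun0 n) (hunn n) (hund n)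
  have htraj : ∀ n, S.Traj (σ n) T F f₀ (un n) := fun n =>
    { init := hun0 n
      f0_le := hf₀.trans hRF
      norm_u := hunn n
      deriv := hund n
      norm_V := fun t ht => (hap' n t ht).1
      norm_A := fun t ht => (hap' n t ht).2.1 }
  obtain ⟨D, hD, hcau⟩ := exists_cauchy (S := S) (T := T) hF
  set r : ℕ → ℝ := fun n => √(D * (2 * √(σ n))) with hr
  have hr0 : Tendsto r atTop (𝓝 0) := by
    have h1 : Tendsto (fun n => D * (2 * √(σ n))) atTop (𝓝 (D * (2 * √0))) :=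
      ((tendsto_σ.sqrt).const_mul 2).const_mul D
    have h2 := h1.sqrt
    rw [Real.sqrt_zero, mul_zero, mul_zero, Real.sqrt_zero] at h2
    exact h2
  have hdist : ∀ t ∈ Icc 0 T, ∀ n m, n ≤ m → ‖un n t - un m t‖ ≤ r n := by
    intro t ht n m hnm
    apply Real.le_sqrt_of_sq_le
    refine (hcau _ _ (σ_pos n) (σ_le_one n) (σ_pos m) (σ_le_one m) f₀ _ _ (htraj n) (htraj m) t ht).trans ?_
    have : √(σ m) ≤ √(σ n) := Real.sqrt_le_sqrt (σ_anti hnm)
    gcongr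
    linarith
  have hrnn : ∀ n, 0 ≤ r n := fun n => Real.sqrt_nonneg _
  have hlim : ∀ t, ∃ x, t ∈ Icc 0 T → Tendsto (fun n => un n t) atTop (𝓝 x) := by
    intro t
    by_cases ht : t ∈ Icc 0 T
    · have hC : CauchySeq (fun n => un n t) := by
        refine cauchySeq_of_le_tendsto_0 (fun n => r n + r n) (fun n m N hn hm => ?_) (by simpa using hr0.add hr0)
        rw [dist_eq_norm]
        have h1 := hdist t ht N n hn
        have h2 := hdist t ht N m hm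
        calc ‖un n t - un m t‖ = ‖(un N t - un m t) - (un N t - un n t)‖ := by congr 1; abel
          _ ≤ _ := norm_sub_le _ _
          _ ≤ _ := by linarith
      obtain ⟨x, hx⟩ := cauchySeq_tendsto_of_complete hC
      exact ⟨x, fun _ => hx⟩
    · exact ⟨0, fun h => absurd h ht⟩
  choose U hU using hlim
  have hUn : ∀ t ∈ Icc 0 T, ∀ n, ‖un n t - U t‖ ≤ r n := by
    intro t ht n
    have h1 : Tendsto (fun m => ‖un n t - un m t‖) atTop (𝓝 ‖un n t - U t‖) :=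
      (tendsto_const_nhds.sub (hU t ht)).norm
    exact le_of_tendsto h1 (eventually_atTop.2 ⟨n, fun m hm => hdist t ht n m hm⟩)
  -- high frequencies
  set E₀ : ℝ := (‖S.K‖ * F ^ 2 + 4 * ‖S.K‖ * S.c * F ^ 3) * Real.exp T with hE₀
  have hE₀0 : 0 ≤ E₀ := by positivity
  set ρ : ℕ → ℝ := fun n => r n + √(σ n * E₀) with hρ
  have hρ0 : Tendsto ρ atTop (𝓝 0) := by
    have h1 : Tendsto (fun n => √(σ n * E₀)) atTop (𝓝 √(0 * E₀)) := (tendsto_σ.mul_const E₀).sqrt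
    have h2 := hr0.add h1
    simpa using h2
  have hKf : ∀ t ∈ Icc 0 T, ∀ n, ‖S.K (S.A (σ n) (un n t)) - U t‖ ≤ ρ n := by
    intro t ht n
    have h1 : ‖un n t - S.J (σ n) (un n t)‖ ≤ √(σ n * E₀) :=
      Real.le_sqrt_of_sq_le ((htraj n).norm_sub_J (σ_pos n) hF.le ht)
    have h2 := hUn t ht n
    rw [S.K_A]
    calc ‖S.J (σ n) (un n t) - U t‖ = ‖(un n t - U t) - (un n t - S.J (σ n) (un n t))‖ := by
          congr 1; abel
      _ ≤ _ := norm_sub_le _ _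
      _ ≤ _ := by rw [hρ]; simp only; linarith
  have hexf : ∀ t, ∃ f : H, t ∈ Icc 0 T → ‖f‖ ≤ F ∧ S.K f = U t := by
    intro t
    by_cases ht : t ∈ Icc 0 T
    · have h1 : Tendsto (fun n => S.K (S.A (σ n) (un n t))) atTop (𝓝 (U t)) := by
        rw [tendsto_iff_norm_sub_tendsto_zero]
        exact squeeze_zero (fun n => norm_nonneg _) (hKf t ht) hρ0
      obtain ⟨f, hf⟩ := S.exists_of_tendsto hF.le (fun n => (htraj n).norm_A t ht) h1
      exact ⟨f, fun _ => hf⟩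
    · exact ⟨0, fun h => absurd h ht⟩
  choose f hf using hexf
  have hbdd : ∀ t ∈ Icc 0 T, ‖f t‖ ≤ F := fun t ht => (hf t ht).1
  have hKU : ∀ t ∈ Icc 0 T, S.K (f t) = U t := fun t ht => (hf t ht).2
  have h0mem : (0 : ℝ) ∈ Icc 0 T := ⟨le_rfl, hT.le⟩
  have hf0 : f 0 = f₀ := by
    apply S.inj
    rw [hKU 0 h0mem]
    have h1 := hU 0 h0mem
    simp only [hun0] at h1
    exact tendsto_nhds_unique h1 tendsto_const_nhds
  -- continuity of `K f`
  have hLip : ∀ t ∈ Icc 0 T, ∀ τ ∈ Icc 0 T, ‖S.K (f τ) - S.K (f t)‖ ≤ F * ‖τ - t‖ := by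
    intro t ht τ hτ
    rw [hKU t ht, hKU τ hτ]
    have h1 : Tendsto (fun n => ‖un n τ - un n t‖) atTop (𝓝 ‖U τ - U t‖) :=
      ((hU τ hτ).sub (hU t ht)).norm
    refine le_of_tendsto h1 (Eventually.of_forall fun n => ?_)
    exact (convex_Icc 0 T).norm_image_sub_le_of_norm_hasDerivWithin_le (htraj n).deriv
      (htraj n).norm_V ht hτ
  have hKc : ContinuousOn (fun t => S.K (f t)) (Icc 0 T) := by
    intro t ht
    rw [Metric.continuousWithinAt_iff]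
    intro η hη
    refine ⟨η / (F + 1), by positivity, fun {τ} hτ hτt => ?_⟩
    rw [dist_eq_norm] at hτt ⊢
    refine (hLip t ht τ hτ).trans_lt ?_
    rw [lt_div_iff₀ (by positivity)] at hτt
    nlinarith [norm_nonneg (τ - t)]
  -- uniform weak convergence of the velocities
  have hunif : ∀ y : H, ∀ η : ℝ, 0 < η → ∃ N, ∀ n ≥ N, ∀ t ∈ Icc 0 T,
      ‖⟪S.V (σ n) (un n t), y⟫ - ⟪S.vel (f t), y⟫‖ ≤ η := by
    intro y η hη
    set b : ℝ := 2 * ‖S.K‖ * S.c * F ^ 2 with hb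
    have hb0 : 0 ≤ b := by positivity
    obtain ⟨δ₁, hδ₁, hw⟩ := S.exists_weak_small F hF.le (isCompact_singleton (x := y))
      (by positivity : (0 : ℝ) < η / 3)
    obtain ⟨δ₂, hδ₂, hB⟩ := S.exists_B_small F hF.le
      (by positivity : (0 : ℝ) < η / (3 * (‖y‖ + 1)))
    obtain ⟨ε₀, hε₀, hJ⟩ := S.exists_J_small y (by positivity : (0 : ℝ) < η / (3 * (b + 1)))
    obtain ⟨N₁, hN₁⟩ := (Metric.tendsto_atTop.1 hρ0) (min δ₁ δ₂) (lt_min hδ₁ hδ₂)
    obtain ⟨N₂, hN₂⟩ := (Metric.tendsto_atTop.1 tendsto_σ) ε₀ hε₀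
    refine ⟨max N₁ N₂, fun n hn t ht => ?_⟩
    have h1 := hN₁ n (le_of_max_le_left hn)
    have h2 := hN₂ n (le_of_max_le_right hn)
    rw [Real.dist_eq, sub_zero, abs_of_pos (σ_pos n)] at h2
    rw [Real.dist_eq, sub_zero] at h1
    have h3 : ‖S.K (S.A (σ n) (un n t)) - S.K (f t)‖ ≤ min δ₁ δ₂ := by
      rw [hKU t ht]
      exact (hKf t ht n).trans ((le_abs_self _).trans h1.le)
    set fn := S.A (σ n) (un n t) with hfn
    have hfnF : ‖fn‖ ≤ F := (htraj n).norm_A t ht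
    have h4 := hw fn (f t) hfnF (hbdd t ht) (h3.trans (min_le_left _ _)) y rfl
    have h5 := hB fn (f t) hfnF (hbdd t ht) (h3.trans (min_le_right _ _))
    have h6 := hJ (σ n) (σ_pos n) h2.le
    have e : ⟪S.V (σ n) (un n t), y⟫ - ⟪S.vel (f t), y⟫ =
        -⟪fn - f t, y⟫ - ⟪S.B fn fn - S.B (f t) (f t), y⟫ + ⟪S.B fn fn, y - S.J (σ n) y⟫ := by
      rw [V, vel]
      simp only [inner_sub_left, inner_neg_left, inner_add_left, inner_sub_right, ← hfn]
      rw [S.J_symm (σ_pos n)]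
      ring
    rw [e]
    have h7 : |⟪S.B fn fn - S.B (f t) (f t), y⟫| ≤ η / 3 := by
      refine (abs_real_inner_le_norm _ _).trans ?_
      calc ‖S.B fn fn - S.B (f t) (f t)‖ * ‖y‖ ≤ (η / (3 * (‖y‖ + 1))) * ‖y‖ := by gcongr
        _ = (η / 3) * (‖y‖ / (‖y‖ + 1)) := by field_simp
        _ ≤ η / 3 := by
          have : ‖y‖ / (‖y‖ + 1) ≤ 1 := by rw [div_le_one (by positivity)]; linarith
          nlinarith
    have h8 : |⟪S.B fn fn, y - S.J (σ n) y⟫| ≤ η / 3 := by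
      refine (abs_real_inner_le_norm _ _).trans ?_
      calc ‖S.B fn fn‖ * ‖y - S.J (σ n) y‖ ≤ b * (η / (3 * (b + 1))) :=
            mul_le_mul ((htraj n).norm_B ht) h6 (norm_nonneg _) hb0
        _ = (η / 3) * (b / (b + 1)) := by field_simp
        _ ≤ η / 3 := by
          have : b / (b + 1) ≤ 1 := by rw [div_le_one (by positivity)]; linarith
          nlinarith
    rw [Real.norm_eq_abs]
    calc _ ≤ |-⟪fn - f t, y⟫ - ⟪S.B fn fn - S.B (f t) (f t), y⟫| +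
          |⟪S.B fn fn, y - S.J (σ n) y⟫| := abs_add_le _ _
      _ ≤ (|-⟪fn - f t, y⟫| + |⟪S.B fn fn - S.B (f t) (f t), y⟫|) +
          |⟪S.B fn fn, y - S.J (σ n) y⟫| := by gcongr; exact abs_sub _ _
      _ ≤ η := by rw [abs_neg]; linarith
  refine ⟨f, hf0, ⟨hbdd, fun y => ?_⟩, fun t ht => ?_⟩
  · refine hasDerivWithinAt_limit (un := fun n t => ⟪un n t, y⟫)
      (φn := fun n t => ⟪S.V (σ n) (un n t), y⟫) (fun n t ht => ?_) (fun t ht => ?_)
      (hunif y) (S.continuousOn_inner_vel hF.le hbdd hKc y)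
    · have h1 := ((htraj n).deriv t ht).inner ℝ (hasDerivWithinAt_const t (Icc 0 T) y)
      simpa using h1
    · rw [hKU t ht]
      exact (hU t ht).inner tendsto_const_nhds
  · set v := S.vel (f t) with hv
    have h1 : Tendsto (fun n => ⟪S.V (σ n) (un n t), v⟫) atTop (𝓝 (‖v‖ ^ 2)) := by
      rw [← real_inner_self_eq_norm_sq, Metric.tendsto_atTop]
      intro η hη
      obtain ⟨N, hN⟩ := hunif v (η / 2) (half_pos hη)
      exact ⟨N, fun n hn => by
        rw [dist_eq_norm]; exact (hN n hn t ht).trans_lt (half_lt_self hη)⟩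
    have h2 : Tendsto (fun n => (1 / 2) * (‖S.V (σ n) (S.K f₀)‖ ^ 2 * Real.exp (2 * S.c * F * t)
        + ‖v‖ ^ 2)) atTop (𝓝 ((1 / 2) * (‖S.vel f₀‖ ^ 2 * Real.exp (2 * S.c * F * t) + ‖v‖ ^ 2))) :=
      ((((S.tendsto_V f₀).norm.pow 2).mul_const _).add_const _).const_mul _
    have h3 := le_of_tendsto_of_tendsto' h1 h2 fun n => by
      have h4 := (hap' n t ht).2.2
      have h5 := real_inner_le_norm (S.V (σ n) (un n t)) v
      nlinarith [sq_nonneg (‖S.V (σ n) (un n t)‖ - ‖v‖)]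
    linarith

end Sys

end Pool.Agent.Helper39.KdV
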