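import Mathlib

/-!
# An abstract first order evolution system in a real Hilbert space

`K` is a bounded injective skew-adjoint operator (the inverse of the unbounded skew-adjoint
operator `A`), `u = K f` stands for an element of the domain of `A`, with `A u = f`, and
`B f g` is the symmetric bilinear map that stands for `(u v)_x / 2` with `u = K f`, `v = K g`.
The evolution equation is `u' = -(f + B f f)`, where `u = K f`.
-/

open scoped RealInnerProductSpace Topology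
open Set Filter

namespace Pool.Agent.Helper39.KdV

variable {H : Type*} [NormedAddCommGroup H] [InnerProductSpace ℝ H]

/-- The data of the abstract system. -/
structure Sys (H : Type*) [NormedAddCommGroup H] [InnerProductSpace ℝ H] where
  /-- the inverse of the linear operator -/
  K : H →L[ℝ] H
  /-- the bilinear term -/
  B : H →L[ℝ] H →L[ℝ] H
  /-- the multiplier of the energy identity -/
  M : H →L[ℝ] H →L[ℝ] H
  /-- the intermediate seminorm -/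
  m : H → ℝ
  skew : ∀ x y, ⟪K x, y⟫ = -⟪x, K y⟫
  inj : Function.Injective K
  Bsymm : ∀ f g, B f g = B g f
  BK : ∀ f g, ⟪K g, B f g⟫ = (1 / 2) * ⟪M f (K g), K g⟫
  B0 : ∀ f, ⟪K f, B f f⟫ = 0
  Msymm : ∀ f x y, ⟪M f x, y⟫ = ⟪x, M f y⟫
  m_nonneg : ∀ f, 0 ≤ m f
  m_add : ∀ f g, m (f + g) ≤ m f + m g
  m_neg : ∀ f, m (-f) = m f
  M_le : ∀ f x, ‖M f x‖ ≤ m f * ‖x‖
  B_le : ∀ f g, ‖B f g‖ ≤ ‖K f‖ * m g + m f * ‖K g‖
  interp : ∀ η : ℝ, 0 < η → ∃ C : ℝ, 0 ≤ C ∧ ∀ f, m f ≤ η * ‖f‖ + C * ‖K f‖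

namespace Sys

variable (S : Sys H)

/-- Time reversal. -/
noncomputable def rev : Sys H where
  K := -S.K
  B := -S.B
  M := S.M
  m := S.m
  skew := fun x y => by
    simp only [neg_apply, inner_neg_left, inner_neg_right, S.skew x y]
  inj := fun x y h => S.inj (by simpa using h)
  Bsymm := fun f g => by simp [S.Bsymm f g]
  BK := fun f g => by simp [S.BK f g]
  B0 := fun f => by simp [S.B0 f]
  Msymm := S.Msymm
  m_nonneg := S.m_nonneg
  m_add := S.m_add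
  m_neg := S.m_neg
  M_le := S.M_le
  B_le := fun f g => by simpa using S.B_le f g
  interp := fun η hη => by simpa using S.interp η hη

@[simp] lemma rev_K (x : H) : S.rev.K x = -S.K x := rfl
@[simp] lemma rev_B (x y : H) : S.rev.B x y = -S.B x y := rfl
@[simp] lemma rev_M : S.rev.M = S.M := rfl
@[simp] lemma rev_m : S.rev.m = S.m := rfl

lemma inner_K_self (x : H) : ⟪S.K x, x⟫ = 0 := by
  have h := S.skew x x
  rw [real_inner_comm x (S.K x)] at h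
  linarith [real_inner_comm x (S.K x)]

lemma inner_self_K (x : H) : ⟪x, S.K x⟫ = 0 := by
  rw [real_inner_comm]; exact S.inner_K_self x

/-- `m` is bounded by a multiple of the norm. -/
lemma exists_m_le : ∃ c : ℝ, 1 ≤ c ∧ ∀ f, S.m f ≤ c * ‖f‖ := by
  obtain ⟨C, hC, h⟩ := S.interp 1 one_pos
  refine ⟨1 + C * ‖S.K‖, by nlinarith [mul_nonneg hC (norm_nonneg S.K)], fun f => ?_⟩
  have h1 := h f
  have h2 : C * ‖S.K f‖ ≤ C * (‖S.K‖ * ‖f‖) := mul_le_mul_of_nonneg_left (S.K.le_opNorm f) hC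
  nlinarith

/-- A constant with `m f ≤ c ‖f‖`. -/
noncomputable def c : ℝ := S.exists_m_le.choose

lemma one_le_c : 1 ≤ S.c := S.exists_m_le.choose_spec.1

lemma m_le (f : H) : S.m f ≤ S.c * ‖f‖ := S.exists_m_le.choose_spec.2 f

lemma m_sub (f g : H) : S.m (f - g) ≤ S.m f + S.m g := by
  rw [sub_eq_add_neg, ← S.m_neg g]
  exact S.m_add f (-g)

lemma B_sub_sub (f g : H) : S.B f f - S.B g g = S.B (f + g) (f - g) := by
  simp only [map_add, map_sub, add_apply]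
  rw [S.Bsymm g f]
  abel

section Complete

lemma isUnit_reg [CompleteSpace H] {ε : ℝ} (hε : 0 < ε) :
    IsUnit ((ε ^ 2) • (1 : H →L[ℝ] H) - S.K * S.K) := by
  have hc : (0 : NNReal) < Real.toNNReal (ε ^ 2) := Real.toNNReal_pos.2 (by positivity)
  refine ContinuousLinearMap.isUnit_of_forall_le_norm_inner_map _ hc fun x => ?_
  have h1 : ⟪((ε ^ 2) • (1 : H →L[ℝ] H) - S.K * S.K) x, x⟫ = ε ^ 2 * ‖x‖ ^ 2 + ‖S.K x‖ ^ 2 := by
    simp only [sub_apply, smul_apply, one_apply_eq_self, mul_apply_eq_comp,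
      inner_sub_left,
      real_inner_smul_left, S.skew (S.K x) x, real_inner_self_eq_norm_sq]
    ring
  rw [h1, Real.coe_toNNReal _ (by positivity)]
  have h2 : (0 : ℝ) ≤ ε ^ 2 * ‖x‖ ^ 2 + ‖S.K x‖ ^ 2 := by positivity
  rw [Real.norm_of_nonneg h2]
  nlinarith [sq_nonneg ‖S.K x‖]

/-- The resolvent `(ε² - K²)⁻¹`. -/
noncomputable def R (ε : ℝ) : H →L[ℝ] H := Ring.inverse ((ε ^ 2) • (1 : H →L[ℝ] H) - S.K * S.K)

variable [CompleteSpace H]

lemma reg_R {ε : ℝ} (hε : 0 < ε) (x : H) :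
    (ε ^ 2) • S.R ε x - S.K (S.K (S.R ε x)) = x := by
  have h := Ring.mul_inverse_cancel _ (S.isUnit_reg hε)
  have h2 := congrArg (fun T : H →L[ℝ] H => T x) h
  simpa [R] using h2

lemma R_reg {ε : ℝ} (hε : 0 < ε) (x : H) :
    S.R ε ((ε ^ 2) • x - S.K (S.K x)) = x := by
  have h := Ring.inverse_mul_cancel _ (S.isUnit_reg hε)
  have h2 := congrArg (fun T : H →L[ℝ] H => T x) h
  simpa [R] using h2

lemma R_K {ε : ℝ} (hε : 0 < ε) (x : H) : S.R ε (S.K x) = S.K (S.R ε x) := by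
  have h := S.R_reg hε (S.K (S.R ε x))
  have h2 : (ε ^ 2) • S.K (S.R ε x) - S.K (S.K (S.K (S.R ε x))) = S.K x := by
    rw [← map_smul, ← map_sub, S.reg_R hε]
  rw [h2] at h
  exact h

lemma R_symm {ε : ℝ} (hε : 0 < ε) (x y : H) : ⟪S.R ε x, y⟫ = ⟪x, S.R ε y⟫ := by
  conv_lhs => rw [← S.reg_R hε y]
  conv_rhs => rw [← S.reg_R hε x]
  simp only [inner_sub_left, inner_sub_right, real_inner_smul_left, real_inner_smul_right]
  have h1 : ⟪S.R ε x, S.K (S.K (S.R ε y))⟫ = ⟪S.K (S.K (S.R ε x)), S.R ε y⟫ := by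
    rw [S.skew (S.K (S.R ε x)), S.skew, neg_neg]
  rw [h1]

/-- The mollifier `J = -K² (ε² - K²)⁻¹`. -/
noncomputable def J (ε : ℝ) : H →L[ℝ] H := -(S.K * S.K * S.R ε)

/-- The bounded approximation `A = K⁻¹ J` of `K⁻¹`. -/
noncomputable def A (ε : ℝ) : H →L[ℝ] H := -(S.K * S.R ε)

omit [CompleteSpace H] in
lemma J_apply (ε : ℝ) (x : H) : S.J ε x = -S.K (S.K (S.R ε x)) := rfl

omit [CompleteSpace H] in
lemma A_apply (ε : ℝ) (x : H) : S.A ε x = -S.K (S.R ε x) := rfl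

omit [CompleteSpace H] in
lemma K_A (ε : ℝ) (x : H) : S.K (S.A ε x) = S.J ε x := by
  rw [A_apply, J_apply, map_neg]

lemma sub_J {ε : ℝ} (hε : 0 < ε) (x : H) : x - S.J ε x = (ε ^ 2) • S.R ε x := by
  rw [J_apply, sub_neg_eq_add]
  nth_rewrite 1 [← S.reg_R hε x]
  abel

lemma J_symm {ε : ℝ} (hε : 0 < ε) (x y : H) : ⟪S.J ε x, y⟫ = ⟪x, S.J ε y⟫ := by
  rw [J_apply, J_apply, inner_neg_left, inner_neg_right, S.skew, S.skew, neg_neg,
    S.R_symm hε, S.R_K hε, S.R_K hε]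

lemma A_skew {ε : ℝ} (hε : 0 < ε) (x y : H) : ⟪S.A ε x, y⟫ = -⟪x, S.A ε y⟫ := by
  rw [A_apply, A_apply, inner_neg_left, inner_neg_right, S.skew, neg_neg, neg_neg,
    S.R_symm hε, S.R_K hε]

lemma inner_A_self {ε : ℝ} (hε : 0 < ε) (x : H) : ⟪x, S.A ε x⟫ = 0 := by
  have h := S.A_skew hε x x
  rw [real_inner_comm] at h
  linarith

/-- The basic identity for the resolvent. -/
lemma norm_sq_eq {ε : ℝ} (hε : 0 < ε) (x : H) :
    ‖x‖ ^ 2 = ‖S.J ε x‖ ^ 2 + 2 * ε ^ 2 * ‖S.K (S.R ε x)‖ ^ 2 + ‖x - S.J ε x‖ ^ 2 := by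
  have h1 : x = S.J ε x + (ε ^ 2) • S.R ε x := by rw [← S.sub_J hε x]; abel
  have h2 : ‖x‖ ^ 2 = ‖S.J ε x‖ ^ 2 + 2 * ⟪S.J ε x, (ε ^ 2) • S.R ε x⟫ + ‖(ε ^ 2) • S.R ε x‖ ^ 2 := by
    nth_rewrite 1 [h1]
    exact norm_add_sq_real _ _
  have h3 : ⟪S.J ε x, (ε ^ 2) • S.R ε x⟫ = ε ^ 2 * ‖S.K (S.R ε x)‖ ^ 2 := by
    rw [real_inner_smul_right, J_apply, inner_neg_left, S.skew, neg_neg,
      real_inner_self_eq_norm_sq]
  rw [h2, h3, S.sub_J hε]
  ring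

lemma norm_J_le {ε : ℝ} (hε : 0 < ε) (x : H) : ‖S.J ε x‖ ≤ ‖x‖ := by
  have h := S.norm_sq_eq hε x
  have h1 : 0 ≤ 2 * ε ^ 2 * ‖S.K (S.R ε x)‖ ^ 2 := by positivity
  have h2 : 0 ≤ ‖x - S.J ε x‖ ^ 2 := by positivity
  exact le_of_sq_le_sq (by linarith) (norm_nonneg _)

lemma norm_sub_J_le {ε : ℝ} (hε : 0 < ε) (x : H) : ‖x - S.J ε x‖ ≤ ‖x‖ := by
  have h := S.norm_sq_eq hε x
  have h1 : 0 ≤ 2 * ε ^ 2 * ‖S.K (S.R ε x)‖ ^ 2 := by positivity
  have h2 : 0 ≤ ‖S.J ε x‖ ^ 2 := by positivity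
  exact le_of_sq_le_sq (by linarith) (norm_nonneg _)

lemma eps_norm_A_le {ε : ℝ} (hε : 0 < ε) (x : H) : ε * ‖S.A ε x‖ ≤ ‖x‖ := by
  have h := S.norm_sq_eq hε x
  have h1 : 0 ≤ ‖S.J ε x‖ ^ 2 := by positivity
  have h2 : 0 ≤ ‖x - S.J ε x‖ ^ 2 := by positivity
  rw [A_apply, norm_neg]
  refine le_of_sq_le_sq ?_ (norm_nonneg _)
  have h3 : (ε * ‖S.K (S.R ε x)‖) ^ 2 = ε ^ 2 * ‖S.K (S.R ε x)‖ ^ 2 := by ring
  have h4 : 0 ≤ ε ^ 2 * ‖S.K (S.R ε x)‖ ^ 2 := by positivity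
  rw [h3]
  linarith

/-- `J K x` is `ε`-close to `K x`. -/
lemma norm_K_sub_J_le {ε : ℝ} (hε : 0 < ε) (x : H) : ‖S.K x - S.J ε (S.K x)‖ ≤ ε * ‖x‖ := by
  rw [S.sub_J hε, S.R_K hε, norm_smul, Real.norm_of_nonneg (by positivity : (0 : ℝ) ≤ ε ^ 2)]
  have h := S.eps_norm_A_le hε x
  rw [A_apply, norm_neg] at h
  nlinarith [norm_nonneg (S.K (S.R ε x))]

lemma A_K {ε : ℝ} (hε : 0 < ε) (x : H) : S.A ε (S.K x) = S.J ε x := by
  rw [A_apply, J_apply, S.R_K hε]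

lemma norm_A_K_le {ε : ℝ} (hε : 0 < ε) (x : H) : ‖S.A ε (S.K x)‖ ≤ ‖x‖ := by
  rw [S.A_K hε]; exact S.norm_J_le hε x

/-- `0 ≤ (1 - J) J` -/
lemma norm_sub_J_sq_le {ε : ℝ} (hε : 0 < ε) (x : H) :
    ‖x - S.J ε x‖ ^ 2 ≤ ⟪x - S.J ε x, x⟫ := by
  have h1 : ⟪x - S.J ε x, x⟫ = ‖x - S.J ε x‖ ^ 2 + ⟪x - S.J ε x, S.J ε x⟫ := by
    rw [← real_inner_self_eq_norm_sq, ← inner_add_right]
    congr 1
    abel
  have h2 : 0 ≤ ⟪x - S.J ε x, S.J ε x⟫ := by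
    rw [S.sub_J hε, real_inner_smul_left, J_apply, inner_neg_right, real_inner_comm, S.skew,
      neg_neg, real_inner_self_eq_norm_sq]
    positivity
  linarith

/-- The range of `K` is dense. -/
lemma denseRange_K : DenseRange S.K := by
  have h' : Dense ((LinearMap.range (S.K : H →ₗ[ℝ] H) : Submodule ℝ H) : Set H) := by
    rw [Submodule.dense_iff_topologicalClosure_eq_top, Submodule.topologicalClosure_eq_top_iff,
      Submodule.eq_bot_iff]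
    intro x hx
    have h1 : S.K x = 0 := by
      have h2 : ⟪S.K (S.K x), x⟫ = 0 := hx (S.K (S.K x)) ⟨S.K x, rfl⟩
      rw [S.skew, neg_eq_zero, inner_self_eq_zero] at h2
      exact h2
    exact S.inj (by rw [h1, map_zero])
  rw [LinearMap.coe_range] at h'
  exact h'

end Complete

end Sys

end Pool.Agent.Helper39.KdV
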