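import Pool.Agent.Helper39.KdV.Space
import Pool.Agent.Helper39.KdV.Sys

/-!
# The system of the Korteweg-de Vries equation on an interval
-/

open MeasureTheory Set Filter
open scoped RealInnerProductSpace Topology BoundedContinuousFunction

namespace Pool.Agent.Helper39.KdV

variable {L : ℝ}

lemma memLp_mul (u : ℝ →ᵇ ℝ) (f : HL L) : MemLp (fun x => u x * f x) 2 (mu L) := by
  refine MemLp.of_le_mul (c := ‖u‖) (Lp.memLp f) ?_ (Eventually.of_forall fun x => ?_)
  · exact u.continuous.aestronglyMeasurable.mul (Lp.memLp f).1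
  · rw [norm_mul]
    exact mul_le_mul_of_nonneg_right (u.norm_coe_le_norm x) (norm_nonneg _)

lemma coe_toLp_mul (u : ℝ →ᵇ ℝ) (f : HL L) :
    (memLp_mul u f).toLp _ =ᵐ[mu L] fun x => u x * f x := MemLp.coeFn_toLp _

/-- Multiplication by a bounded continuous function. -/
noncomputable def mulE (L : ℝ) : (ℝ →ᵇ ℝ) →L[ℝ] HL L →L[ℝ] HL L :=
  LinearMap.mkContinuous₂
    (LinearMap.mk₂ ℝ (fun u f => (memLp_mul u f).toLp _)
      (fun u v f => by
        apply Lp.ext
        filter_upwards [coe_toLp_mul (u + v) f, coe_toLp_mul u f, coe_toLp_mul v f,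
          Lp.coeFn_add ((memLp_mul u f).toLp _) ((memLp_mul v f).toLp _)] with x h1 h2 h3 h4
        rw [h1, h4, Pi.add_apply, h2, h3, BoundedContinuousFunction.add_apply]
        ring)
      (fun c u f => by
        apply Lp.ext
        filter_upwards [coe_toLp_mul (c • u) f, coe_toLp_mul u f,
          Lp.coeFn_smul c ((memLp_mul u f).toLp _)] with x h1 h2 h3
        rw [h1, h3, Pi.smul_apply, h2]
        simp only [BoundedContinuousFunction.coe_smul, smul_eq_mul]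
        ring)
      (fun u f g => by
        apply Lp.ext
        filter_upwards [coe_toLp_mul u (f + g), coe_toLp_mul u f, coe_toLp_mul u g,
          Lp.coeFn_add ((memLp_mul u f).toLp _) ((memLp_mul u g).toLp _), Lp.coeFn_add f g]
          with x h1 h2 h3 h4 h5
        rw [h1, h4, Pi.add_apply, h2, h3, h5, Pi.add_apply]
        ring)
      (fun c u f => by
        apply Lp.ext
        filter_upwards [coe_toLp_mul u (c • f), coe_toLp_mul u f,
          Lp.coeFn_smul c ((memLp_mul u f).toLp _), Lp.coeFn_smul c f] with x h1 h2 h3 h4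
        rw [h1, h3, Pi.smul_apply, h2, h4, Pi.smul_apply, smul_eq_mul, smul_eq_mul]
        ring)) 1 (fun u f => by
      rw [one_mul]
      refine Lp.norm_le_mul_norm_of_ae_le_mul ?_
      filter_upwards [coe_toLp_mul u f] with x h1
      rw [LinearMap.mk₂_apply, h1, norm_mul]
      exact mul_le_mul_of_nonneg_right (u.norm_coe_le_norm x) (norm_nonneg _))

lemma mulE_apply (u : ℝ →ᵇ ℝ) (f : HL L) : mulE L u f = (memLp_mul u f).toLp _ := rfl

lemma coe_mulE (u : ℝ →ᵇ ℝ) (f : HL L) : mulE L u f =ᵐ[mu L] fun x => u x * f x := by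
  rw [mulE_apply]
  exact coe_toLp_mul u f

lemma norm_mulE_le (u : ℝ →ᵇ ℝ) (f : HL L) : ‖mulE L u f‖ ≤ ‖u‖ * ‖f‖ := by
  refine Lp.norm_le_mul_norm_of_ae_le_mul ?_
  filter_upwards [coe_mulE u f] with x h1
  rw [h1, norm_mul]
  exact mul_le_mul_of_nonneg_right (u.norm_coe_le_norm x) (norm_nonneg _)

lemma mulE_inc (u v : ℝ →ᵇ ℝ) : mulE L u (inc L v) = inc L (u * v) := by
  apply Lp.ext
  filter_upwards [coe_mulE u (inc L v), coe_inc (L := L) v, coe_inc (L := L) (u * v)]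
    with x h1 h2 h3
  rw [h1, h2, h3]
  rfl

lemma mulE_symm (u : ℝ →ᵇ ℝ) (f g : HL L) : ⟪mulE L u f, g⟫ = ⟪f, mulE L u g⟫ := by
  rw [L2.inner_def, L2.inner_def]
  apply integral_congr_ae
  filter_upwards [coe_mulE u f, coe_mulE u g] with x h1 h2
  rw [h1, h2]
  simp only [RCLike.inner_apply, conj_trivial]
  ring

/-- The primitive with mean value zero. -/
noncomputable def Q (L : ℝ) : HL L →L[ℝ] (ℝ →ᵇ ℝ) :=
  P L - (1 / L) • ((innerSL ℝ (inc L 1)).comp (V L)).smulRight (1 : ℝ →ᵇ ℝ)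

lemma Q_apply (f : HL L) : Q L f = P L f - ((1 / L) * ⟪inc L 1, V L f⟫) • (1 : ℝ →ᵇ ℝ) := by
  simp [Q, smul_smul]

lemma Q_apply_apply (f : HL L) (x : ℝ) :
    Q L f x = P L f x - (1 / L) * ⟪inc L 1, V L f⟫ := by
  rw [Q_apply]
  simp

lemma inner_one_one (hL : 0 ≤ L) : ⟪inc L 1, inc L 1⟫ = L := by
  rw [inner_inc' hL]
  simp

lemma inner_Q (hL : 0 < L) (f : HL L) : ⟪inc L (Q L f), inc L 1⟫ = 0 := by
  rw [Q_apply, map_sub, map_smul, ← V_apply, inner_sub_left, real_inner_smul_left,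
    inner_one_one hL.le, real_inner_comm]
  field_simp
  ring

/-- `G f` is the primitive with mean value zero, in `L²`. -/
noncomputable def G (L : ℝ) : HL L →L[ℝ] HL L := (inc L).comp (Q L)

lemma G_apply (f : HL L) : G L f = inc L (Q L f) := rfl

lemma inner_G_one (hL : 0 < L) (f : HL L) : ⟪G L f, inc L 1⟫ = 0 := inner_Q hL f

lemma inner_G (f : HL L) {g : HL L} (hg : ⟪g, inc L 1⟫ = 0) : ⟪G L f, g⟫ = ⟪V L f, g⟫ := by
  have hg' : ⟪inc L 1, g⟫ = 0 := by rw [real_inner_comm]; exact hg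
  rw [G_apply, Q_apply, map_sub, map_smul, ← V_apply, inner_sub_left, real_inner_smul_left, hg']
  ring

lemma inner_V (hL : 0 < L) (f : HL L) {g : HL L} (hg : ⟪g, inc L 1⟫ = 0) :
    ⟪V L f, g⟫ = -⟪f, V L g⟫ := by
  have h := V_add_adjoint hL f g
  rw [hg, mul_zero] at h
  linarith

lemma inner_G_G (hL : 0 < L) {f g : HL L} (hf : ⟪f, inc L 1⟫ = 0) (hg : ⟪g, inc L 1⟫ = 0) :
    ⟪G L f, g⟫ = -⟪f, G L g⟫ := by
  rw [inner_G f hg, inner_V hL f hg, real_inner_comm (G L g) f, inner_G g hf, real_inner_comm]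

/-- The second derivative. -/
noncomputable def U2 (L : ℝ) : HL L →L[ℝ] (ℝ →ᵇ ℝ) := Q L

/-- The first derivative. -/
noncomputable def U1 (L : ℝ) : HL L →L[ℝ] (ℝ →ᵇ ℝ) := (Q L).comp (G L)

/-- The function with third derivative `f`. -/
noncomputable def U0 (L : ℝ) : HL L →L[ℝ] (ℝ →ᵇ ℝ) := (P L).comp ((G L).comp (G L))

/-- The function with third derivative `f`, in `L²`. -/
noncomputable def KK (L : ℝ) : HL L →L[ℝ] HL L := (inc L).comp (U0 L)

lemma KK_apply (f : HL L) : KK L f = inc L (U0 L f) := rfl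

lemma KK_eq (f : HL L) : KK L f = V L (G L (G L f)) := rfl

lemma U0_eq (f : HL L) : U0 L f = P L (inc L (U1 L f)) := rfl

lemma U1_eq (f : HL L) : U1 L f = Q L (inc L (U2 L f)) := rfl

lemma inc_U1 (f : HL L) : inc L (U1 L f) = G L (G L f) := rfl

lemma inc_U2 (f : HL L) : inc L (U2 L f) = G L f := rfl

lemma inner_KK (hL : 0 < L) (f g : HL L) : ⟪KK L f, g⟫ = -⟪G L (G L f), G L g⟫ := by
  have h := V_add_adjoint hL (G L (G L f)) g
  rw [inner_G_one hL, zero_mul] at h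
  rw [KK_eq, real_inner_comm (G L g) (G L (G L f)), inner_G g (inner_G_one hL _),
    real_inner_comm (G L (G L f)) (V L g)]
  linarith

lemma KK_skew (hL : 0 < L) (f g : HL L) : ⟪KK L f, g⟫ = -⟪f, KK L g⟫ := by
  rw [inner_KK hL, real_inner_comm (KK L g) f, inner_KK hL,
    inner_G_G hL (inner_G_one hL _) (inner_G_one hL _), real_inner_comm (G L f)]

lemma P_zero (f : HL L) {x : ℝ} (hx : x ≤ 0) : P L f x = 0 := by
  rw [P_apply, prim_eq_zero _ hx]

lemma P_right (f : HL L) (hL : 0 ≤ L) {x : ℝ} (hx : L ≤ x) : P L f x = P L f L := by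
  rw [P_apply, P_apply, prim_eq_right _ hL hx]

lemma U0_zero (f : HL L) : U0 L f 0 = 0 := by rw [U0_eq, P_zero _ le_rfl]

lemma U0_L (hL : 0 < L) (f : HL L) : U0 L f L = 0 := by
  rw [U0_eq, ← inner_one hL.le, U1_eq, inner_Q hL]

lemma U1_bc (hL : 0 < L) (f : HL L) : U1 L f 0 = U1 L f L := by
  rw [U1_eq, Q_apply_apply, Q_apply_apply, P_zero _ le_rfl, ← inner_one hL.le, U2, inner_Q hL]

lemma hasDerivAt_U0 (f : HL L) {x : ℝ} (hx : x ∈ Ioo 0 L) :
    HasDerivAt (U0 L f) (U1 L f x) x := hasDerivAt_P hx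

lemma hasDerivAt_U1 (f : HL L) {x : ℝ} (hx : x ∈ Ioo 0 L) :
    HasDerivAt (U1 L f) (U2 L f x) x := by
  have h1 := (hasDerivAt_P (u := U2 L f) hx).sub_const ((1 / L) * ⟪inc L 1, V L (inc L (U2 L f))⟫)
  refine h1.congr_of_eventuallyEq (Eventually.of_forall fun y => ?_)
  rw [U1_eq, Q_apply_apply]

lemma G_injective (hL : 0 < L) {f : HL L} (h : G L f = 0) : f = 0 := by
  have h1 : ∀ x ∈ Icc 0 L, Q L f x = 0 := fun x hx => eq_zero_of_inc hL h hx
  have h2 := h1 0 (left_mem_Icc.2 hL.le)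
  rw [Q_apply_apply, P_zero _ le_rfl, zero_sub, neg_eq_zero] at h2
  apply V_injective hL
  rw [G_apply, Q_apply, h2, zero_smul, sub_zero, ← V_apply] at h
  exact h

lemma KK_injective (hL : 0 < L) : Function.Injective (KK L) := by
  rw [injective_iff_map_eq_zero]
  intro f hf
  rw [KK_eq] at hf
  exact G_injective hL (G_injective hL (V_injective hL hf))

/-- Integration by parts. -/
lemma integral_zero_of_deriv (hL : 0 < L) {u w : ℝ →ᵇ ℝ}
    (h : ∀ x ∈ Ioo 0 L, HasDerivAt u (w x) x) (h0 : u 0 = 0) (h1 : u L = 0) :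
    ∫ t in (0 : ℝ)..L, w t = 0 := by
  rw [intervalIntegral.integral_eq_sub_of_hasDerivAt_of_le hL.le u.continuous.continuousOn h
    (w.continuous.intervalIntegrable _ _), h0, h1, sub_zero]

lemma inner_trilinear (hL : 0 < L) (f g : HL L) :
    2 * ⟪KK L g, mulE L (U1 L g) (KK L f)⟫ + ⟪KK L g, mulE L (U1 L f) (KK L g)⟫ = 0 := by
  rw [KK_apply, KK_apply, mulE_inc, mulE_inc, inner_inc' hL.le, inner_inc' hL.le,
    ← intervalIntegral.integral_const_mul, ← intervalIntegral.integral_add]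
  · have h := integral_zero_of_deriv hL (u := U0 L g * U0 L g * U0 L f)
      (w := 2 * (U0 L g * (U1 L g * U0 L f)) + U0 L g * (U1 L f * U0 L g)) (fun x hx => ?_) ?_ ?_
    · refine Eq.trans ?_ h
      rfl
    · have h1 := ((hasDerivAt_U0 g hx).mul (hasDerivAt_U0 g hx)).mul (hasDerivAt_U0 f hx)
      refine h1.congr_deriv ?_
      simp only [BoundedContinuousFunction.coe_add, BoundedContinuousFunction.coe_mul,
        Pi.add_apply, Pi.mul_apply]
      have : (2 : ℝ →ᵇ ℝ) x = 2 := rfl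
      rw [this]
      ring
    · simp [U0_zero]
    · simp [U0_L hL]
  · apply Continuous.intervalIntegrable
    fun_prop
  · apply Continuous.intervalIntegrable
    fun_prop

lemma abs_integral_le (u v : ℝ →ᵇ ℝ) {x y : ℝ} (hx : x ∈ Icc 0 L) (hy : y ∈ Icc 0 L) :
    |∫ t in y..x, u t * v t| ≤ ‖inc L u‖ * ‖inc L v‖ := by
  have h : ∫ t, |u t * v t| ∂(mu L) = ⟪|inc L u|, |inc L v|⟫ := by
    rw [L2.inner_def]
    apply integral_congr_ae
    filter_upwards [Lp.coeFn_abs (inc L u), Lp.coeFn_abs (inc L v), coe_inc (L := L) u,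
      coe_inc (L := L) v] with t h1 h2 h3 h4
    rw [h1, h2, h3, h4, abs_mul]
    simp [mul_comm]
  have h1 : |∫ t in y..x, u t * v t| ≤ ∫ t, |u t * v t| ∂(mu L) := by
    have h2 := intervalIntegral.norm_integral_le_integral_norm_uIoc (f := fun t => u t * v t)
      (a := y) (b := x) (μ := volume)
    refine h2.trans ?_
    simp only [Real.norm_eq_abs]
    refine setIntegral_mono_set ?_ (Eventually.of_forall fun _ => abs_nonneg _) ?_
    · exact ((u * v).integrable (mu L)).abs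
    · apply Eventually.of_forall
      intro t ht0
      have ht : t ∈ uIoc y x := ht0
      change t ∈ Ioc 0 L
      rw [mem_uIoc] at ht
      rcases ht with ht | ht
      · exact ⟨hy.1.trans_lt ht.1, ht.2.trans hx.2⟩
      · exact ⟨hx.1.trans_lt ht.1, ht.2.trans hy.2⟩
  refine h1.trans ?_
  rw [h]
  refine (real_inner_le_norm _ _).trans ?_
  rw [norm_abs_eq_norm, norm_abs_eq_norm]

lemma norm_sq_G_G (hL : 0 < L) (f : HL L) : ‖G L (G L f)‖ ^ 2 ≤ ‖KK L f‖ * ‖G L f‖ := by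
  have h1 : ‖G L (G L f)‖ ^ 2 = -⟪KK L f, G L f⟫ := by
    rw [inner_KK hL, neg_neg, real_inner_self_eq_norm_sq]
  rw [h1]
  exact (neg_le_abs _).trans (abs_real_inner_le_norm _ _)

lemma U1_sq_le (hL : 0 < L) (f : HL L) {x : ℝ} (hx : x ∈ Icc 0 L) :
    (U1 L f x) ^ 2 ≤ 2 * (‖G L (G L f)‖ * ‖G L f‖) := by
  obtain ⟨y, hy, hy0⟩ := exists_hasDerivAt_eq_zero hL (f := U0 L f) (f' := U1 L f)
    (U0 L f).continuous.continuousOn (by rw [U0_zero, U0_L hL]) (fun x hx => hasDerivAt_U0 f hx)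
  have hyI := Ioo_subset_Icc_self hy
  have h1 : (U1 L f x) ^ 2 = 2 * ∫ t in y..x, U1 L f t * U2 L f t := by
    have hder : ∀ t ∈ Ioo 0 L, HasDerivAt (fun t => (U1 L f t) ^ 2) (2 * (U1 L f t * U2 L f t)) t := by
      intro t ht
      have := (hasDerivAt_U1 f ht).pow 2
      refine this.congr_deriv ?_
      push_cast
      ring
    have hc : Continuous fun t => (U1 L f t) ^ 2 := by fun_prop
    have hi : ∀ a b : ℝ, IntervalIntegrable (fun t => 2 * (U1 L f t * U2 L f t)) volume a b := by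
      intro a b
      apply Continuous.intervalIntegrable
      fun_prop
    rw [← intervalIntegral.integral_const_mul]
    rcases le_total y x with h | h
    · rw [intervalIntegral.integral_eq_sub_of_hasDerivAt_of_le h hc.continuousOn
        (fun t ht => hder t ⟨hyI.1.trans_lt ht.1, ht.2.trans_le hx.2⟩) (hi _ _), hy0]
      ring
    · rw [intervalIntegral.integral_symm,
        intervalIntegral.integral_eq_sub_of_hasDerivAt_of_le h hc.continuousOn
        (fun t ht => hder t ⟨hx.1.trans_lt ht.1, ht.2.trans_le hyI.2⟩) (hi _ _), hy0]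
      ring
  rw [h1]
  have h2 := abs_integral_le (L := L) (U1 L f) (U2 L f) hx hyI
  rw [inc_U1, inc_U2] at h2
  have := le_of_abs_le h2
  linarith

lemma norm_U1_sq_le (hL : 0 < L) (f : HL L) :
    ‖U1 L f‖ ^ 2 ≤ 2 * (‖G L (G L f)‖ * ‖G L f‖) := by
  have h0 : (0 : ℝ) ≤ 2 * (‖G L (G L f)‖ * ‖G L f‖) := by positivity
  have h1 : ‖U1 L f‖ ≤ Real.sqrt (2 * (‖G L (G L f)‖ * ‖G L f‖)) := by
    rw [BoundedContinuousFunction.norm_le (Real.sqrt_nonneg _)]
    intro x
    have key : ∀ y ∈ Icc 0 L, ‖U1 L f y‖ ≤ Real.sqrt (2 * (‖G L (G L f)‖ * ‖G L f‖)) := by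
      intro y hy
      rw [Real.norm_eq_abs]
      exact Real.abs_le_sqrt (U1_sq_le hL f hy)
    rcases le_or_gt x 0 with hx | hx
    · have h2 : U1 L f x = U1 L f 0 := by
        rw [U1_eq, Q_apply_apply, Q_apply_apply, P_zero _ hx, P_zero _ le_rfl]
      rw [h2]
      exact key 0 (left_mem_Icc.2 hL.le)
    · rcases le_or_gt L x with hx' | hx'
      · have h2 : U1 L f x = U1 L f L := by
          rw [U1_eq, Q_apply_apply, Q_apply_apply, P_right _ hL.le hx']
        rw [h2]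
        exact key L (right_mem_Icc.2 hL.le)
      · exact key x ⟨hx.le, hx'.le⟩
  calc ‖U1 L f‖ ^ 2 ≤ Real.sqrt (2 * (‖G L (G L f)‖ * ‖G L f‖)) ^ 2 := by gcongr
    _ = _ := Real.sq_sqrt h0

lemma U1_interp (hL : 0 < L) {η : ℝ} (hη : 0 < η) : ∃ C : ℝ, 0 ≤ C ∧ ∀ f : HL L,
    ‖U1 L f‖ ≤ η * ‖f‖ + C * ‖KK L f‖ := by
  refine ⟨4 * ‖G L‖ ^ 3 / η ^ 3, by positivity, fun f => ?_⟩
  set s := ‖U1 L f‖ with hs
  have hs0 : 0 ≤ s := norm_nonneg _
  have h1 := norm_U1_sq_le hL f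
  have h2 := norm_sq_G_G hL f
  have h3 : ‖G L f‖ ≤ ‖G L‖ * ‖f‖ := (G L).le_opNorm f
  rcases le_or_gt s (η * ‖f‖) with h | h
  · have : 0 ≤ 4 * ‖G L‖ ^ 3 / η ^ 3 * ‖KK L f‖ := by positivity
    linarith
  · have hspos : 0 < s := lt_of_le_of_lt (by positivity) h
    have h4 : s ^ 4 ≤ 4 * ‖G L‖ ^ 3 * ‖KK L f‖ * ‖f‖ ^ 3 := by
      calc s ^ 4 = (s ^ 2) ^ 2 := by ring
        _ ≤ (2 * (‖G L (G L f)‖ * ‖G L f‖)) ^ 2 := by gcongr
        _ = 4 * (‖G L (G L f)‖ ^ 2 * ‖G L f‖ ^ 2) := by ring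
        _ ≤ 4 * ((‖KK L f‖ * ‖G L f‖) * ‖G L f‖ ^ 2) := by gcongr
        _ = 4 * ‖KK L f‖ * ‖G L f‖ ^ 3 := by ring
        _ ≤ 4 * ‖KK L f‖ * (‖G L‖ * ‖f‖) ^ 3 := by gcongr
        _ = _ := by ring
    have h5 : (η * ‖f‖) ^ 3 ≤ s ^ 3 := by gcongr
    have h6 : s ^ 4 * η ^ 3 ≤ (4 * ‖G L‖ ^ 3 * ‖KK L f‖) * s ^ 3 := by
      calc s ^ 4 * η ^ 3 ≤ (4 * ‖G L‖ ^ 3 * ‖KK L f‖ * ‖f‖ ^ 3) * η ^ 3 := by gcongr
        _ = (4 * ‖G L‖ ^ 3 * ‖KK L f‖) * (η * ‖f‖) ^ 3 := by ring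
        _ ≤ _ := by gcongr
    have h7 : s * η ^ 3 ≤ 4 * ‖G L‖ ^ 3 * ‖KK L f‖ := by
      have h8 : 0 < s ^ 3 := by positivity
      have h9 : (s * η ^ 3) * s ^ 3 ≤ (4 * ‖G L‖ ^ 3 * ‖KK L f‖) * s ^ 3 := by
        calc _ = s ^ 4 * η ^ 3 := by ring
          _ ≤ _ := h6
      exact le_of_mul_le_mul_right h9 h8
    have h8 : s ≤ 4 * ‖G L‖ ^ 3 / η ^ 3 * ‖KK L f‖ := by
      rw [div_mul_eq_mul_div, le_div_iff₀ (by positivity)]
      exact h7
    have : 0 ≤ η * ‖f‖ := by positivity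
    linarith

/-- The bilinear map `(u v)_x / 2`. -/
noncomputable def BB (L : ℝ) : HL L →L[ℝ] HL L →L[ℝ] HL L :=
  (1 / 2 : ℝ) • ((mulE L).bilinearComp (U1 L) (KK L) +
    ((mulE L).bilinearComp (U1 L) (KK L)).flip)

lemma BB_apply (f g : HL L) : BB L f g =
    (1 / 2 : ℝ) • (mulE L (U1 L f) (KK L g) + mulE L (U1 L g) (KK L f)) := by
  simp [BB]

lemma BB_self (f : HL L) : BB L f f = mulE L (U1 L f) (KK L f) := by
  rw [BB_apply, ← two_smul ℝ, smul_smul]
  norm_num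

/-- The abstract system for the Korteweg-de Vries equation on `(0, L)`. -/
noncomputable def kdv (hL : 0 < L) : Sys (HL L) where
  K := KK L
  B := BB L
  M := (1 / 2 : ℝ) • (mulE L).comp (U1 L)
  m := fun f => ‖U1 L f‖
  skew := KK_skew hL
  inj := KK_injective hL
  Bsymm := fun f g => by rw [BB_apply, BB_apply, add_comm]
  BK := fun f g => by
    have h := inner_trilinear hL f g
    rw [BB_apply, real_inner_smul_right, inner_add_right]
    simp only [smul_apply, ContinuousLinearMap.comp_apply, real_inner_smul_left]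
    rw [real_inner_comm (KK L g) (mulE L (U1 L f) (KK L g))]
    linarith
  B0 := fun f => by
    have h := inner_trilinear hL f f
    rw [BB_self]
    linarith
  Msymm := fun f x y => by
    simp only [smul_apply, ContinuousLinearMap.comp_apply, real_inner_smul_left,
      real_inner_smul_right, mulE_symm]
  m_nonneg := fun f => norm_nonneg _
  m_add := fun f g => by simpa only [map_add] using norm_add_le (U1 L f) (U1 L g)
  m_neg := fun f => by simp only [map_neg, norm_neg]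
  M_le := fun f x => by
    simp only [smul_apply, ContinuousLinearMap.comp_apply]
    rw [norm_smul]
    have h1 := norm_mulE_le (U1 L f) x
    have h2 : ‖(1 / 2 : ℝ)‖ = 1 / 2 := by norm_num
    have h3 : 0 ≤ ‖U1 L f‖ * ‖x‖ := by positivity
    rw [h2]
    linarith
  B_le := fun f g => by
    rw [BB_apply, norm_smul]
    have h1 := norm_mulE_le (U1 L f) (KK L g)
    have h2 : ‖(1 / 2 : ℝ)‖ = 1 / 2 := by norm_num
    have h3 := norm_mulE_le (U1 L g) (KK L f)
    have h4 := norm_add_le (mulE L (U1 L f) (KK L g)) (mulE L (U1 L g) (KK L f))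
    have h5 : 0 ≤ ‖U1 L f‖ * ‖KK L g‖ := by positivity
    have h6 : 0 ≤ ‖U1 L g‖ * ‖KK L f‖ := by positivity
    rw [h2]
    linarith
  interp := fun η hη => U1_interp hL hη

end Pool.Agent.Helper39.KdV
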