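import Mathlib

/-!
# The space `L²(0, L)`, primitives and multiplication
-/

open MeasureTheory Set Filter
open scoped RealInnerProductSpace Topology BoundedContinuousFunction

namespace Pool.Agent.Helper39.KdV

/-- Lebesgue measure on `(0, L]`. -/
noncomputable abbrev mu (L : ℝ) : Measure ℝ := volume.restrict (Ioc 0 L)

/-- The Hilbert space `L²(0, L)`. -/
abbrev HL (L : ℝ) : Type := Lp ℝ 2 (mu L)

/-- The inclusion of bounded continuous functions in `L²(0, L)`. -/
noncomputable abbrev inc (L : ℝ) : (ℝ →ᵇ ℝ) →L[ℝ] HL L := BoundedContinuousFunction.toLp 2 (mu L) ℝ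

variable {L : ℝ}

lemma integrable_HL (f : HL L) : Integrable f (mu L) := (Lp.memLp f).integrable one_le_two

lemma integrable_bcf (u : ℝ →ᵇ ℝ) : Integrable u (mu L) := u.integrable (mu L)

/-- The primitive of `f`, stopped outside `[0, L]`. -/
noncomputable def prim (L : ℝ) (f : ℝ → ℝ) (x : ℝ) : ℝ := ∫ t in (0 : ℝ)..x, f t ∂(mu L)

lemma prim_eq (f : ℝ → ℝ) {x : ℝ} (hx : x ∈ Icc 0 L) : prim L f x = ∫ t in (0 : ℝ)..x, f t := by
  rw [prim, intervalIntegral.integral_of_le hx.1, intervalIntegral.integral_of_le hx.1, mu,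
    Measure.restrict_restrict measurableSet_Ioc]
  congr 2
  ext t
  simp only [mem_inter_iff, mem_Ioc]
  constructor
  · exact fun h => h.1
  · exact fun h => ⟨h, h.1, h.2.trans hx.2⟩

lemma prim_eq_zero (f : ℝ → ℝ) {x : ℝ} (hx : x ≤ 0) : prim L f x = 0 := by
  rw [prim, intervalIntegral.integral_of_ge hx, mu, Measure.restrict_restrict measurableSet_Ioc]
  have : Ioc x 0 ∩ Ioc 0 L = ∅ := by
    ext t
    simp only [mem_inter_iff, mem_Ioc, mem_empty_iff_false, iff_false]
    rintro ⟨h1, h2⟩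
    exact absurd h2.1 (not_lt.2 h1.2)
  rw [this]
  simp

lemma prim_eq_right (f : ℝ → ℝ) {x : ℝ} (hL : 0 ≤ L) (hx : L ≤ x) : prim L f x = prim L f L := by
  rw [prim, prim, intervalIntegral.integral_of_le (hL.trans hx), intervalIntegral.integral_of_le hL,
    mu, Measure.restrict_restrict measurableSet_Ioc, Measure.restrict_restrict measurableSet_Ioc]
  congr 2
  ext t
  simp only [mem_inter_iff, mem_Ioc]
  constructor
  · exact fun h => ⟨h.2, h.2⟩
  · exact fun h => ⟨⟨h.1.1, h.1.2.trans hx⟩, h.1⟩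

lemma prim_L (f : ℝ → ℝ) (hL : 0 ≤ L) : prim L f L = ∫ t, f t ∂(mu L) := by
  rw [prim_eq f (right_mem_Icc.2 hL), intervalIntegral.integral_of_le hL]

lemma intervalIntegrable_mu {f : ℝ → ℝ} (hf : Integrable f (mu L)) (a b : ℝ) :
    IntervalIntegrable f (mu L) a b := hf.intervalIntegrable

lemma continuous_prim {f : ℝ → ℝ} (hf : Integrable f (mu L)) : Continuous (prim L f) :=
  intervalIntegral.continuous_primitive (fun a b => intervalIntegrable_mu hf a b) 0

lemma norm_prim_le {f : ℝ → ℝ} (hf : Integrable f (mu L)) (x : ℝ) :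
    ‖prim L f x‖ ≤ ∫ t, ‖f t‖ ∂(mu L) := by
  refine (intervalIntegral.norm_integral_le_integral_norm_uIoc).trans ?_
  exact setIntegral_le_integral hf.norm (Eventually.of_forall fun _ => norm_nonneg _)

lemma integral_norm_le (f : HL L) : ∫ t, ‖f t‖ ∂(mu L) ≤ ‖inc L 1‖ * ‖f‖ := by
  have h : ∫ t, ‖f t‖ ∂(mu L) = ⟪inc L 1, |f|⟫ := by
    rw [L2.inner_def]
    apply integral_congr_ae
    filter_upwards [Lp.coeFn_abs f, BoundedContinuousFunction.coeFn_toLp 2 (mu L) ℝ (1 : ℝ →ᵇ ℝ)]
      with t h1 h2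
    rw [h1, h2]
    simp
  rw [h]
  refine (real_inner_le_norm _ _).trans ?_
  rw [norm_abs_eq_norm]

/-- The primitive as a bounded operator into bounded continuous functions. -/
noncomputable def P (L : ℝ) : HL L →L[ℝ] (ℝ →ᵇ ℝ) :=
  LinearMap.mkContinuous
    { toFun := fun f => BoundedContinuousFunction.ofNormedAddCommGroup (prim L f)
        (continuous_prim (integrable_HL f)) (∫ t, ‖f t‖ ∂(mu L)) (norm_prim_le (integrable_HL f))
      map_add' := fun f g => by
        ext x
        simp only [BoundedContinuousFunction.coe_ofNormedAddCommGroup,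
          BoundedContinuousFunction.coe_add, Pi.add_apply, prim]
        rw [← intervalIntegral.integral_add (intervalIntegrable_mu (integrable_HL f) _ _)
          (intervalIntegrable_mu (integrable_HL g) _ _)]
        apply intervalIntegral.integral_congr_ae
        filter_upwards [Lp.coeFn_add f g] with t ht _
        rw [ht, Pi.add_apply]
      map_smul' := fun c f => by
        ext x
        simp only [BoundedContinuousFunction.coe_ofNormedAddCommGroup,
          BoundedContinuousFunction.coe_smul, prim, RingHom.id_apply, smul_eq_mul]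
        rw [← intervalIntegral.integral_const_mul]
        apply intervalIntegral.integral_congr_ae
        filter_upwards [Lp.coeFn_smul c f] with t ht _
        rw [ht, Pi.smul_apply, smul_eq_mul] }
    ‖inc L 1‖ (fun f => by
      have h0 : (0 : ℝ) ≤ ∫ t, ‖f t‖ ∂(mu L) := integral_nonneg fun _ => norm_nonneg _
      exact (BoundedContinuousFunction.norm_ofNormedAddCommGroup_le
        (continuous_prim (integrable_HL f)) h0 (norm_prim_le (integrable_HL f))).trans
        (integral_norm_le f))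

lemma P_apply (f : HL L) (x : ℝ) : P L f x = prim L f x := rfl

lemma prim_congr {f g : ℝ → ℝ} (h : f =ᵐ[mu L] g) (x : ℝ) : prim L f x = prim L g x := by
  apply intervalIntegral.integral_congr_ae
  filter_upwards [h] with t ht _ using ht

lemma coe_inc (u : ℝ →ᵇ ℝ) : inc L u =ᵐ[mu L] u := BoundedContinuousFunction.coeFn_toLp 2 (mu L) ℝ u

lemma P_inc (u : ℝ →ᵇ ℝ) (x : ℝ) : P L (inc L u) x = prim L u x := by
  rw [P_apply]
  exact prim_congr (coe_inc u) x

lemma inner_inc (u v : ℝ →ᵇ ℝ) : ⟪inc L u, inc L v⟫ = ∫ t, u t * v t ∂(mu L) := by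
  rw [L2.inner_def]
  apply integral_congr_ae
  filter_upwards [coe_inc (L := L) u, coe_inc (L := L) v] with t h1 h2
  rw [h1, h2]
  simp [mul_comm]

lemma inner_inc' (hL : 0 ≤ L) (u v : ℝ →ᵇ ℝ) :
    ⟪inc L u, inc L v⟫ = ∫ t in (0 : ℝ)..L, u t * v t := by
  rw [inner_inc, intervalIntegral.integral_of_le hL]

/-- The fundamental theorem of calculus for `P`. -/
lemma hasDerivAt_P {u : ℝ →ᵇ ℝ} {x : ℝ} (hx : x ∈ Ioo 0 L) :
    HasDerivAt (fun y => P L (inc L u) y) (u x) x := by
  have h1 : HasDerivAt (fun y => ∫ t in (0 : ℝ)..y, u t) (u x) x :=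
    intervalIntegral.integral_hasDerivAt_right (u.continuous.intervalIntegrable _ _)
      (u.continuous.stronglyMeasurableAtFilter _ _) u.continuous.continuousAt
  refine h1.congr_of_eventuallyEq ?_
  filter_upwards [Ioo_mem_nhds hx.1 hx.2] with y hy
  rw [P_inc, prim_eq u (Ioo_subset_Icc_self hy)]

/-- Two bounded continuous functions that agree almost everywhere on `(0, L)` agree on
`[0, L]`. -/
lemma eq_zero_of_inc (hL : 0 < L) {u : ℝ →ᵇ ℝ} (h : inc L u = 0) {x : ℝ} (hx : x ∈ Icc 0 L) :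
    u x = 0 := by
  have h1 : ⟪inc L u, inc L u⟫ = 0 := by rw [h, inner_zero_left]
  rw [inner_inc' hL.le] at h1
  have h2 : ∀ y ∈ Ioo 0 L, u y = 0 := by
    by_contra hcon
    push Not at hcon
    obtain ⟨y, hy, hne⟩ := hcon
    have h3 : 0 < ∫ t in (0 : ℝ)..L, u t * u t := by
      apply intervalIntegral.integral_pos hL (by fun_prop)
      · exact fun t _ => mul_self_nonneg _
      · exact ⟨y, Ioo_subset_Icc_self hy, mul_self_pos.2 hne⟩
    exact h3.ne' h1
  have h3 : Icc 0 L ⊆ closure (Ioo 0 L) := by rw [closure_Ioo hL.ne]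
  have h4 : IsClosed {y : ℝ | u y = 0} := isClosed_eq u.continuous continuous_const
  exact closure_minimal h2 h4 (h3 hx)

/-- The integration operator on `L²(0, L)`. -/
noncomputable def V (L : ℝ) : HL L →L[ℝ] HL L := (inc L).comp (P L)

lemma V_apply (f : HL L) : V L f = inc L (P L f) := rfl

lemma inner_one (hL : 0 ≤ L) (f : HL L) : ⟪f, inc L 1⟫ = P L f L := by
  rw [P_apply, prim_L _ hL, L2.inner_def]
  apply integral_congr_ae
  filter_upwards [coe_inc (L := L) (1 : ℝ →ᵇ ℝ)] with t ht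
  rw [ht]
  simp

lemma V_add_adjoint (hL : 0 < L) (f g : HL L) :
    ⟪V L f, g⟫ + ⟪f, V L g⟫ = ⟪f, inc L 1⟫ * ⟪g, inc L 1⟫ := by
  have hd : DenseRange (inc L) :=
    BoundedContinuousFunction.toLp_denseRange ℝ (mu L) ℝ (by simp)
  have key : ∀ u v : ℝ →ᵇ ℝ, ⟪V L (inc L u), inc L v⟫ + ⟪inc L u, V L (inc L v)⟫ =
      ⟪inc L u, inc L 1⟫ * ⟪inc L v, inc L 1⟫ := by
    intro u v
    rw [V_apply, V_apply, inner_inc' hL.le, inner_inc' hL.le, inner_one hL.le, inner_one hL.le,
      ← intervalIntegral.integral_add]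
    · have h1 := intervalIntegral.integral_eq_sub_of_hasDerivAt_of_le hL.le
        (f := fun x => P L (inc L u) x * P L (inc L v) x)
        (f' := fun x => P L (inc L u) x * v x + u x * P L (inc L v) x)
        (by fun_prop) (fun x hx => by
          have := (hasDerivAt_P (u := u) hx).mul (hasDerivAt_P (u := v) hx)
          refine this.congr_deriv ?_
          ring)
        (by
          apply Continuous.intervalIntegrable
          fun_prop)
      rw [h1]
      rw [P_inc, P_inc, P_inc, P_inc, prim_eq_zero _ le_rfl, prim_eq_zero _ le_rfl]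
      ring
    · apply Continuous.intervalIntegrable
      fun_prop
    · apply Continuous.intervalIntegrable
      fun_prop
  refine hd.induction_on₂ (p := fun f g => ⟪V L f, g⟫ + ⟪f, V L g⟫ =
    ⟪f, inc L 1⟫ * ⟪g, inc L 1⟫) ?_ key f g
  apply isClosed_eq
  · fun_prop
  · fun_prop

lemma V_injective (hL : 0 < L) {f : HL L} (h : V L f = 0) : f = 0 := by
  have h1 : ∀ x ∈ Icc 0 L, P L f x = 0 := fun x hx => eq_zero_of_inc hL h hx
  have hint : IntervalIntegrable f volume 0 L := by
    rw [intervalIntegrable_iff_integrableOn_Ioc_of_le hL.le]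
    exact integrable_HL f
  have h2 := hint.ae_hasDerivAt_integral
  rw [Lp.eq_zero_iff_ae_eq_zero]
  have h3 : ∀ᵐ x ∂(mu L), x ∈ Ioc 0 L := ae_restrict_mem measurableSet_Ioc
  have h4 : ∀ᵐ x ∂(mu L), x ≠ L := by
    have : ∀ᵐ x ∂(volume : Measure ℝ), x ≠ L := by simp [ae_iff, measure_singleton]
    exact ae_restrict_of_ae this
  filter_upwards [ae_restrict_of_ae h2, h3, h4] with x hx h3 h4
  have hxI : x ∈ Ioo 0 L := ⟨h3.1, lt_of_le_of_ne h3.2 h4⟩
  have h5 := hx (by rw [uIcc_of_le hL.le]; exact Ioo_subset_Icc_self hxI) 0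
    (by rw [uIcc_of_le hL.le]; exact left_mem_Icc.2 hL.le)
  have h6 : HasDerivAt (fun x => ∫ t in (0 : ℝ)..x, f t) 0 x := by
    refine (hasDerivAt_const x (0 : ℝ)).congr_of_eventuallyEq ?_
    filter_upwards [Ioo_mem_nhds hxI.1 hxI.2] with y hy
    rw [← prim_eq _ (Ioo_subset_Icc_self hy), ← P_apply, h1 y (Ioo_subset_Icc_self hy)]
  simpa using h5.unique h6

end Pool.Agent.Helper39.KdV
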