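import Pool.Agent.Helper39.KdV.Exist

/-!
# Uniqueness and strong solutions
-/

open scoped RealInnerProductSpace Topology
open Set Filter

namespace Pool.Agent.Helper39.KdV

variable {H : Type*} [NormedAddCommGroup H] [InnerProductSpace ℝ H]

namespace Sys

variable {S : Sys H}

lemma norm_vel_le {F : ℝ} {f : H} (hf : ‖f‖ ≤ F) :
    ‖S.vel f‖ ≤ F + 2 * ‖S.K‖ * S.c * F ^ 2 := by
  have hc := S.one_le_c
  rw [vel, norm_neg]
  refine (norm_add_le _ _).trans (add_le_add hf ((S.norm_B_self_le f).trans ?_))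
  gcongr

lemma inner_vel_sub (f g : H) : ⟪S.vel f - S.vel g, S.K f - S.K g⟫ =
    -((1 / 2) * ⟪S.M (f + g) (S.K f - S.K g), S.K f - S.K g⟫) := by
  have e : S.vel f - S.vel g = -(f - g) - S.B (f + g) (f - g) := by
    rw [← S.B_sub_sub, vel, vel]; abel
  rw [e, ← map_sub, inner_sub_left, inner_neg_left, S.inner_self_K,
    real_inner_comm (S.K (f - g)) (S.B (f + g) (f - g)), S.BK]
  ring

lemma abs_inner_vel_sub_le {F : ℝ} {f g : H} (hf : ‖f‖ ≤ F) (hg : ‖g‖ ≤ F) :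
    |2 * ⟪S.vel f - S.vel g, S.K f - S.K g⟫| ≤ 2 * S.c * F * ‖S.K f - S.K g‖ ^ 2 := by
  have hc := S.one_le_c
  rw [inner_vel_sub]
  have e : 2 * -((1 / 2) * ⟪S.M (f + g) (S.K f - S.K g), S.K f - S.K g⟫) =
      -⟪S.M (f + g) (S.K f - S.K g), S.K f - S.K g⟫ := by ring
  rw [e, abs_neg]
  refine (abs_real_inner_le_norm _ _).trans ?_
  have h5 : S.m (f + g) ≤ 2 * S.c * F := by
    refine (S.m_add f g).trans ?_
    have := S.m_le f
    have := S.m_le g
    nlinarith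
  calc ‖S.M (f + g) (S.K f - S.K g)‖ * ‖S.K f - S.K g‖
      ≤ (S.m (f + g) * ‖S.K f - S.K g‖) * ‖S.K f - S.K g‖ := by gcongr; exact S.M_le _ _
    _ ≤ (2 * S.c * F * ‖S.K f - S.K g‖) * ‖S.K f - S.K g‖ := by gcongr
    _ = _ := by ring

/-- Stability of weak solutions in the weak norm. -/
lemma IsWeak.stability {T F : ℝ} (hF : 0 < F) {f g : ℝ → H} (hf : S.IsWeak T F f)
    (hg : S.IsWeak T F g) : ∀ t ∈ Icc 0 T, ‖S.K (f t) - S.K (g t)‖ ^ 2 ≤
      ‖S.K (f 0) - S.K (g 0)‖ ^ 2 * Real.exp (2 * S.c * F * t) := by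
  have hc := S.one_le_c
  have hder : ∀ t ∈ Icc 0 T, HasDerivWithinAt (fun s => ‖S.K (f s) - S.K (g s)‖ ^ 2)
      (2 * ⟪S.vel (f t) - S.vel (g t), S.K (f t) - S.K (g t)⟫) (Icc 0 T) t := by
    intro t ht
    refine weak_norm_sq (w := fun s => S.K (f s) - S.K (g s))
      (h := fun s => S.vel (f s) - S.vel (g s))
      (C := 2 * (F + 2 * ‖S.K‖ * S.c * F ^ 2)) (by positivity) (fun y t ht => ?_) (fun t ht => ?_) ht
    · simp only [inner_sub_left]
      exact (hf.deriv y t ht).sub (hg.deriv y t ht)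
    · refine (norm_sub_le _ _).trans ?_
      have h1 := norm_vel_le (S := S) (hf.bdd t ht)
      have h2 := norm_vel_le (S := S) (hg.bdd t ht)
      linarith
  intro t ht
  have h1 := gron (C := 2 * S.c * F) (κ := 0) (by positivity) le_rfl hder (fun t ht => by
    rw [add_zero]
    exact (le_abs_self _).trans (abs_inner_vel_sub_le (hf.bdd t ht) (hg.bdd t ht))) t ht
  rw [zero_div, add_zero] at h1
  exact h1

lemma IsWeak.unique {T F : ℝ} (hF : 0 < F) {f g : ℝ → H} (hf : S.IsWeak T F f)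
    (hg : S.IsWeak T F g) (h0 : f 0 = g 0) : ∀ t ∈ Icc 0 T, f t = g t := by
  intro t ht
  have h1 := hf.stability hF hg t ht
  rw [h0, sub_self, norm_zero] at h1
  have h2 : ‖S.K (f t) - S.K (g t)‖ ^ 2 ≤ 0 := by linarith
  have h3 : ‖S.K (f t) - S.K (g t)‖ = 0 := by
    have := sq_nonneg ‖S.K (f t) - S.K (g t)‖
    exact pow_eq_zero_iff two_ne_zero |>.1 (le_antisymm h2 this)
  exact S.inj (sub_eq_zero.1 (norm_eq_zero.1 h3))

lemma IsWeak.mono {T T' F F' : ℝ} {f : ℝ → H} (hf : S.IsWeak T F f) (hT : T' ≤ T) (hF : F ≤ F') :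
    S.IsWeak T' F' f where
  bdd := fun t ht => (hf.bdd t ⟨ht.1, ht.2.trans hT⟩).trans hF
  deriv := fun y t ht => (hf.deriv y t ⟨ht.1, ht.2.trans hT⟩).mono (Icc_subset_Icc_right hT)

lemma IsWeak.shift {T F : ℝ} {f : ℝ → H} (hf : S.IsWeak T F f) {s : ℝ} (hs : s ∈ Icc 0 T) :
    S.IsWeak (T - s) F (fun τ => f (s + τ)) where
  bdd := fun t ht => hf.bdd _ ⟨by linarith [hs.1, ht.1], by linarith [ht.2]⟩
  deriv := fun y t ht => by
    have h1 := hf.deriv y (s + t) ⟨by linarith [hs.1, ht.1], by linarith [ht.2]⟩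
    have h2 : HasDerivWithinAt (fun τ : ℝ => s + τ) 1 (Icc 0 (T - s)) t := by
      simpa using (hasDerivWithinAt_id t (Icc 0 (T - s))).const_add s
    have h3 := h1.comp t h2 (fun τ hτ => ⟨by linarith [hs.1, hτ.1], by linarith [hτ.2]⟩)
    simpa [Function.comp_def] using h3

lemma rev_vel_neg (f : H) : S.rev.vel (-f) = -S.vel f := by
  simp [vel, add_comm]

lemma IsWeak.reverse {T F : ℝ} {f : ℝ → H} (hf : S.IsWeak T F f) {s : ℝ} (hs : s ∈ Icc 0 T) :
    S.rev.IsWeak s F (fun τ => -f (s - τ)) where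
  bdd := fun t ht => by
    rw [norm_neg]
    exact hf.bdd _ ⟨by linarith [ht.2], by linarith [ht.1, hs.2]⟩
  deriv := fun y t ht => by
    have h1 := hf.deriv y (s - t) ⟨by linarith [ht.2], by linarith [ht.1, hs.2]⟩
    have h2 : HasDerivWithinAt (fun τ : ℝ => s - τ) (-1) (Icc 0 s) t := by
      simpa using (hasDerivWithinAt_id t (Icc 0 s)).const_sub s
    have h3 := h1.comp t h2 (fun τ hτ => ⟨by linarith [hτ.2], by linarith [hτ.1, hs.2]⟩)
    rw [rev_vel_neg]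
    simpa [Function.comp_def] using h3

lemma IsWeak.continuousOn_K {T F : ℝ} (hF : 0 < F) {f : ℝ → H} (hf : S.IsWeak T F f) :
    ContinuousOn (fun t => S.K (f t)) (Icc 0 T) := by
  have hc := S.one_le_c
  intro t ht
  rw [Metric.continuousWithinAt_iff]
  intro η hη
  set C := F + 2 * ‖S.K‖ * S.c * F ^ 2 with hC
  have hC0 : 0 < C := by positivity
  refine ⟨η / (C + 1), by positivity, fun {τ} hτ hτt => ?_⟩
  rw [dist_eq_norm] at hτt ⊢
  have h1 := weak_lipschitz (w := fun s => S.K (f s)) (h := fun s => S.vel (f s)) (convex_Icc 0 T)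
    hC0.le (fun y t ht => hf.deriv y t ht) (fun t ht => norm_vel_le (hf.bdd t ht)) ht hτ
  refine h1.trans_lt ?_
  rw [lt_div_iff₀ (by positivity), Real.norm_eq_abs] at hτt
  nlinarith [abs_nonneg (τ - t)]

section
variable [CompleteSpace H]

/-- Control of the velocity to the right of an arbitrary time. -/
lemma exists_right_control (S : Sys H) {F : ℝ} (hF : 0 < F) : ∃ T' C : ℝ, 0 < T' ∧ 0 < C ∧
    ∀ (T : ℝ) (f : ℝ → H), S.IsWeak T F f → ∀ s ∈ Icc 0 T, ∀ τ, 0 ≤ τ → τ ≤ T' → s + τ ≤ T →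
      ‖S.vel (f (s + τ))‖ ^ 2 ≤ ‖S.vel (f s)‖ ^ 2 * Real.exp (C * τ) := by
  have hc := S.one_le_c
  obtain ⟨T', F', hT', hF', hFF', hex⟩ := S.exists_weak hF.le
  refine ⟨T', 2 * S.c * F', hT', by positivity, fun T f hf s hs τ hτ0 hτ hsτ => ?_⟩
  obtain ⟨g, hg0, hg, hgv⟩ := hex (f s) (hf.bdd s hs)
  have h1 : S.IsWeak τ F' (fun τ => f (s + τ)) := (hf.shift hs).mono (by linarith) hFF'
  have h2 : S.IsWeak τ F' g := hg.mono hτ le_rfl
  have h3 : f (s + τ) = g τ := h1.unique hF' h2 (by simp [hg0]) τ ⟨hτ0, le_rfl⟩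
  rw [h3]
  exact hgv τ ⟨hτ0, hτ⟩

/-- The velocity of a weak solution is strongly continuous. -/
lemma IsWeak.continuousOn_vel {T F : ℝ} (hF : 0 < F) {f : ℝ → H} (hf : S.IsWeak T F f) :
    ContinuousOn (fun t => S.vel (f t)) (Icc 0 T) := by
  obtain ⟨T₁, C₁, hT₁, hC₁, h₁⟩ := S.exists_right_control hF
  obtain ⟨T₂, C₂, hT₂, hC₂, h₂⟩ := S.rev.exists_right_control hF
  set C := max C₁ C₂ with hC
  have hC0 : 0 < C := lt_max_of_lt_left hC₁
  -- two-sided control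
  have key : ∀ s ∈ Icc 0 T, ∀ t ∈ Icc 0 T, |t - s| ≤ min T₁ T₂ →
      ‖S.vel (f t)‖ ^ 2 ≤ ‖S.vel (f s)‖ ^ 2 * Real.exp (C * |t - s|) := by
    intro s hs t ht hst
    rcases le_total s t with h | h
    · rw [abs_of_nonneg (by linarith)] at hst ⊢
      have h3 := h₁ T f hf s hs (t - s) (by linarith) (hst.trans (min_le_left _ _)) (by linarith [ht.2])
      rw [add_sub_cancel] at h3
      refine h3.trans ?_
      have : C₁ ≤ C := le_max_left _ _
      have h0 : 0 ≤ t - s := by linarith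
      gcongr
    · rw [abs_of_nonpos (by linarith)] at hst ⊢
      have h3 := h₂ s _ (hf.reverse hs) 0 ⟨le_rfl, hs.1⟩ (s - t) (by linarith)
        ((by linarith : s - t ≤ min T₁ T₂).trans (min_le_right _ _)) (by linarith [ht.1])
      rw [zero_add, sub_zero, rev_vel_neg, rev_vel_neg, norm_neg, norm_neg, sub_sub_cancel] at h3
      refine h3.trans ?_
      have : C₂ ≤ C := le_max_right _ _
      have e : -(t - s) = s - t := by ring
      have h0 : 0 ≤ s - t := by linarith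
      rw [e]
      gcongr
  intro s hs
  rw [Metric.continuousWithinAt_iff]
  intro η hη
  set v := S.vel (f s) with hv
  have hw := S.continuousOn_inner_vel hF.le hf.bdd (hf.continuousOn_K hF) v s hs
  obtain ⟨δ₁, hδ₁, hw'⟩ := Metric.continuousWithinAt_iff.1 hw (η ^ 2 / 8) (by positivity)
  have hexp : ContinuousAt (fun x : ℝ => ‖v‖ ^ 2 * Real.exp (C * x)) 0 := by fun_prop
  obtain ⟨δ₂, hδ₂, he⟩ := Metric.continuousAt_iff.1 hexp (η ^ 2 / 4) (by positivity)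
  refine ⟨min (min δ₁ δ₂) (min T₁ T₂), by positivity, fun {t} ht hts => ?_⟩
  have hts1 : dist t s < δ₁ := hts.trans_le ((min_le_left _ _).trans (min_le_left _ _))
  have hts2 : dist t s < δ₂ := hts.trans_le ((min_le_left _ _).trans (min_le_right _ _))
  have hts3 : dist t s ≤ min T₁ T₂ := (hts.trans_le (min_le_right _ _)).le
  have h4 := hw' ht hts1
  rw [Real.dist_eq] at h4 hts3
  have h5 := key s hs t ht hts3
  have h6 := @he |t - s| (by rw [Real.dist_eq, sub_zero, abs_abs, ← Real.dist_eq]; exact hts2)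
  rw [Real.dist_eq, mul_zero, Real.exp_zero, mul_one] at h6
  have h7 := (abs_lt.1 h6).2
  have h8 : ‖S.vel (f t) - v‖ ^ 2 = ‖S.vel (f t)‖ ^ 2 - ‖v‖ ^ 2 -
      2 * (⟪S.vel (f t), v⟫ - ⟪v, v⟫) := by
    rw [@norm_sub_sq_real, real_inner_self_eq_norm_sq]; ring
  have h9 := (abs_lt.1 h4).1
  rw [dist_eq_norm]
  have h10 : ‖S.vel (f t) - v‖ ^ 2 < η ^ 2 := by
    rw [h8]
    have : ‖S.vel (f t)‖ ^ 2 ≤ ‖v‖ ^ 2 * Real.exp (C * |t - s|) := h5
    nlinarith
  exact lt_of_pow_lt_pow_left₀ 2 hη.le h10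

/-- Strong solutions. -/
structure IsSol (S : Sys H) (T : ℝ) (f : ℝ → H) : Prop where
  cont : ContinuousOn f (Icc 0 T)
  deriv : ∀ t ∈ Icc 0 T, HasDerivWithinAt (fun s => S.K (f s)) (S.vel (f t)) (Icc 0 T) t

/-- Weak solutions are strong solutions. -/
lemma IsWeak.isSol {T F : ℝ} (hF : 0 < F) {f : ℝ → H} (hf : S.IsWeak T F f) : S.IsSol T f := by
  have hv := hf.continuousOn_vel hF
  refine ⟨?_, fun t ht => ?_⟩
  · have h1 := S.continuousOn_B hF.le hf.bdd (hf.continuousOn_K hF)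
    refine (hv.neg.sub h1).congr fun t _ => ?_
    simp only [vel, Pi.sub_apply, Pi.neg_apply]
    abel
  · refine hasDerivWithinAt_of_approx fun η hη => ?_
    obtain ⟨δ, hδ, h⟩ := Metric.continuousWithinAt_iff.1 (hv t ht) η hη
    refine ⟨δ, hδ, fun τ hτ hτt => ?_⟩
    have hconv : Convex ℝ (Icc 0 T ∩ Metric.ball t δ) := (convex_Icc 0 T).inter (convex_ball t δ)
    have h1 := weak_lipschitz (w := fun s => S.K (f s) - s • S.vel (f t))
      (h := fun s => S.vel (f s) - S.vel (f t)) hconv hη.le (fun y σ hσ => ?_) (fun σ hσ => ?_)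
      (⟨ht, Metric.mem_ball_self hδ⟩ : t ∈ Icc 0 T ∩ Metric.ball t δ)
      (⟨hτ, by rw [Metric.mem_ball, Real.dist_eq]; exact hτt⟩ : τ ∈ Icc 0 T ∩ Metric.ball t δ)
    · have e : S.K (f τ) - τ • S.vel (f t) - (S.K (f t) - t • S.vel (f t)) =
          S.K (f τ) - S.K (f t) - (τ - t) • S.vel (f t) := by
        rw [sub_smul]; abel
      rw [e] at h1
      exact h1
    · simp only [inner_sub_left, real_inner_smul_left]
      have h2 := (hf.deriv y σ hσ.1).mono (inter_subset_left : Icc 0 T ∩ Metric.ball t δ ⊆ Icc 0 T)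
      have h3 : HasDerivWithinAt (fun s : ℝ => s * ⟪S.vel (f t), y⟫) ⟪S.vel (f t), y⟫
          (Icc 0 T ∩ Metric.ball t δ) σ := by
        simpa using (hasDerivWithinAt_id σ (Icc 0 T ∩ Metric.ball t δ)).mul_const ⟪S.vel (f t), y⟫
      exact h2.sub h3
    · have h2 := h hσ.1 (by simpa using hσ.2)
      rw [dist_eq_norm] at h2
      exact h2.le

omit [CompleteSpace H] in
lemma IsSol.exists_bdd {T : ℝ} {f : ℝ → H} (hf : S.IsSol T f) :
    ∃ F : ℝ, 0 < F ∧ ∀ t ∈ Icc 0 T, ‖f t‖ ≤ F := by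
  obtain ⟨C, hC⟩ := isCompact_Icc.exists_bound_of_continuousOn hf.cont
  exact ⟨max C 1, by positivity, fun t ht => (hC t ht).trans (le_max_left _ _)⟩

omit [CompleteSpace H] in
lemma IsSol.isWeak {T F : ℝ} {f : ℝ → H} (hf : S.IsSol T f) (hb : ∀ t ∈ Icc 0 T, ‖f t‖ ≤ F) :
    S.IsWeak T F f where
  bdd := hb
  deriv := fun y t ht => by
    have h1 := (hf.deriv t ht).inner ℝ (hasDerivWithinAt_const t (Icc 0 T) y)
    simpa using h1

omit [CompleteSpace H] in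
/-- Uniqueness of strong solutions. -/
theorem IsSol.unique {T : ℝ} {f g : ℝ → H} (hf : S.IsSol T f) (hg : S.IsSol T g) (h0 : f 0 = g 0) :
    ∀ t ∈ Icc 0 T, f t = g t := by
  obtain ⟨F₁, hF₁, h₁⟩ := hf.exists_bdd
  obtain ⟨F₂, hF₂, h₂⟩ := hg.exists_bdd
  exact (hf.isWeak (F := max F₁ F₂) fun t ht => (h₁ t ht).trans (le_max_left _ _)).unique
    (by positivity) (hg.isWeak fun t ht => (h₂ t ht).trans (le_max_right _ _)) h0

/-- Local existence of strong solutions, with uniform existence time and bounds. -/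
theorem exists_sol (S : Sys H) {R : ℝ} (hR : 0 ≤ R) : ∃ T F : ℝ, 0 < T ∧ 0 < F ∧
    ∀ f₀ : H, ‖f₀‖ ≤ R → ∃ f : ℝ → H, f 0 = f₀ ∧ S.IsSol T f ∧ ∀ t ∈ Icc 0 T, ‖f t‖ ≤ F := by
  obtain ⟨T, F, hT, hF, -, h⟩ := S.exists_weak hR
  refine ⟨T, F, hT, hF, fun f₀ hf₀ => ?_⟩
  obtain ⟨f, h0, hf, -⟩ := h f₀ hf₀
  exact ⟨f, h0, hf.isSol hF, hf.bdd⟩

end

end Sys

end Pool.Agent.Helper39.KdV
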