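import Pool.Agent.Helper39.KdV.Cauchy

/-!
# Weak solutions
-/

open scoped RealInnerProductSpace Topology
open Set Filter

namespace Pool.Agent.Helper39.KdV

variable {H : Type*} [NormedAddCommGroup H] [InnerProductSpace ℝ H]

lemma hasDerivWithinAt_of_approx {E : Type*} [NormedAddCommGroup E] [NormedSpace ℝ E]
    {u : ℝ → E} {φ : E} {s : Set ℝ} {t : ℝ}
    (h : ∀ η : ℝ, 0 < η → ∃ δ : ℝ, 0 < δ ∧ ∀ τ ∈ s, |τ - t| < δ →
      ‖u τ - u t - (τ - t) • φ‖ ≤ η * |τ - t|) : HasDerivWithinAt u φ s t := by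
  rw [hasDerivWithinAt_iff_isLittleO, Asymptotics.isLittleO_iff]
  intro η hη
  obtain ⟨δ, hδ, hh⟩ := h η hη
  filter_upwards [inter_mem_nhdsWithin s (Metric.ball_mem_nhds t hδ)] with τ hτ
  rw [Real.norm_eq_abs]
  refine hh τ hτ.1 ?_
  have := hτ.2
  rwa [Metric.mem_ball, Real.dist_eq] at this

/-- Limits of differentiable functions with uniformly convergent derivatives. -/
lemma hasDerivWithinAt_limit {E : Type*} [NormedAddCommGroup E] [NormedSpace ℝ E]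
    {un φn : ℕ → ℝ → E} {u φ : ℝ → E} {T : ℝ}
    (hd : ∀ n, ∀ t ∈ Icc 0 T, HasDerivWithinAt (un n) (φn n t) (Icc 0 T) t)
    (hu : ∀ t ∈ Icc 0 T, Tendsto (fun n => un n t) atTop (𝓝 (u t)))
    (hφ : ∀ η : ℝ, 0 < η → ∃ N, ∀ n ≥ N, ∀ t ∈ Icc 0 T, ‖φn n t - φ t‖ ≤ η)
    (hc : ContinuousOn φ (Icc 0 T)) :
    ∀ t ∈ Icc 0 T, HasDerivWithinAt u (φ t) (Icc 0 T) t := by
  intro t ht
  refine hasDerivWithinAt_of_approx fun η hη => ?_
  obtain ⟨δ, hδ, hcδ⟩ := Metric.continuousWithinAt_iff.1 (hc t ht) (η / 2) (half_pos hη)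
  obtain ⟨N, hN⟩ := hφ (η / 2) (half_pos hη)
  refine ⟨δ, hδ, fun τ hτ hτδ => ?_⟩
  have hconv : Convex ℝ (Icc 0 T ∩ Metric.ball t δ) := (convex_Icc 0 T).inter (convex_ball t δ)
  have key : ∀ n ≥ N, ‖un n τ - un n t - (τ - t) • φ t‖ ≤ η * |τ - t| := by
    intro n hn
    have h1 : ∀ σ ∈ Icc 0 T ∩ Metric.ball t δ, HasDerivWithinAt (fun σ => un n σ - σ • φ t)
        (φn n σ - φ t) (Icc 0 T ∩ Metric.ball t δ) σ := by
      intro σ hσ
      have h2 := (hd n σ hσ.1).mono (inter_subset_left : Icc 0 T ∩ Metric.ball t δ ⊆ Icc 0 T)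
      have h3 : HasDerivWithinAt (fun σ : ℝ => σ • φ t) (φ t) (Icc 0 T ∩ Metric.ball t δ) σ := by
        simpa using (hasDerivWithinAt_id σ (Icc 0 T ∩ Metric.ball t δ)).smul_const (φ t)
      exact h2.sub h3
    have h2 : ∀ σ ∈ Icc 0 T ∩ Metric.ball t δ, ‖φn n σ - φ t‖ ≤ η := by
      intro σ hσ
      have h3 := hN n hn σ hσ.1
      have h4 := hcδ hσ.1 (by simpa using hσ.2)
      rw [dist_eq_norm] at h4
      calc ‖φn n σ - φ t‖ = ‖(φn n σ - φ σ) + (φ σ - φ t)‖ := by congr 1; abel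
        _ ≤ _ := norm_add_le _ _
        _ ≤ η := by linarith
    have h3 := hconv.norm_image_sub_le_of_norm_hasDerivWithin_le h1 h2
      ⟨ht, Metric.mem_ball_self hδ⟩
      (⟨hτ, by rw [Metric.mem_ball, Real.dist_eq]; exact hτδ⟩ : τ ∈ Icc 0 T ∩ Metric.ball t δ)
    rw [Real.norm_eq_abs] at h3
    have e : un n τ - τ • φ t - (un n t - t • φ t) = un n τ - un n t - (τ - t) • φ t := by
      rw [sub_smul]; abel
    rw [e] at h3
    exact h3
  have hlim : Tendsto (fun n => ‖un n τ - un n t - (τ - t) • φ t‖) atTop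
      (𝓝 ‖u τ - u t - (τ - t) • φ t‖) :=
    (((hu τ hτ).sub (hu t ht)).sub_const _).norm
  exact le_of_tendsto hlim (eventually_atTop.2 ⟨N, key⟩)

/-- If `w` is weakly differentiable with bounded derivative `h`, it is Lipschitz. -/
lemma weak_lipschitz {w h : ℝ → H} {s : Set ℝ} (hs : Convex ℝ s) {C : ℝ} (hC : 0 ≤ C)
    (hd : ∀ y, ∀ t ∈ s, HasDerivWithinAt (fun s => ⟪w s, y⟫) ⟪h t, y⟫ s t)
    (hb : ∀ t ∈ s, ‖h t‖ ≤ C) {t τ : ℝ} (ht : t ∈ s) (hτ : τ ∈ s) :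
    ‖w τ - w t‖ ≤ C * |τ - t| := by
  set y := w τ - w t with hy
  have h1 := hs.norm_image_sub_le_of_norm_hasDerivWithin_le (C := C * ‖y‖) (hd y)
    (fun σ hσ => (norm_inner_le_norm (h σ) y).trans
      (mul_le_mul_of_nonneg_right (hb σ hσ) (norm_nonneg _))) ht hτ
  rw [← inner_sub_left, ← hy, real_inner_self_eq_norm_sq, Real.norm_of_nonneg (sq_nonneg _),
    Real.norm_eq_abs] at h1
  by_cases hy0 : ‖y‖ = 0
  · rw [hy0]; positivity
  · have hpos : 0 < ‖y‖ := lt_of_le_of_ne (norm_nonneg _) (Ne.symm hy0)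
    nlinarith

/-- The square of the norm of a weakly differentiable function. -/
lemma weak_norm_sq {w h : ℝ → H} {T : ℝ} {C : ℝ} (hC : 0 ≤ C)
    (hd : ∀ y, ∀ t ∈ Icc 0 T, HasDerivWithinAt (fun s => ⟪w s, y⟫) ⟪h t, y⟫ (Icc 0 T) t)
    (hb : ∀ t ∈ Icc 0 T, ‖h t‖ ≤ C) {t : ℝ} (ht : t ∈ Icc 0 T) :
    HasDerivWithinAt (fun s => ‖w s‖ ^ 2) (2 * ⟪h t, w t⟫) (Icc 0 T) t := by
  have h1 : HasDerivWithinAt (fun s => ‖w s - w t‖ ^ 2) 0 (Icc 0 T) t := by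
    refine hasDerivWithinAt_of_approx fun η hη => ⟨η / (C ^ 2 + 1), by positivity, fun τ hτ hτδ => ?_⟩
    have h2 := weak_lipschitz (convex_Icc 0 T) hC hd hb ht hτ
    simp only [sub_self, norm_zero, smul_zero]
    rw [sub_zero]
    norm_num
    have h3 : ‖w τ - w t‖ ^ 2 ≤ (C * |τ - t|) ^ 2 := by gcongr
    have h4 : |τ - t| * (C ^ 2 + 1) ≤ η := by
      rw [lt_div_iff₀ (by positivity)] at hτδ
      exact hτδ.le
    calc ‖w τ - w t‖ ^ 2 ≤ (C * |τ - t|) ^ 2 := h3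
      _ = (C ^ 2 * |τ - t|) * |τ - t| := by ring
      _ ≤ (|τ - t| * (C ^ 2 + 1)) * |τ - t| := by
          apply mul_le_mul_of_nonneg_right _ (abs_nonneg _)
          nlinarith [abs_nonneg (τ - t)]
      _ ≤ η * |τ - t| := mul_le_mul_of_nonneg_right h4 (abs_nonneg _)
  have h2 : HasDerivWithinAt (fun s => 2 * ⟪w s, w t⟫) (2 * ⟪h t, w t⟫) (Icc 0 T) t :=
    (hd (w t) t ht).const_mul 2
  have h3 := (h1.add h2).sub_const (‖w t‖ ^ 2)
  rw [zero_add] at h3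
  refine h3.congr (fun s _ => ?_) ?_
  · rw [Pi.add_apply, @norm_sub_sq_real]; ring
  · rw [Pi.add_apply, @norm_sub_sq_real]; ring

namespace Sys

variable (S : Sys H)

/-- The velocity associated with `u = K f`. -/
noncomputable def vel (f : H) : H := -(f + S.B f f)

/-- Weak solutions of `u' = vel f`, `u = K f`, on `[0, T]`, bounded by `F`. -/
structure IsWeak (T F : ℝ) (f : ℝ → H) : Prop where
  bdd : ∀ t ∈ Icc 0 T, ‖f t‖ ≤ F
  deriv : ∀ y, ∀ t ∈ Icc 0 T, HasDerivWithinAt (fun s => ⟪S.K (f s), y⟫) ⟪S.vel (f t), y⟫ (Icc 0 T) t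

/-- `m` is small on bounded sets if `K` is small. -/
lemma exists_m_small (F : ℝ) (hF : 0 ≤ F) {η : ℝ} (hη : 0 < η) : ∃ δ : ℝ, 0 < δ ∧ ∀ f g : H,
    ‖f‖ ≤ F → ‖g‖ ≤ F → ‖S.K f - S.K g‖ ≤ δ → S.m (f - g) ≤ η := by
  obtain ⟨C, hC, hm⟩ := S.interp (η / (2 * (2 * F + 1))) (by positivity)
  refine ⟨η / (2 * (C + 1)), by positivity, fun f g hf hg hfg => ?_⟩
  have h1 := hm (f - g)
  rw [map_sub] at h1
  have h2 : ‖f - g‖ ≤ 2 * F := (norm_sub_le _ _).trans (by linarith)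
  have h3 : η / (2 * (2 * F + 1)) * ‖f - g‖ ≤ η / 2 := by
    have e : η / (2 * (2 * F + 1)) * ‖f - g‖ = (η / 2) * (‖f - g‖ / (2 * F + 1)) := by field_simp
    rw [e]
    have : ‖f - g‖ / (2 * F + 1) ≤ 1 := by rw [div_le_one (by positivity)]; linarith
    nlinarith
  have h4 : C * ‖S.K f - S.K g‖ ≤ η / 2 := by
    calc C * ‖S.K f - S.K g‖ ≤ C * (η / (2 * (C + 1))) := mul_le_mul_of_nonneg_left hfg hC
      _ = (η / 2) * (C / (C + 1)) := by field_simp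
      _ ≤ η / 2 := by
        have : C / (C + 1) ≤ 1 := by rw [div_le_one (by positivity)]; linarith
        nlinarith
  linarith

/-- `B f f` is norm continuous on bounded sets with respect to `K f`. -/
lemma exists_B_small (F : ℝ) (hF : 0 ≤ F) {η : ℝ} (hη : 0 < η) : ∃ δ : ℝ, 0 < δ ∧ ∀ f g : H,
    ‖f‖ ≤ F → ‖g‖ ≤ F → ‖S.K f - S.K g‖ ≤ δ → ‖S.B f f - S.B g g‖ ≤ η := by
  have hc := S.one_le_c
  obtain ⟨δ, hδ, hm⟩ := S.exists_m_small F hF (η := η / (2 * (‖S.K‖ * (2 * F) + 1))) (by positivity)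
  refine ⟨min δ (η / (2 * (S.c * (2 * F) + 1))), by positivity, fun f g hf hg hfg => ?_⟩
  have h1 := hm f g hf hg (hfg.trans (min_le_left _ _))
  have h2 : ‖S.K (f - g)‖ ≤ η / (2 * (S.c * (2 * F) + 1)) := by
    rw [map_sub]; exact hfg.trans (min_le_right _ _)
  have h3 : ‖f + g‖ ≤ 2 * F := (norm_add_le _ _).trans (by linarith)
  have h4 : S.m (f + g) ≤ S.c * (2 * F) := (S.m_le _).trans (by gcongr)
  have h5 : ‖S.K (f + g)‖ ≤ ‖S.K‖ * (2 * F) := (S.K.le_opNorm _).trans (by gcongr)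
  rw [S.B_sub_sub]
  have h6 := S.B_le (f + g) (f - g)
  have h7 : ‖S.K (f + g)‖ * S.m (f - g) ≤ η / 2 := by
    calc ‖S.K (f + g)‖ * S.m (f - g) ≤ (‖S.K‖ * (2 * F)) * (η / (2 * (‖S.K‖ * (2 * F) + 1))) :=
          mul_le_mul h5 h1 (S.m_nonneg _) (by positivity)
      _ = (η / 2) * ((‖S.K‖ * (2 * F)) / (‖S.K‖ * (2 * F) + 1)) := by field_simp
      _ ≤ η / 2 := by
        have : (‖S.K‖ * (2 * F)) / (‖S.K‖ * (2 * F) + 1) ≤ 1 := by
          rw [div_le_one (by positivity)]; linarith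
        nlinarith
  have h8 : S.m (f + g) * ‖S.K (f - g)‖ ≤ η / 2 := by
    calc S.m (f + g) * ‖S.K (f - g)‖ ≤ (S.c * (2 * F)) * (η / (2 * (S.c * (2 * F) + 1))) :=
          mul_le_mul h4 h2 (norm_nonneg _) (by positivity)
      _ = (η / 2) * ((S.c * (2 * F)) / (S.c * (2 * F) + 1)) := by field_simp
      _ ≤ η / 2 := by
        have : (S.c * (2 * F)) / (S.c * (2 * F) + 1) ≤ 1 := by
          rw [div_le_one (by positivity)]; linarith
        nlinarith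
  linarith

section
variable [CompleteSpace H]

/-- Weak continuity on bounded sets with respect to `K f`, uniformly on compact sets. -/
lemma exists_weak_small (F : ℝ) (hF : 0 ≤ F) {Q : Set H} (hQ : IsCompact Q) {η : ℝ} (hη : 0 < η) :
    ∃ δ : ℝ, 0 < δ ∧ ∀ f g : H, ‖f‖ ≤ F → ‖g‖ ≤ F → ‖S.K f - S.K g‖ ≤ δ →
      ∀ y ∈ Q, |⟪f - g, y⟫| ≤ η := by
  -- the statement for single points
  have h1 : ∀ y : H, ∃ δ : ℝ, 0 < δ ∧ ∀ f g : H, ‖f‖ ≤ F → ‖g‖ ≤ F → ‖S.K f - S.K g‖ ≤ δ →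
      ∀ y' ∈ Metric.ball y (η / (2 * (4 * F + 1))), |⟪f - g, y'⟫| ≤ η := by
    intro y
    obtain ⟨z, hz⟩ := S.denseRange_K.exists_dist_lt y
      (by positivity : (0 : ℝ) < η / (2 * (4 * F + 1)))
    refine ⟨η / (2 * (‖z‖ + 1)), by positivity, fun f g hf hg hfg y' hy' => ?_⟩
    have h2 : ‖f - g‖ ≤ 2 * F := (norm_sub_le _ _).trans (by linarith)
    have e : ⟪f - g, y'⟫ = ⟪f - g, y' - S.K z⟫ - ⟪S.K f - S.K g, z⟫ := by
      rw [← map_sub, S.skew, inner_sub_right]; ring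
    have h3 : ‖y' - S.K z‖ ≤ 2 * (η / (2 * (4 * F + 1))) := by
      have h4 : ‖y' - y‖ < η / (2 * (4 * F + 1)) := by
        rw [← dist_eq_norm]; exact hy'
      rw [dist_eq_norm] at hz
      calc ‖y' - S.K z‖ = ‖(y' - y) + (y - S.K z)‖ := by congr 1; abel
        _ ≤ _ := norm_add_le _ _
        _ ≤ _ := by linarith
    have h5 : |⟪f - g, y' - S.K z⟫| ≤ η / 2 := by
      refine (abs_real_inner_le_norm _ _).trans ?_
      calc ‖f - g‖ * ‖y' - S.K z‖ ≤ (2 * F) * (2 * (η / (2 * (4 * F + 1)))) :=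
            mul_le_mul h2 h3 (norm_nonneg _) (by positivity)
        _ = (η / 2) * ((4 * F) / (4 * F + 1)) := by field_simp; ring
        _ ≤ η / 2 := by
          have : (4 * F) / (4 * F + 1) ≤ 1 := by rw [div_le_one (by positivity)]; linarith
          nlinarith
    have h6 : |⟪S.K f - S.K g, z⟫| ≤ η / 2 := by
      refine (abs_real_inner_le_norm _ _).trans ?_
      calc ‖S.K f - S.K g‖ * ‖z‖ ≤ (η / (2 * (‖z‖ + 1))) * ‖z‖ := by gcongr
        _ = (η / 2) * (‖z‖ / (‖z‖ + 1)) := by field_simp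
        _ ≤ η / 2 := by
          have : ‖z‖ / (‖z‖ + 1) ≤ 1 := by rw [div_le_one (by positivity)]; linarith
          nlinarith
    rw [e]
    exact (abs_sub _ _).trans (by linarith)
  choose δ hδ hδ' using h1
  obtain ⟨t, -, ht⟩ := hQ.elim_nhds_subcover (fun y => Metric.ball y (η / (2 * (4 * F + 1))))
    (fun y _ => Metric.ball_mem_nhds y (by positivity))
  by_cases hne : t.Nonempty
  · refine ⟨t.inf' hne δ, ?_, fun f g hf hg hfg y hy => ?_⟩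
    · rw [Finset.lt_inf'_iff]; exact fun i _ => hδ i
    · have hy2 := ht hy
      rw [mem_iUnion₂] at hy2
      obtain ⟨i, hi, hyi⟩ := hy2
      exact hδ' i f g hf hg (hfg.trans (Finset.inf'_le _ hi)) y hyi
  · refine ⟨1, one_pos, fun f g hf hg hfg y hy => ?_⟩
    rw [Finset.not_nonempty_iff_eq_empty] at hne
    have hy2 := ht hy
    simp [hne] at hy2

/-- The image under `K` of a closed ball is closed (sequential form). -/
lemma exists_of_tendsto {F : ℝ} (hF : 0 ≤ F) {g : ℕ → H} (hg : ∀ n, ‖g n‖ ≤ F) {x : H}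
    (hx : Tendsto (fun n => S.K (g n)) atTop (𝓝 x)) : ∃ f : H, ‖f‖ ≤ F ∧ S.K f = x := by
  set e : H ≃ₗ[ℝ] LinearMap.range (S.K : H →ₗ[ℝ] H) :=
    LinearEquiv.ofInjective (S.K : H →ₗ[ℝ] H) S.inj with he
  set ψ : LinearMap.range (S.K : H →ₗ[ℝ] H) →ₗ[ℝ] ℝ :=
    -(((innerSL ℝ x : H →L[ℝ] ℝ) : H →ₗ[ℝ] ℝ) ∘ₗ (e.symm : LinearMap.range (S.K : H →ₗ[ℝ] H) →ₗ[ℝ] H))
    with hψ
  have hψe : ∀ z, ψ (e z) = -⟪x, z⟫ := by
    intro z
    simp [hψ]
  have hbound : ∀ y, ‖ψ y‖ ≤ F * ‖y‖ := by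
    intro y
    obtain ⟨z, rfl⟩ := e.surjective y
    rw [hψe, norm_neg]
    have h1 : Tendsto (fun n => ‖⟪S.K (g n), z⟫‖) atTop (𝓝 ‖⟪x, z⟫‖) :=
      (hx.inner tendsto_const_nhds).norm
    refine le_of_tendsto h1 (Eventually.of_forall fun n => ?_)
    rw [S.skew, norm_neg]
    refine (norm_inner_le_norm _ _).trans ?_
    have h2 : ‖(e z : LinearMap.range (S.K : H →ₗ[ℝ] H))‖ = ‖S.K z‖ := rfl
    rw [h2]
    exact mul_le_mul_of_nonneg_right (hg n) (norm_nonneg _)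
  obtain ⟨φ, hφ, hφn⟩ := exists_extension_norm_eq _ (ψ.mkContinuous F hbound)
  refine ⟨(InnerProductSpace.toDual ℝ H).symm φ, ?_, ?_⟩
  · rw [LinearIsometryEquiv.norm_map, hφn]
    exact LinearMap.mkContinuous_norm_le _ hF _
  · refine ext_inner_right ℝ fun z => ?_
    rw [S.skew, InnerProductSpace.toDual_symm_apply]
    have h3 := hφ (e z)
    have h4 : ((e z : LinearMap.range (S.K : H →ₗ[ℝ] H)) : H) = S.K z := rfl
    rw [h4] at h3
    rw [h3, LinearMap.mkContinuous_apply, hψe, neg_neg]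

/-- Strong convergence of the mollifiers. -/
lemma exists_J_small (x : H) {η : ℝ} (hη : 0 < η) : ∃ ε₀ : ℝ, 0 < ε₀ ∧ ∀ ε, 0 < ε → ε ≤ ε₀ →
    ‖x - S.J ε x‖ ≤ η := by
  obtain ⟨z, hz⟩ := S.denseRange_K.exists_dist_lt x (half_pos hη)
  rw [dist_eq_norm] at hz
  refine ⟨η / (2 * (‖z‖ + 1)), by positivity, fun ε hε hε' => ?_⟩
  have e : x - S.J ε x = ((x - S.K z) - S.J ε (x - S.K z)) + (S.K z - S.J ε (S.K z)) := by
    rw [map_sub]; abel
  rw [e]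
  have h1 := S.norm_sub_J_le hε (x - S.K z)
  have h2 := S.norm_K_sub_J_le hε z
  have h3 : ε * ‖z‖ ≤ η / 2 := by
    calc ε * ‖z‖ ≤ (η / (2 * (‖z‖ + 1))) * ‖z‖ := by gcongr
      _ = (η / 2) * (‖z‖ / (‖z‖ + 1)) := by field_simp
      _ ≤ η / 2 := by
        have : ‖z‖ / (‖z‖ + 1) ≤ 1 := by rw [div_le_one (by positivity)]; linarith
        nlinarith
  exact (norm_add_le _ _).trans (by linarith)

end

end Sys

end Pool.Agent.Helper39.KdV
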